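import Mathlib

set_option autoImplicit false

/-!
# Besov spaces `B^1_{∞,q}(ℝⁿ)` and the Cauchy problem for the incompressible Euler equations
-/

namespace Pool.Agent.MP_f6d183_an

open MeasureTheory Set Filter Topology
open scoped ENNReal FourierTransform ContDiff

/-- Euclidean space `ℝⁿ`. -/
abbrev E (n : ℕ) : Type := EuclideanSpace ℝ (Fin n)

/-- A Littlewood–Paley cut-off function: smooth, compactly supported, radial, and equal to `1`
near the origin. -/
structure LPCutoff (n : ℕ) where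
  /-- the cut-off function -/
  toFun : E n → ℝ
  smooth : ContDiff ℝ ∞ toFun
  compactSupport : HasCompactSupport toFun
  radial : ∀ x y : E n, ‖x‖ = ‖y‖ → toFun x = toFun y
  one_near_zero : ∃ r : ℝ, 0 < r ∧ ∀ ξ : E n, ‖ξ‖ ≤ r → toFun ξ = 1

variable {n : ℕ}

/-- There are cut-off functions, for example `x ↦ θ(2 - ‖x‖²)` with a smooth step `θ`. -/
instance : Nonempty (LPCutoff n) := by
  refine ⟨⟨fun x => Real.smoothTransition (2 - ‖x‖ ^ 2), ?_, ?_, ?_, ⟨1, one_pos, ?_⟩⟩⟩
  · exact Real.smoothTransition.contDiff.comp (contDiff_const.sub (contDiff_norm_sq ℝ))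
  · refine HasCompactSupport.intro (isCompact_closedBall (0 : E n) 2) (fun x hx => ?_)
    rw [mem_closedBall_zero_iff, not_le] at hx
    exact Real.smoothTransition.zero_of_nonpos (by nlinarith)
  · intro x y h
    simp only [h]
  · intro x hx
    exact Real.smoothTransition.one_of_one_le (by nlinarith [norm_nonneg x])

/-- The inverse Fourier transform `h` of the cut-off `χ` (it is real valued, as `χ` is radial). -/
noncomputable def kernel (χ : LPCutoff n) (x : E n) : ℝ :=
  (𝓕⁻ (fun ξ : E n => (χ.toFun ξ : ℂ)) x).re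

/-- The low-frequency cut-off `S_j f = χ(2^{-j}D) f`, that is, the convolution of `f` with
`2^{jn} h(2^j ·)`. -/
noncomputable def lowPass (χ : LPCutoff n) (j : ℕ) (f : E n → E n) (x : E n) : E n :=
  ∫ y, ((2 : ℝ) ^ (j * n) * kernel χ ((2 : ℝ) ^ j • y)) • f (x - y)

/-- The Littlewood–Paley blocks, with the index shifted by one: `block χ 0 f = Δ_{-1} f = S_0 f`
and `block χ (j + 1) f = Δ_j f = S_{j+1} f - S_j f` for `j ≥ 0`. -/
noncomputable def block (χ : LPCutoff n) : ℕ → (E n → E n) → E n → E n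
  | 0, f => lowPass χ 0 f
  | j + 1, f => fun x => lowPass χ (j + 1) f x - lowPass χ j f x

/-- The norm `‖f‖_{B^1_{∞,q}} = ‖(2^j ‖Δ_j f‖_{L^∞})_{j ≥ -1}‖_{ℓ^q}`, as an extended nonnegative
real number. The block with index `m` is `Δ_{m-1}` and has the weight `2^(m-1)`. -/
noncomputable def besovNorm (χ : LPCutoff n) (q : ℝ) (f : E n → E n) : ℝ≥0∞ :=
  (∑' m : ℕ, ((2 : ℝ≥0∞) ^ ((m : ℤ) - 1) * ⨆ x, ‖block χ m f x‖ₑ) ^ q) ^ (1 / q)

/-- `f` is a vector field in `B^1_{∞,q}(ℝⁿ)` (all elements of that space are bounded and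
continuous). -/
def MemBesov (χ : LPCutoff n) (q : ℝ) (f : E n → E n) : Prop :=
  Continuous f ∧ (∃ C : ℝ, ∀ x, ‖f x‖ ≤ C) ∧ besovNorm χ q f < ⊤

/-- `div f = 0` in the sense of distributions. -/
def WeaklyDivFree (f : E n → E n) : Prop :=
  ∀ ψ : E n → ℝ, ContDiff ℝ ∞ ψ → HasCompactSupport ψ → ∫ x, fderiv ℝ ψ x (f x) = 0

/-- `u ∈ C([0,T], B^1_{∞,q})` and `p` form a solution of the incompressible Euler equations
`∂_t u + div (u ⊗ u) + ∇p = 0`, `div u = 0` on `[0,T] × ℝⁿ` with initial datum `u₀`, in the sense of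
distributions (tested with `ψ` in space and integrated in time). The pressure is continuous and
grows sublinearly at infinity, uniformly in time, as does the usual pressure given by the Riesz
transforms, which grows at most logarithmically; a condition of this kind is needed for any
uniqueness, as `u = a(t)`, `p = -a'(t)·x` solves the equations for every `a`. -/
structure IsEulerSolution (χ : LPCutoff n) (q T : ℝ) (u₀ : E n → E n) (u : ℝ → E n → E n)
    (p : ℝ → E n → ℝ) : Prop where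
  init : u 0 = u₀
  mem : ∀ t ∈ Icc 0 T, MemBesov χ q (u t)
  cont : ∀ t₀ ∈ Icc 0 T,
    Tendsto (fun t => besovNorm χ q (fun x => u t x - u t₀ x)) (𝓝[Icc 0 T] t₀) (𝓝 0)
  pressure_cont : ContinuousOn (Function.uncurry p) (Icc 0 T ×ˢ univ)
  pressure_growth : ∀ ε : ℝ, 0 < ε → ∃ R : ℝ, ∀ t ∈ Icc 0 T, ∀ x : E n, R ≤ ‖x‖ → |p t x| ≤ ε * ‖x‖
  divFree : ∀ t ∈ Icc 0 T, WeaklyDivFree (u t)
  momentum : ∀ ψ : E n → ℝ, ContDiff ℝ ∞ ψ → HasCompactSupport ψ → ∀ t ∈ Icc 0 T,
    (∫ x, ψ x • u t x) - ∫ x, ψ x • u₀ x =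
      ∫ s in (0 : ℝ)..t,
        ((∫ x, (fderiv ℝ ψ x (u s x)) • u s x) + ∫ x, p s x • gradient ψ x)

/-- Local well-posedness in `B^1_{∞,q}(ℝⁿ)` in the sense of Hadamard, for a notion of solution
`Sol T u₀ u` (to be read: `u` is a solution on `[0,T]` with initial datum `u₀`): every
divergence-free `u₀` in the space has a neighbourhood and a time `T > 0` such that every
divergence-free datum in the neighbourhood has exactly one solution on `[0,T]`, and the solution
depends continuously on the datum at `u₀`, as a map into `C([0,T], B^1_{∞,q})`. (Continuity is only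
required at `u₀`, so this is a weak form of the continuous dependence on the data.) -/
def WellPosed (χ : LPCutoff n) (q : ℝ) (Sol : ℝ → (E n → E n) → (ℝ → E n → E n) → Prop) : Prop :=
  ∀ u₀ : E n → E n, MemBesov χ q u₀ → WeaklyDivFree u₀ →
    ∃ T : ℝ, 0 < T ∧
      (∃ r : ℝ≥0∞, 0 < r ∧ ∀ v₀ : E n → E n, MemBesov χ q v₀ → WeaklyDivFree v₀ →
        besovNorm χ q (fun x => v₀ x - u₀ x) < r →
          ∃ v, Sol T v₀ v ∧ ∀ v', Sol T v₀ v' → ∀ t ∈ Icc 0 T, v' t = v t) ∧
      (∀ ε : ℝ≥0∞, 0 < ε → ∃ δ : ℝ≥0∞, 0 < δ ∧ ∀ v₀ : E n → E n, MemBesov χ q v₀ →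
        WeaklyDivFree v₀ → besovNorm χ q (fun x => v₀ x - u₀ x) < δ →
          ∀ u v, Sol T u₀ u → Sol T v₀ v →
            ∀ t ∈ Icc 0 T, besovNorm χ q (fun x => v t x - u t x) ≤ ε)

end Pool.Agent.MP_f6d183_an
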