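import Mathlib
import Pool.Agent.MP_f6d183_an.Defs

set_option autoImplicit false

/-!
# The energy estimate for two approximate smooth solutions of the Euler equations
-/

namespace Pool.Agent.MP_f6d183_an

open MeasureTheory Set Filter Topology
open scoped ENNReal ContDiff RealInnerProductSpace

variable {n : ℕ}

/-- a smooth flow solving the Euler equations up to a small residual -/
structure Flow (T : ℝ) (U : ℝ → E n → E n) (P : ℝ → E n → ℝ) (Ut : ℝ → E n → E n)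
    (M g : ℝ) : Prop where
  cont : ContinuousOn (Function.uncurry U) (Icc 0 T ×ˢ univ)
  ut_cont : ContinuousOn (Function.uncurry Ut) (Icc 0 T ×ˢ univ)
  smooth : ∀ t ∈ Icc 0 T, ContDiff ℝ ∞ (U t)
  psmooth : ∀ t ∈ Icc 0 T, ContDiff ℝ ∞ (P t)
  deriv : ∀ t ∈ Ioo 0 T, ∀ x, HasDerivAt (fun s => U s x) (Ut t x) t
  bound : ∀ t ∈ Icc 0 T, ∀ x, ‖U t x‖ ≤ M
  divFree : ∀ t ∈ Icc 0 T, WeaklyDivFree (U t)
  residual : ∀ t ∈ Ioo 0 T, ∀ x,
    ‖Ut t x + fderiv ℝ (U t) x (U t x) + gradient (P t) x‖ ≤ g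

/-- the pointwise inequality behind the energy estimate -/
lemma energy_pointwise {a U r₁ r₂ Gπ GP at' Ut : E n} {DA DU : E n →L[ℝ] E n}
    {Dζ : E n →L[ℝ] ℝ} {ζ π P M L Pb g₁ g₂ : ℝ} (hζ : 0 ≤ ζ)
    (h1 : at' + DA a + Gπ = r₁) (h2 : Ut + DU U + GP = r₂) (hr1 : ‖r₁‖ ≤ g₁) (hr2 : ‖r₂‖ ≤ g₂)
    (ha : ‖a‖ ≤ M) (hU : ‖U‖ ≤ M) (hL : ‖DU‖ ≤ L) (hPb : Dζ ≠ 0 → |π - P| ≤ Pb) :
    ζ * (2 * ⟪a - U, at' - Ut⟫) + (Dζ a * ‖a - U‖ ^ 2 + ζ * (2 * ⟪a - U, DA a - DU a⟫)) +
      2 * (Dζ (a - U) * (π - P) + ζ * ⟪Gπ - GP, a - U⟫) ≤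
    (2 * L + 1) * (ζ * ‖a - U‖ ^ 2) + ((g₁ + g₂) ^ 2 * ζ + (4 * M ^ 3 + 4 * M * Pb) * ‖Dζ‖) := by
  have hM : 0 ≤ M := (norm_nonneg _).trans ha
  have hL0 : 0 ≤ L := (norm_nonneg _).trans hL
  set w : E n := a - U with hw
  have hwM : ‖w‖ ≤ 2 * M := (norm_sub_le _ _).trans (by linarith)
  have hw0 : 0 ≤ ‖w‖ := norm_nonneg _
  have e1 : at' - Ut = (r₁ - r₂) - (DA a - DU a) - DU w - (Gπ - GP) := by
    rw [← h1, ← h2, hw, map_sub]; abel
  have e2 : ⟪w, at' - Ut⟫ = ⟪w, r₁ - r₂⟫ - ⟪w, DA a - DU a⟫ - ⟪w, DU w⟫ - ⟪w, Gπ - GP⟫ := by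
    rw [e1, inner_sub_right, inner_sub_right, inner_sub_right]
  have e3 : ⟪Gπ - GP, w⟫ = ⟪w, Gπ - GP⟫ := real_inner_comm _ _
  rw [e2, e3]
  have b1 : 2 * ⟪w, r₁ - r₂⟫ ≤ ‖w‖ ^ 2 + (g₁ + g₂) ^ 2 := by
    have h3 : ⟪w, r₁ - r₂⟫ ≤ ‖w‖ * ‖r₁ - r₂‖ := real_inner_le_norm _ _
    have h4 : ‖r₁ - r₂‖ ≤ g₁ + g₂ := (norm_sub_le _ _).trans (add_le_add hr1 hr2)
    have h5 : ‖w‖ * ‖r₁ - r₂‖ ≤ ‖w‖ * (g₁ + g₂) := by gcongr
    nlinarith [sq_nonneg (‖w‖ - (g₁ + g₂))]
  have b2 : -(2 * ⟪w, DU w⟫) ≤ 2 * L * ‖w‖ ^ 2 := by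
    have h3 : |⟪w, DU w⟫| ≤ ‖w‖ * ‖DU w‖ := abs_real_inner_le_norm _ _
    have h4 : ‖DU w‖ ≤ L * ‖w‖ := (DU.le_opNorm w).trans (by gcongr)
    have h5 : ‖w‖ * ‖DU w‖ ≤ ‖w‖ * (L * ‖w‖) := by gcongr
    have h6 := neg_abs_le ⟪w, DU w⟫
    nlinarith
  have b3 : Dζ a * ‖w‖ ^ 2 ≤ 4 * M ^ 3 * ‖Dζ‖ := by
    have h3 : Dζ a ≤ ‖Dζ‖ * M := (le_abs_self _).trans ((Dζ.le_opNorm a).trans (by gcongr))
    calc Dζ a * ‖w‖ ^ 2 ≤ (‖Dζ‖ * M) * (2 * M) ^ 2 := by gcongr
      _ = _ := by ring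
  have b4 : 2 * (Dζ w * (π - P)) ≤ 4 * M * Pb * ‖Dζ‖ := by
    by_cases h0 : Dζ = 0
    · simp [h0]
    · have h3 : |Dζ w| ≤ ‖Dζ‖ * (2 * M) := (Dζ.le_opNorm w).trans (by gcongr)
      have h4 := hPb h0
      calc 2 * (Dζ w * (π - P)) ≤ 2 * (|Dζ w| * |π - P|) := by
            rw [← abs_mul]; gcongr; exact le_abs_self _
        _ ≤ 2 * ((‖Dζ‖ * (2 * M)) * Pb) := by gcongr
        _ = _ := by ring
  have b1' := mul_le_mul_of_nonneg_left b1 hζ
  have b2' := mul_le_mul_of_nonneg_left b2 hζ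
  nlinarith

section
variable {T M g₁ g₂ L Pb : ℝ} {a U at' Ut : ℝ → E n → E n} {π P : ℝ → E n → ℝ} {ζ : E n → ℝ}

lemma Flow.cont_slice (h : Flow T U P Ut M g₁) {t : ℝ} (ht : t ∈ Icc 0 T) :
    Continuous (U t) := (h.smooth t ht).continuous

lemma Flow.ut_slice (h : Flow T U P Ut M g₁) {t : ℝ} (ht : t ∈ Icc 0 T) :
    Continuous (Ut t) := by
  have h1 := h.ut_cont
  have h2 : Continuous (fun x : E n => (t, x)) := by fun_prop
  have h3 : ContinuousOn (fun x : E n => Function.uncurry Ut (t, x)) univ :=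
    h1.comp h2.continuousOn (fun x _ => by simp [ht])
  exact continuousOn_univ.1 h3

/-- The energy estimate. -/
theorem Flow.energy (h1 : Flow T a π at' M g₁) (h2 : Flow T U P Ut M g₂)
    (hL : ∀ t ∈ Icc 0 T, ∀ x, ‖fderiv ℝ (U t) x‖ ≤ L)
    (hζ : ContDiff ℝ ∞ ζ) (hζc : HasCompactSupport ζ) (hζ0 : ∀ x, 0 ≤ ζ x)
    (hPb : ∀ t ∈ Icc 0 T, ∀ x ∈ tsupport ζ, |π t x - P t x| ≤ Pb) :
    ∀ t ∈ Icc 0 T, ∫ x, ζ x * ‖a t x - U t x‖ ^ 2 ≤
      Real.exp ((2 * L + 1) * t) * ((∫ x, ζ x * ‖a 0 x - U 0 x‖ ^ 2) +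
        t * ((g₁ + g₂) ^ 2 * (∫ x, ζ x) + (4 * M ^ 3 + 4 * M * Pb) * ∫ x, ‖fderiv ℝ ζ x‖)) := by
  intro t ht
  have hT : 0 ≤ T := ht.1.trans ht.2
  have hζcont : Continuous ζ := hζ.continuous
  have hDζcont : Continuous (fderiv ℝ ζ) := hζ.continuous_fderiv (by simp)
  have hDζc : HasCompactSupport (fderiv ℝ ζ) := hζc.fderiv ℝ
  have iζ : Integrable ζ := hζcont.integrable_of_hasCompactSupport hζc
  have iDζ : Integrable (fun x => ‖fderiv ℝ ζ x‖) :=
    (hDζcont.integrable_of_hasCompactSupport hDζc).norm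
  set c : ℝ := (g₁ + g₂) ^ 2 * (∫ x, ζ x) + (4 * M ^ 3 + 4 * M * Pb) * ∫ x, ‖fderiv ℝ ζ x‖ with hc
  set lam : ℝ := 2 * L + 1 with hlam
  have hL0 : 0 ≤ L := (norm_nonneg _).trans (hL t ht 0)
  have hM0 : 0 ≤ M := (norm_nonneg _).trans (h1.bound t ht 0)
  set F : ℝ → ℝ := fun t => ∫ x, ζ x * ‖a t x - U t x‖ ^ 2 with hF
  -- continuity
  have hFc : ContinuousOn F (Icc 0 T) := by
    refine continuousOn_integral_of_compact_support (k := tsupport ζ) hζc ?_ ?_
    · have e1 : ContinuousOn (fun p : ℝ × E n => a p.1 p.2) (Icc 0 T ×ˢ univ) := h1.cont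
      have e2 : ContinuousOn (fun p : ℝ × E n => U p.1 p.2) (Icc 0 T ×ˢ univ) := h2.cont
      have e3 : ContinuousOn (fun p : ℝ × E n => ζ p.2) (Icc 0 T ×ˢ univ) :=
        (hζcont.comp continuous_snd).continuousOn
      exact e3.mul ((e1.sub e2).norm.pow 2)
    · intro s x _ hx
      rw [image_eq_zero_of_notMem_tsupport hx, zero_mul]
  -- derivative
  obtain ⟨B, hB⟩ : ∃ B, ∀ p ∈ Icc 0 T ×ˢ tsupport ζ,
      ‖2 * ⟪a p.1 p.2 - U p.1 p.2, at' p.1 p.2 - Ut p.1 p.2⟫‖ ≤ B := by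
    refine (isCompact_Icc.prod hζc).exists_bound_of_continuousOn ?_
    have e1 : ContinuousOn (fun p : ℝ × E n => a p.1 p.2) (Icc 0 T ×ˢ univ) := h1.cont
    have e2 : ContinuousOn (fun p : ℝ × E n => U p.1 p.2) (Icc 0 T ×ˢ univ) := h2.cont
    have e3 : ContinuousOn (fun p : ℝ × E n => at' p.1 p.2) (Icc 0 T ×ˢ univ) := h1.ut_cont
    have e4 : ContinuousOn (fun p : ℝ × E n => Ut p.1 p.2) (Icc 0 T ×ˢ univ) := h2.ut_cont
    refine ContinuousOn.mono (s := Icc 0 T ×ˢ univ) ?_ (prod_mono_right (subset_univ _))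
    exact continuousOn_const.mul ((e1.sub e2).inner (e3.sub e4))
  have hFd : ∀ s ∈ Ioo 0 T, HasDerivAt F
      (∫ x, ζ x * (2 * ⟪a s x - U s x, at' s x - Ut s x⟫)) s := by
    intro s hs
    refine (hasDerivAt_integral_of_dominated_loc_of_deriv_le (s := Ioo 0 T)
      (F := fun t x => ζ x * ‖a t x - U t x‖ ^ 2)
      (F' := fun t x => ζ x * (2 * ⟪a t x - U t x, at' t x - Ut t x⟫))
      (bound := fun x => ζ x * B) (Ioo_mem_nhds hs.1 hs.2) ?_ ?_ ?_ ?_ ?_ ?_).2
    · filter_upwards [Ioo_mem_nhds hs.1 hs.2] with r hr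
      have hr' := Ioo_subset_Icc_self hr
      exact (hζcont.mul (((h1.cont_slice hr').sub (h2.cont_slice hr')).norm.pow 2)).aestronglyMeasurable
    · have hr' := Ioo_subset_Icc_self hs
      exact (hζcont.mul (((h1.cont_slice hr').sub (h2.cont_slice hr')).norm.pow 2)).integrable_of_hasCompactSupport
        hζc.mul_right
    · have hr' := Ioo_subset_Icc_self hs
      exact (hζcont.mul (continuous_const.mul (((h1.cont_slice hr').sub (h2.cont_slice hr')).inner
        ((h1.ut_slice hr').sub (h2.ut_slice hr'))))).aestronglyMeasurable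
    · refine Eventually.of_forall (fun x r hr => ?_)
      by_cases hx : x ∈ tsupport ζ
      · rw [norm_mul, Real.norm_of_nonneg (hζ0 x)]
        exact mul_le_mul_of_nonneg_left (hB (r, x) ⟨Ioo_subset_Icc_self hr, hx⟩) (hζ0 x)
      · rw [image_eq_zero_of_notMem_tsupport hx]; simp
    · exact iζ.mul_const B
    · refine Eventually.of_forall (fun x r hr => ?_)
      have hw : HasDerivAt (fun s => a s x - U s x) (at' r x - Ut r x) r :=
        (h1.deriv r hr x).sub (h2.deriv r hr x)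
      have h3 := hw.norm_sq.const_mul (ζ x)
      exact h3
  -- bound of the derivative
  have hFd' : ∀ s ∈ Ioo 0 T,
      (∫ x, ζ x * (2 * ⟪a s x - U s x, at' s x - Ut s x⟫)) ≤ lam * F s + c := by
    intro s hs
    have hs' := Ioo_subset_Icc_self hs
    have ca := h1.cont_slice hs'
    have cU := h2.cont_slice hs'
    have sw : ContDiff ℝ ∞ (fun x => a s x - U s x) := (h1.smooth s hs').sub (h2.smooth s hs')
    have sp : ContDiff ℝ ∞ (fun x => π s x - P s x) := (h1.psmooth s hs').sub (h2.psmooth s hs')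
    set ψ₁ : E n → ℝ := fun x => ζ x * ‖a s x - U s x‖ ^ 2 with hψ₁
    set ψ₂ : E n → ℝ := fun x => ζ x * (π s x - P s x) with hψ₂
    have sψ₁ : ContDiff ℝ ∞ ψ₁ := hζ.mul (sw.norm_sq ℝ)
    have sψ₂ : ContDiff ℝ ∞ ψ₂ := hζ.mul sp
    have cψ₁ : HasCompactSupport ψ₁ := hζc.mul_right
    have cψ₂ : HasCompactSupport ψ₂ := hζc.mul_right
    have z1 : ∫ x, fderiv ℝ ψ₁ x (a s x) = 0 := h1.divFree s hs' ψ₁ sψ₁ cψ₁
    have z2 : ∫ x, fderiv ℝ ψ₂ x (a s x) = 0 := h1.divFree s hs' ψ₂ sψ₂ cψ₂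
    have z3 : ∫ x, fderiv ℝ ψ₂ x (U s x) = 0 := h2.divFree s hs' ψ₂ sψ₂ cψ₂
    have iD : ∀ {ψ : E n → ℝ} {v : E n → E n}, ContDiff ℝ ∞ ψ → HasCompactSupport ψ →
        Continuous v → Integrable (fun x => fderiv ℝ ψ x (v x)) := by
      intro ψ v h3 h4 h5
      have h6 : Continuous (fun x => fderiv ℝ ψ x (v x)) :=
        (h3.continuous_fderiv (by simp)).clm_apply h5
      refine h6.integrable_of_hasCompactSupport ?_
      refine HasCompactSupport.intro (h4.fderiv ℝ) (fun x hx => ?_)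
      rw [image_eq_zero_of_notMem_tsupport hx]; simp
    have i1 := iD sψ₁ cψ₁ ca
    have i2 := iD sψ₂ cψ₂ ca
    have i3 := iD sψ₂ cψ₂ cU
    have i0 : Integrable (fun x => ζ x * (2 * ⟪a s x - U s x, at' s x - Ut s x⟫)) := by
      refine (hζcont.mul (continuous_const.mul ((ca.sub cU).inner
        ((h1.ut_slice hs').sub (h2.ut_slice hs'))))).integrable_of_hasCompactSupport ?_
      exact hζc.mul_right
    have e1 : (∫ x, ζ x * (2 * ⟪a s x - U s x, at' s x - Ut s x⟫)) =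
        ∫ x, (ζ x * (2 * ⟪a s x - U s x, at' s x - Ut s x⟫) + fderiv ℝ ψ₁ x (a s x) +
          2 * (fderiv ℝ ψ₂ x (a s x) - fderiv ℝ ψ₂ x (U s x))) := by
      rw [integral_add, integral_add, z1, integral_const_mul, integral_sub i2 i3, z2, z3]
      · simp
      · exact i0
      · exact i1
      · exact i0.add i1
      · exact (i2.sub i3).const_mul 2
    have e2 : lam * F s + c = ∫ x, ((2 * L + 1) * (ζ x * ‖a s x - U s x‖ ^ 2) +
        ((g₁ + g₂) ^ 2 * ζ x + (4 * M ^ 3 + 4 * M * Pb) * ‖fderiv ℝ ζ x‖)) := by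
      have j1 : Integrable (fun x => ζ x * ‖a s x - U s x‖ ^ 2) :=
        sψ₁.continuous.integrable_of_hasCompactSupport cψ₁
      rw [integral_add, integral_const_mul, integral_add, integral_const_mul, integral_const_mul]
      · exact iζ.const_mul _
      · exact iDζ.const_mul _
      · exact j1.const_mul _
      · exact (iζ.const_mul _).add (iDζ.const_mul _)
    rw [e1, e2]
    refine integral_mono ((i0.add i1).add ((i2.sub i3).const_mul 2)) ?_ (fun x => ?_)
    · have j1 : Integrable (fun x => ζ x * ‖a s x - U s x‖ ^ 2) :=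
        sψ₁.continuous.integrable_of_hasCompactSupport cψ₁
      exact (j1.const_mul _).add ((iζ.const_mul _).add (iDζ.const_mul _))
    · have da : HasFDerivAt (a s) (fderiv ℝ (a s) x) x :=
        ((h1.smooth s hs').differentiable (by simp) x).hasFDerivAt
      have dU : HasFDerivAt (U s) (fderiv ℝ (U s) x) x :=
        ((h2.smooth s hs').differentiable (by simp) x).hasFDerivAt
      have dπ : HasFDerivAt (π s) (fderiv ℝ (π s) x) x :=
        ((h1.psmooth s hs').differentiable (by simp) x).hasFDerivAt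
      have dP : HasFDerivAt (P s) (fderiv ℝ (P s) x) x :=
        ((h2.psmooth s hs').differentiable (by simp) x).hasFDerivAt
      have dζ : HasFDerivAt ζ (fderiv ℝ ζ x) x := (hζ.differentiable (by simp) x).hasFDerivAt
      have f1 : fderiv ℝ ψ₁ x (a s x) = fderiv ℝ ζ x (a s x) * ‖a s x - U s x‖ ^ 2 +
          ζ x * (2 * ⟪a s x - U s x, fderiv ℝ (a s) x (a s x) - fderiv ℝ (U s) x (a s x)⟫) := by
        have h3 := dζ.mul (da.sub dU).norm_sq
        have h4 : fderiv ℝ ψ₁ x = _ := h3.fderiv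
        rw [h4]
        simp [inner_sub_left, inner_sub_right]
        ring
      have f2 : ∀ v : E n, fderiv ℝ ψ₂ x v = fderiv ℝ ζ x v * (π s x - P s x) +
          ζ x * ⟪gradient (π s) x - gradient (P s) x, v⟫ := by
        intro v
        have h3 := dζ.mul (dπ.sub dP)
        have h4 : fderiv ℝ ψ₂ x = _ := h3.fderiv
        rw [h4, inner_sub_left]
        have g1 : ⟪gradient (π s) x, v⟫ = fderiv ℝ (π s) x v :=
          InnerProductSpace.toDual_symm_apply
        have g2 : ⟪gradient (P s) x, v⟫ = fderiv ℝ (P s) x v :=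
          InnerProductSpace.toDual_symm_apply
        rw [g1, g2]
        simp
        ring
      have f3 : fderiv ℝ ψ₂ x (a s x) - fderiv ℝ ψ₂ x (U s x) =
          fderiv ℝ ζ x (a s x - U s x) * (π s x - P s x) +
          ζ x * ⟪gradient (π s) x - gradient (P s) x, a s x - U s x⟫ := by
        rw [← map_sub, f2]
      simp only
      rw [f1, f3]
      refine energy_pointwise (hζ0 x) rfl rfl (h1.residual s hs x) (h2.residual s hs x)
        (h1.bound s hs' x) (h2.bound s hs' x) (hL s hs' x) (fun h0 => ?_)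
      refine hPb s hs' x ?_
      by_contra hx
      apply h0
      have : x ∉ tsupport (fderiv ℝ ζ) := fun h => hx (tsupport_fderiv_subset ℝ h)
      exact image_eq_zero_of_notMem_tsupport this
  -- Grönwall
  have hanti : AntitoneOn (fun s => Real.exp (-(lam * s)) * F s - c * s) (Icc 0 T) := by
    have hd : ∀ s ∈ Ioo 0 T, HasDerivAt (fun s => Real.exp (-(lam * s)) * F s - c * s)
        ((Real.exp (-(lam * s)) * (-(lam * 1))) * F s + Real.exp (-(lam * s)) *
          (∫ x, ζ x * (2 * ⟪a s x - U s x, at' s x - Ut s x⟫)) - c * 1) s := by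
      intro s hs
      have h3 : HasDerivAt (fun s : ℝ => Real.exp (-(lam * s)))
          (Real.exp (-(lam * s)) * (-(lam * 1))) s :=
        (((hasDerivAt_id' s).const_mul lam).neg).exp
      exact (h3.mul (hFd s hs)).sub ((hasDerivAt_id' s).const_mul c)
    refine antitoneOn_of_deriv_nonpos (convex_Icc 0 T) ?_ ?_ ?_
    · exact ((by fun_prop : Continuous (fun s : ℝ => Real.exp (-(lam * s)))).continuousOn.mul
        hFc).sub (by fun_prop : Continuous (fun s : ℝ => c * s)).continuousOn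
    · rw [interior_Icc]
      intro s hs
      exact (hd s hs).differentiableAt.differentiableWithinAt
    · rw [interior_Icc]
      intro s hs
      rw [(hd s hs).deriv]
      have hc0 : 0 ≤ c := by
        have hPb0 : 0 ≤ Pb ∨ (∫ x, ‖fderiv ℝ ζ x‖) = 0 := by
          by_cases hne : (tsupport ζ).Nonempty
          · obtain ⟨x, hx⟩ := hne
            exact Or.inl ((abs_nonneg _).trans (hPb t ht x hx))
          · right
            rw [not_nonempty_iff_eq_empty] at hne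
            have : ∀ x, fderiv ℝ ζ x = 0 := by
              intro x
              have hx : x ∉ tsupport (fderiv ℝ ζ) := by
                intro h
                have := tsupport_fderiv_subset ℝ h
                rw [hne] at this
                exact this
              exact image_eq_zero_of_notMem_tsupport hx
            simp [this]
        rw [hc]
        have hi1 : 0 ≤ ∫ x, ζ x := integral_nonneg hζ0
        have hi2 : 0 ≤ ∫ x, ‖fderiv ℝ ζ x‖ := integral_nonneg (fun _ => norm_nonneg _)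
        rcases hPb0 with h3 | h3
        · positivity
        · rw [h3]; simp only [mul_zero, add_zero]; positivity
      have h5 := hFd' s hs
      have h6 : Real.exp (-(lam * s)) ≤ 1 := by
        rw [Real.exp_le_one_iff]
        have : 0 ≤ lam * s := mul_nonneg (by rw [hlam]; linarith) hs.1.le
        linarith
      have h7 : 0 < Real.exp (-(lam * s)) := Real.exp_pos _
      nlinarith
  have hfin := hanti (left_mem_Icc.2 hT) ht ht.1
  simp only [mul_zero, neg_zero, Real.exp_zero, one_mul, sub_zero] at hfin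
  have h8 : Real.exp (-(lam * t)) * F t ≤ F 0 + t * c := by linarith
  calc F t = Real.exp (lam * t) * (Real.exp (-(lam * t)) * F t) := by
        rw [← mul_assoc, ← Real.exp_add]; simp
    _ ≤ Real.exp (lam * t) * (F 0 + t * c) := by gcongr

end

end Pool.Agent.MP_f6d183_an
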