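import Mathlib
import Pool.Agent.MP_f6d183_an.Energy

set_option autoImplicit false

/-!
# The explicit approximate solution
-/

namespace Pool.Agent.MP_f6d183_an

open MeasureTheory Set Filter Topology
open scoped ENNReal ContDiff RealInnerProductSpace

variable {n : ℕ}

/-! ### Waves -/

/-- `a + b sin (N θ) + c cos (N θ)` -/
noncomputable def wave (N a b c θ : ℝ) : ℝ := a + b * Real.sin (N * θ) + c * Real.cos (N * θ)

/-- derivative of the oscillating part with respect to `N θ` -/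
noncomputable def wave' (N b c θ : ℝ) : ℝ := b * Real.cos (N * θ) - c * Real.sin (N * θ)

lemma wave_hasDerivAt {α β γ τ : ℝ → ℝ} {α' β' γ' τ' t : ℝ} (hα : HasDerivAt α α' t)
    (hβ : HasDerivAt β β' t) (hγ : HasDerivAt γ γ' t) (hτ : HasDerivAt τ τ' t) (N X : ℝ) :
    HasDerivAt (fun t => wave N (α t) (β t) (γ t) (X - τ t))
      (wave N α' β' γ' (X - τ t) - N * τ' * wave' N (β t) (γ t) (X - τ t)) t := by
  have hθ : HasDerivAt (fun t => N * (X - τ t)) (N * (0 - τ')) t :=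
    ((hasDerivAt_const t X).sub hτ).const_mul N
  have h := (hα.add (hβ.mul hθ.sin)).add (hγ.mul hθ.cos)
  refine h.congr_deriv ?_
  unfold wave wave'
  ring

lemma wave_hasFDerivAt {α β γ τ : ℝ → ℝ} {α' β' γ' τ' : ℝ} {i0 i1 : Fin n} {x : E n}
    (hα : HasDerivAt α α' (x i1)) (hβ : HasDerivAt β β' (x i1)) (hγ : HasDerivAt γ γ' (x i1))
    (hτ : HasDerivAt τ τ' (x i1)) (N : ℝ) :
    HasFDerivAt (fun x : E n => wave N (α (x i1)) (β (x i1)) (γ (x i1)) (x i0 - τ (x i1)))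
      ((N * wave' N (β (x i1)) (γ (x i1)) (x i0 - τ (x i1))) • (EuclideanSpace.proj i0 : E n →L[ℝ] ℝ)
      + (wave N α' β' γ' (x i0 - τ (x i1)) - N * τ' *
          wave' N (β (x i1)) (γ (x i1)) (x i0 - τ (x i1))) •
        (EuclideanSpace.proj i1 : E n →L[ℝ] ℝ)) x := by
  have h0 : HasFDerivAt (fun x : E n => x i0) (EuclideanSpace.proj i0 : E n →L[ℝ] ℝ) x :=
    (EuclideanSpace.proj i0 : E n →L[ℝ] ℝ).hasFDerivAt
  have h1 : HasFDerivAt (fun x : E n => x i1) (EuclideanSpace.proj i1 : E n →L[ℝ] ℝ) x :=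
    (EuclideanSpace.proj i1 : E n →L[ℝ] ℝ).hasFDerivAt
  have gα := hα.comp_hasFDerivAt x h1
  have gβ := hβ.comp_hasFDerivAt x h1
  have gγ := hγ.comp_hasFDerivAt x h1
  have gτ := hτ.comp_hasFDerivAt x h1
  have hθ : HasFDerivAt (fun x : E n => N * (x i0 - τ (x i1)))
      (N • ((EuclideanSpace.proj i0 : E n →L[ℝ] ℝ) - τ' • (EuclideanSpace.proj i1 : E n →L[ℝ] ℝ))) x :=
    (h0.sub gτ).const_mul N
  have h := (gα.add (gβ.mul hθ.sin)).add (gγ.mul hθ.cos)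
  refine h.congr_fderiv ?_
  ext v
  unfold wave wave'
  simp
  ring

lemma wave_contDiff {α β γ τ : ℝ → ℝ} (hα : ContDiff ℝ ∞ α) (hβ : ContDiff ℝ ∞ β)
    (hγ : ContDiff ℝ ∞ γ) (hτ : ContDiff ℝ ∞ τ) (i0 i1 : Fin n) (N : ℝ) :
    ContDiff ℝ ∞ (fun x : E n => wave N (α (x i1)) (β (x i1)) (γ (x i1)) (x i0 - τ (x i1))) := by
  have h0 : ContDiff ℝ ∞ (fun x : E n => x i0) :=
    (EuclideanSpace.proj i0 : E n →L[ℝ] ℝ).contDiff
  have h1 : ContDiff ℝ ∞ (fun x : E n => x i1) :=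
    (EuclideanSpace.proj i1 : E n →L[ℝ] ℝ).contDiff
  have hθ : ContDiff ℝ ∞ (fun x : E n => N * (x i0 - τ (x i1))) :=
    contDiff_const.mul (h0.sub (hτ.comp h1))
  exact ((hα.comp h1).add ((hβ.comp h1).mul hθ.sin)).add ((hγ.comp h1).mul hθ.cos)

lemma wave_continuous {X : Type*} [TopologicalSpace X] {α β γ τ : X → ℝ} (hα : Continuous α)
    (hβ : Continuous β) (hγ : Continuous γ) (hτ : Continuous τ) (N : ℝ) :
    Continuous (fun x => wave N (α x) (β x) (γ x) (τ x)) := by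
  unfold wave
  fun_prop

lemma wave'_continuous {X : Type*} [TopologicalSpace X] {β γ τ : X → ℝ}
    (hβ : Continuous β) (hγ : Continuous γ) (hτ : Continuous τ) (N : ℝ) :
    Continuous (fun x => wave' N (β x) (γ x) (τ x)) := by
  unfold wave'
  fun_prop

/-! ### The profile -/

/-- a smooth profile with bounded derivatives -/
structure Prof (f f1 f2 f3 : ℝ → ℝ) (C : ℝ) : Prop where
  d1 : ∀ y, HasDerivAt f (f1 y) y
  d2 : ∀ y, HasDerivAt f1 (f2 y) y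
  d3 : ∀ y, HasDerivAt f2 (f3 y) y
  s0 : ContDiff ℝ ∞ f
  s1 : ContDiff ℝ ∞ f1
  s2 : ContDiff ℝ ∞ f2
  c3 : Continuous f3
  b0 : ∀ y, |f y| ≤ C
  b1 : ∀ y, |f1 y| ≤ C
  b2 : ∀ y, |f2 y| ≤ C
  b3 : ∀ y, |f3 y| ≤ C

/-- `1 / (1 + t² p²)` -/
noncomputable def Bq (t p : ℝ) : ℝ := (1 + t ^ 2 * p ^ 2)⁻¹

lemma Bq_den_pos (t p : ℝ) : 0 < 1 + t ^ 2 * p ^ 2 := by positivity

lemma Bq_rel (t p : ℝ) : Bq t p * (1 + t ^ 2 * p ^ 2) = 1 :=
  inv_mul_cancel₀ (Bq_den_pos t p).ne'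

lemma Bq_pos (t p : ℝ) : 0 < Bq t p := inv_pos.2 (Bq_den_pos t p)

lemma Bq_le_one (t p : ℝ) : Bq t p ≤ 1 :=
  inv_le_one_of_one_le₀ (by nlinarith [sq_nonneg (t * p)])

lemma Bq_abs_le_one (t p : ℝ) : |Bq t p| ≤ 1 := by
  rw [abs_of_pos (Bq_pos t p)]; exact Bq_le_one t p

variable {f f1 f2 f3 : ℝ → ℝ} {C : ℝ}

/-- `∂_y B` -/
noncomputable def BY (t p q : ℝ) : ℝ := -2 * t ^ 2 * p * q * Bq t p ^ 2
/-- `∂_t B` -/
noncomputable def Bt (t p : ℝ) : ℝ := -2 * t * p ^ 2 * Bq t p ^ 2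
/-- `∂_y² B` -/
noncomputable def BYY (t p q r : ℝ) : ℝ :=
  -2 * t ^ 2 * ((q ^ 2 + p * r) * Bq t p ^ 2 + 2 * p * q * Bq t p * BY t p q)
/-- `∂_t ∂_y B` -/
noncomputable def BYt (t p q : ℝ) : ℝ :=
  -4 * t * p * q * Bq t p ^ 2 - 4 * t ^ 2 * p * q * Bq t p * Bt t p

lemma Bq_deriv_t (t p : ℝ) : HasDerivAt (fun t => Bq t p) (Bt t p) t := by
  have h1 : HasDerivAt (fun t : ℝ => 1 + t ^ 2 * p ^ 2) ((2 * t) * p ^ 2) t := by
    have := ((hasDerivAt_pow 2 t).mul_const (p ^ 2)).const_add 1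
    simpa using this
  have h2 := h1.inv (Bq_den_pos t p).ne'
  refine h2.congr_deriv ?_
  unfold Bt Bq
  field_simp

lemma Bq_deriv_y (hf : Prof f f1 f2 f3 C) (t y : ℝ) :
    HasDerivAt (fun y => Bq t (f1 y)) (BY t (f1 y) (f2 y)) y := by
  have h1 : HasDerivAt (fun y : ℝ => 1 + t ^ 2 * f1 y ^ 2) (t ^ 2 * (2 * f1 y * f2 y)) y := by
    have := (((hf.d2 y).pow 2).const_mul (t ^ 2)).const_add 1
    simpa using this
  have h2 := h1.inv (Bq_den_pos t (f1 y)).ne'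
  refine h2.congr_deriv ?_
  unfold BY Bq
  field_simp

lemma BY_deriv_t (t p q : ℝ) : HasDerivAt (fun t => BY t p q) (BYt t p q) t := by
  have h1 : HasDerivAt (fun t : ℝ => -2 * t ^ 2 * p * q) (-2 * (2 * t) * p * q) t := by
    have := (((hasDerivAt_pow 2 t).const_mul (-2)).mul_const p).mul_const q
    simpa using this
  have h2 := h1.mul ((Bq_deriv_t t p).pow 2)
  refine h2.congr_deriv ?_
  unfold BYt
  simp
  ring

lemma BY_deriv_y (hf : Prof f f1 f2 f3 C) (t y : ℝ) :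
    HasDerivAt (fun y => BY t (f1 y) (f2 y)) (BYY t (f1 y) (f2 y) (f3 y)) y := by
  have h1 : HasDerivAt (fun y : ℝ => -2 * t ^ 2 * f1 y * f2 y)
      (-2 * t ^ 2 * f2 y * f2 y + -2 * t ^ 2 * f1 y * f3 y) y :=
    (((hf.d2 y).const_mul (-2 * t ^ 2)).mul (hf.d3 y))
  have h2 := h1.mul ((Bq_deriv_y hf t y).pow 2)
  refine h2.congr_deriv ?_
  unfold BYY
  simp
  ring

/-! ### Divergence-free planar fields -/

/-- the `i`-th basis vector -/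
noncomputable def eb (i : Fin n) : E n := EuclideanSpace.single i (1 : ℝ)

lemma eb_apply_self (i : Fin n) : (eb i : E n) i = 1 := by simp [eb]

lemma eb_apply_ne {i j : Fin n} (h : j ≠ i) : (eb i : E n) j = 0 := by simp [eb, h]

lemma norm_eb (i : Fin n) : ‖(eb i : E n)‖ = 1 := by simp [eb]

lemma inner_eb (i : Fin n) (h : E n) : ⟪(eb i : E n), h⟫ = h i := by
  unfold eb
  rw [EuclideanSpace.inner_single_left]
  simp

lemma weaklyDivFree_planar {a b : E n → ℝ} {i0 i1 : Fin n} (ha : ContDiff ℝ ∞ a)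
    (hb : ContDiff ℝ ∞ b) (h : ∀ x, fderiv ℝ a x (eb i0) + fderiv ℝ b x (eb i1) = 0) :
    WeaklyDivFree (fun x => a x • (eb i0 : E n) + b x • (eb i1 : E n)) := by
  intro ψ hψ hψc
  have key : ∀ {a : E n → ℝ} (v : E n), ContDiff ℝ ∞ a →
      Integrable (fun x => a x * fderiv ℝ ψ x v) ∧ Integrable (fun x => fderiv ℝ a x v * ψ x) ∧
      ∫ x, a x * fderiv ℝ ψ x v = - ∫ x, fderiv ℝ a x v * ψ x := by
    intro a v ha
    have c1 : Continuous (fun x => fderiv ℝ a x v) :=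
      (ha.continuous_fderiv (by simp)).clm_apply continuous_const
    have c2 : Continuous (fun x => fderiv ℝ ψ x v) :=
      (hψ.continuous_fderiv (by simp)).clm_apply continuous_const
    have i1 : Integrable (fun x => a x * fderiv ℝ ψ x v) := by
      refine (ha.continuous.mul c2).integrable_of_hasCompactSupport
        (HasCompactSupport.intro (hψc.fderiv ℝ) (fun x hx => ?_))
      simp only [Pi.mul_apply]
      rw [image_eq_zero_of_notMem_tsupport hx]; simp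
    have i2 : Integrable (fun x => fderiv ℝ a x v * ψ x) :=
      (c1.mul hψ.continuous).integrable_of_hasCompactSupport hψc.mul_left
    have i3 : Integrable (fun x => a x * ψ x) :=
      (ha.continuous.mul hψ.continuous).integrable_of_hasCompactSupport hψc.mul_left
    exact ⟨i1, i2, integral_mul_fderiv_eq_neg_fderiv_mul_of_integrable i2 i1 i3
      (fun x _ => ha.differentiable (by simp) x) (fun x _ => hψ.differentiable (by simp) x)⟩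
  obtain ⟨j1, j2, j3⟩ := key (eb i0) ha
  obtain ⟨k1, k2, k3⟩ := key (eb i1) hb
  have e1 : ∀ x, fderiv ℝ ψ x (a x • (eb i0 : E n) + b x • (eb i1 : E n)) =
      a x * fderiv ℝ ψ x (eb i0) + b x * fderiv ℝ ψ x (eb i1) := by
    intro x
    rw [map_add, map_smul, map_smul, smul_eq_mul, smul_eq_mul]
  simp_rw [e1]
  rw [integral_add j1 k1, j3, k3, ← neg_add, ← integral_add j2 k2]
  have e2 : ∀ x, fderiv ℝ a x (eb i0) * ψ x + fderiv ℝ b x (eb i1) * ψ x = 0 := by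
    intro x
    rw [← add_mul, h x, zero_mul]
  simp [e2]

/-! ### The approximate solution: components -/

/-- first component -/
noncomputable def U0 (f f1 f2 : ℝ → ℝ) (δ ν t X Y : ℝ) : ℝ :=
  wave ν⁻¹ (f Y) (δ * ν * (t * f1 Y * Bq t (f1 Y))) (δ * ν ^ 2 * BY t (f1 Y) (f2 Y)) (X - t * f Y)

/-- second component -/
noncomputable def U1 (f f1 : ℝ → ℝ) (δ ν t X Y : ℝ) : ℝ :=
  wave ν⁻¹ 0 (δ * ν * Bq t (f1 Y)) 0 (X - t * f Y)

/-- the pressure -/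
noncomputable def Pr (f f1 : ℝ → ℝ) (δ ν t X Y : ℝ) : ℝ :=
  wave ν⁻¹ 0 0 (δ * ν ^ 2 * (2 * Bq t (f1 Y) ^ 2 * f1 Y)) (X - t * f Y)

/-- simplified `∂_X U0` -/
noncomputable def D0X (f f1 f2 : ℝ → ℝ) (δ ν t X Y : ℝ) : ℝ :=
  wave' ν⁻¹ (δ * (t * f1 Y * Bq t (f1 Y))) (δ * ν * BY t (f1 Y) (f2 Y)) (X - t * f Y)

/-- simplified `∂_Y U0` -/
noncomputable def D0Y (f f1 f2 f3 : ℝ → ℝ) (δ ν t X Y : ℝ) : ℝ :=
  wave ν⁻¹ (f1 Y) (δ * ν * (t * f2 Y * Bq t (f1 Y) + t * f1 Y * BY t (f1 Y) (f2 Y)))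
    (δ * ν ^ 2 * BYY t (f1 Y) (f2 Y) (f3 Y)) (X - t * f Y) - t * f1 Y * D0X f f1 f2 δ ν t X Y

/-- simplified `∂_t U0` -/
noncomputable def D0t (f f1 f2 : ℝ → ℝ) (δ ν t X Y : ℝ) : ℝ :=
  wave ν⁻¹ 0 (δ * ν * (f1 Y * Bq t (f1 Y) + t * f1 Y * Bt t (f1 Y)))
    (δ * ν ^ 2 * BYt t (f1 Y) (f2 Y)) (X - t * f Y) - f Y * D0X f f1 f2 δ ν t X Y

/-- simplified `∂_X U1` -/
noncomputable def D1X (f f1 : ℝ → ℝ) (δ ν t X Y : ℝ) : ℝ :=
  wave' ν⁻¹ (δ * Bq t (f1 Y)) 0 (X - t * f Y)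

/-- simplified `∂_Y U1` -/
noncomputable def D1Y (f f1 f2 : ℝ → ℝ) (δ ν t X Y : ℝ) : ℝ :=
  wave ν⁻¹ 0 (δ * ν * BY t (f1 Y) (f2 Y)) 0 (X - t * f Y) - t * f1 Y * D1X f f1 δ ν t X Y

/-- simplified `∂_t U1` -/
noncomputable def D1t (f f1 : ℝ → ℝ) (δ ν t X Y : ℝ) : ℝ :=
  wave ν⁻¹ 0 (δ * ν * Bt t (f1 Y)) 0 (X - t * f Y) - f Y * D1X f f1 δ ν t X Y

/-- simplified `∂_X P` -/
noncomputable def PX (f f1 : ℝ → ℝ) (δ ν t X Y : ℝ) : ℝ :=
  wave' ν⁻¹ 0 (δ * ν * (2 * Bq t (f1 Y) ^ 2 * f1 Y)) (X - t * f Y)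

/-- simplified `∂_Y P` -/
noncomputable def PY (f f1 f2 : ℝ → ℝ) (δ ν t X Y : ℝ) : ℝ :=
  wave ν⁻¹ 0 0 (δ * ν ^ 2 * (4 * Bq t (f1 Y) * BY t (f1 Y) (f2 Y) * f1 Y +
    2 * Bq t (f1 Y) ^ 2 * f2 Y)) (X - t * f Y) - t * f1 Y * PX f f1 δ ν t X Y

section derivs

variable {δ ν : ℝ} (hν : ν ≠ 0)
include hν

lemma U0_fderiv (hf : Prof f f1 f2 f3 C) (i0 i1 : Fin n) (t : ℝ) (x : E n) :
    HasFDerivAt (fun x : E n => U0 f f1 f2 δ ν t (x i0) (x i1))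
      (D0X f f1 f2 δ ν t (x i0) (x i1) • (EuclideanSpace.proj i0 : E n →L[ℝ] ℝ) +
        D0Y f f1 f2 f3 δ ν t (x i0) (x i1) • (EuclideanSpace.proj i1 : E n →L[ℝ] ℝ)) x := by
  set y := x i1 with hy
  have hβ : HasDerivAt (fun Y => δ * ν * (t * f1 Y * Bq t (f1 Y)))
      (δ * ν * (t * f2 y * Bq t (f1 y) + t * f1 y * BY t (f1 y) (f2 y))) y :=
    (((hf.d2 y).const_mul t).mul (Bq_deriv_y hf t y)).const_mul _
  have hγ : HasDerivAt (fun Y => δ * ν ^ 2 * BY t (f1 Y) (f2 Y))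
      (δ * ν ^ 2 * BYY t (f1 y) (f2 y) (f3 y)) y := (BY_deriv_y hf t y).const_mul _
  have hτ : HasDerivAt (fun Y => t * f Y) (t * f1 y) y := (hf.d1 y).const_mul t
  have h := wave_hasFDerivAt (i0 := i0) (hf.d1 y) hβ hγ hτ ν⁻¹
  refine h.congr_fderiv ?_
  have e1 : D0X f f1 f2 δ ν t (x i0) y = ν⁻¹ * wave' ν⁻¹ (δ * ν * (t * f1 y * Bq t (f1 y)))
      (δ * ν ^ 2 * BY t (f1 y) (f2 y)) (x i0 - t * f y) := by
    unfold D0X wave'
    field_simp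
  rw [D0Y, e1]
  congr 2
  ring

lemma U1_fderiv (hf : Prof f f1 f2 f3 C) (i0 i1 : Fin n) (t : ℝ) (x : E n) :
    HasFDerivAt (fun x : E n => U1 f f1 δ ν t (x i0) (x i1))
      (D1X f f1 δ ν t (x i0) (x i1) • (EuclideanSpace.proj i0 : E n →L[ℝ] ℝ) +
        D1Y f f1 f2 δ ν t (x i0) (x i1) • (EuclideanSpace.proj i1 : E n →L[ℝ] ℝ)) x := by
  set y := x i1 with hy
  have hβ : HasDerivAt (fun Y => δ * ν * Bq t (f1 Y)) (δ * ν * BY t (f1 y) (f2 y)) y :=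
    (Bq_deriv_y hf t y).const_mul _
  have hτ : HasDerivAt (fun Y => t * f Y) (t * f1 y) y := (hf.d1 y).const_mul t
  have h := wave_hasFDerivAt (i0 := i0) (hasDerivAt_const y (0 : ℝ)) hβ
    (hasDerivAt_const y (0 : ℝ)) hτ ν⁻¹
  refine h.congr_fderiv ?_
  have e1 : D1X f f1 δ ν t (x i0) y = ν⁻¹ * wave' ν⁻¹ (δ * ν * Bq t (f1 y))
      0 (x i0 - t * f y) := by
    unfold D1X wave'
    field_simp
    ring
  rw [D1Y, e1]
  congr 2
  ring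

lemma Pr_fderiv (hf : Prof f f1 f2 f3 C) (i0 i1 : Fin n) (t : ℝ) (x : E n) :
    HasFDerivAt (fun x : E n => Pr f f1 δ ν t (x i0) (x i1))
      (PX f f1 δ ν t (x i0) (x i1) • (EuclideanSpace.proj i0 : E n →L[ℝ] ℝ) +
        PY f f1 f2 δ ν t (x i0) (x i1) • (EuclideanSpace.proj i1 : E n →L[ℝ] ℝ)) x := by
  set y := x i1 with hy
  have hγ : HasDerivAt (fun Y => δ * ν ^ 2 * (2 * Bq t (f1 Y) ^ 2 * f1 Y))
      (δ * ν ^ 2 * (4 * Bq t (f1 y) * BY t (f1 y) (f2 y) * f1 y + 2 * Bq t (f1 y) ^ 2 * f2 y))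
      y := by
    have h1 := ((((Bq_deriv_y hf t y).pow 2).const_mul 2).mul (hf.d2 y)).const_mul (δ * ν ^ 2)
    refine h1.congr_deriv ?_
    have e0 : ((fun y => Bq t (f1 y)) ^ 2) y = Bq t (f1 y) ^ 2 := rfl
    rw [e0]
    norm_num only [pow_one]
    ring
  have hτ : HasDerivAt (fun Y => t * f Y) (t * f1 y) y := (hf.d1 y).const_mul t
  have h := wave_hasFDerivAt (i0 := i0) (hasDerivAt_const y (0 : ℝ))
    (hasDerivAt_const y (0 : ℝ)) hγ hτ ν⁻¹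
  refine h.congr_fderiv ?_
  have e1 : PX f f1 δ ν t (x i0) y = ν⁻¹ * wave' ν⁻¹ 0 (δ * ν ^ 2 * (2 * Bq t (f1 y) ^ 2 * f1 y))
      (x i0 - t * f y) := by
    unfold PX wave'
    field_simp
    ring
  rw [PY, e1]
  congr 2
  ring

lemma U0_deriv_t (t X Y : ℝ) :
    HasDerivAt (fun t => U0 f f1 f2 δ ν t X Y) (D0t f f1 f2 δ ν t X Y) t := by
  have hβ : HasDerivAt (fun t => δ * ν * (t * f1 Y * Bq t (f1 Y)))
      (δ * ν * (1 * f1 Y * Bq t (f1 Y) + t * f1 Y * Bt t (f1 Y))) t :=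
    (((hasDerivAt_id t).mul_const (f1 Y)).mul (Bq_deriv_t t (f1 Y))).const_mul _
  have hγ : HasDerivAt (fun t => δ * ν ^ 2 * BY t (f1 Y) (f2 Y))
      (δ * ν ^ 2 * BYt t (f1 Y) (f2 Y)) t := (BY_deriv_t t (f1 Y) (f2 Y)).const_mul _
  have hτ : HasDerivAt (fun t => t * f Y) (1 * f Y) t := (hasDerivAt_id t).mul_const (f Y)
  have h := wave_hasDerivAt (hasDerivAt_const t (f Y)) hβ hγ hτ ν⁻¹ X
  refine h.congr_deriv ?_
  have e1 : D0X f f1 f2 δ ν t X Y = ν⁻¹ * wave' ν⁻¹ (δ * ν * (t * f1 Y * Bq t (f1 Y)))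
      (δ * ν ^ 2 * BY t (f1 Y) (f2 Y)) (X - t * f Y) := by
    unfold D0X wave'
    field_simp
  rw [D0t, e1]
  simp only [one_mul]
  ring

lemma U1_deriv_t (t X Y : ℝ) :
    HasDerivAt (fun t => U1 f f1 δ ν t X Y) (D1t f f1 δ ν t X Y) t := by
  have hβ : HasDerivAt (fun t => δ * ν * Bq t (f1 Y)) (δ * ν * Bt t (f1 Y)) t :=
    (Bq_deriv_t t (f1 Y)).const_mul _
  have hτ : HasDerivAt (fun t => t * f Y) (1 * f Y) t := (hasDerivAt_id t).mul_const (f Y)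
  have h := wave_hasDerivAt (hasDerivAt_const t (0 : ℝ)) hβ (hasDerivAt_const t (0 : ℝ)) hτ ν⁻¹ X
  refine h.congr_deriv ?_
  have e1 : D1X f f1 δ ν t X Y = ν⁻¹ * wave' ν⁻¹ (δ * ν * Bq t (f1 Y))
      0 (X - t * f Y) := by
    unfold D1X wave'
    field_simp
    ring
  rw [D1t, e1]
  simp only [one_mul]
  ring

end derivs

/-! ### The residual -/

/-- the residual divided by `ν²`, first component -/
noncomputable def R0 (f f1 f2 f3 : ℝ → ℝ) (δ ν t X Y : ℝ) : ℝ :=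
  let p := f1 Y
  let q := f2 Y
  let B := Bq t p
  let s := Real.sin (ν⁻¹ * (X - t * f Y))
  let c := Real.cos (ν⁻¹ * (X - t * f Y))
  δ * BYt t p q * c + δ ^ 2 * (t * p * B * BY t p q * c ^ 2 +
    B * (t * q * B + t * p * BY t p q) * s ^ 2) +
    δ ^ 2 * ν * (s * c * (B * BYY t p q (f3 Y) - BY t p q ^ 2))

/-- the residual divided by `ν²`, second component -/
noncomputable def R1 (f f1 f2 : ℝ → ℝ) (δ ν t X Y : ℝ) : ℝ :=
  let p := f1 Y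
  let q := f2 Y
  let B := Bq t p
  let s := Real.sin (ν⁻¹ * (X - t * f Y))
  let c := Real.cos (ν⁻¹ * (X - t * f Y))
  δ * (4 * B * BY t p q * p + 2 * B ^ 2 * q) * c + δ ^ 2 * (B * BY t p q * (c ^ 2 + s ^ 2))

lemma residual0 (f f1 f2 f3 : ℝ → ℝ) (δ ν t X Y : ℝ) :
    D0t f f1 f2 δ ν t X Y + (D0X f f1 f2 δ ν t X Y * U0 f f1 f2 δ ν t X Y +
      D0Y f f1 f2 f3 δ ν t X Y * U1 f f1 δ ν t X Y) + PX f f1 δ ν t X Y =
      ν ^ 2 * R0 f f1 f2 f3 δ ν t X Y := by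
  have hB := Bq_rel t (f1 Y)
  unfold R0 D0t D0Y D0X U0 U1 PX wave wave' BYY BYt BY Bt
  simp only
  generalize Bq t (f1 Y) = B at *
  generalize Real.sin (ν⁻¹ * (X - t * f Y)) = s
  generalize Real.cos (ν⁻¹ * (X - t * f Y)) = c
  generalize f1 Y = p at *
  linear_combination (-2 * δ * ν * s * p * B) * hB

lemma residual1 (f f1 f2 : ℝ → ℝ) (δ ν t X Y : ℝ) :
    D1t f f1 δ ν t X Y + (D1X f f1 δ ν t X Y * U0 f f1 f2 δ ν t X Y +
      D1Y f f1 f2 δ ν t X Y * U1 f f1 δ ν t X Y) + PY f f1 f2 δ ν t X Y =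
      ν ^ 2 * R1 f f1 f2 δ ν t X Y := by
  unfold R1 D1t D1Y D1X U0 U1 PY PX wave wave' BY Bt
  simp only
  generalize Bq t (f1 Y) = B at *
  generalize Real.sin (ν⁻¹ * (X - t * f Y)) = s
  generalize Real.cos (ν⁻¹ * (X - t * f Y)) = c
  generalize f1 Y = p at *
  ring

lemma div0 (f f1 f2 : ℝ → ℝ) (δ ν t X Y : ℝ) :
    D0X f f1 f2 δ ν t X Y + D1Y f f1 f2 δ ν t X Y = 0 := by
  unfold D1Y D1X D0X wave wave'
  ring

end Pool.Agent.MP_f6d183_an
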