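import Mathlib
import Pool.Agent.MP_f6d183_an.Approx

set_option autoImplicit false

/-!
# The explicit approximate solution is an approximate flow
-/

namespace Pool.Agent.MP_f6d183_an

open MeasureTheory Set Filter Topology
open scoped ENNReal ContDiff RealInnerProductSpace

variable {n : ℕ}

/-! ### Bounded families -/

/-- bounded real functions -/
def BF {ι : Type} (g : ι → ℝ) : Prop := ∃ C, ∀ z, |g z| ≤ C

section
variable {ι : Type} {g h : ι → ℝ}

lemma BF.const (c : ℝ) : BF (fun _ : ι => c) := ⟨|c|, fun _ => le_rfl⟩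

lemma BF.add (hg : BF g) (hh : BF h) : BF (fun z => g z + h z) := by
  obtain ⟨C, hC⟩ := hg
  obtain ⟨D, hD⟩ := hh
  exact ⟨C + D, fun z => (abs_add_le _ _).trans (add_le_add (hC z) (hD z))⟩

lemma BF.sub (hg : BF g) (hh : BF h) : BF (fun z => g z - h z) := by
  obtain ⟨C, hC⟩ := hg
  obtain ⟨D, hD⟩ := hh
  exact ⟨C + D, fun z => (abs_sub _ _).trans (add_le_add (hC z) (hD z))⟩

lemma BF.neg (hg : BF g) : BF (fun z => - g z) := by
  obtain ⟨C, hC⟩ := hg
  exact ⟨C, fun z => by rw [abs_neg]; exact hC z⟩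

lemma BF.mul (hg : BF g) (hh : BF h) : BF (fun z => g z * h z) := by
  obtain ⟨C, hC⟩ := hg
  obtain ⟨D, hD⟩ := hh
  refine ⟨C * D, fun z => ?_⟩
  rw [abs_mul]
  exact mul_le_mul (hC z) (hD z) (abs_nonneg _) ((abs_nonneg _).trans (hC z))

lemma BF.pow (hg : BF g) (k : ℕ) : BF (fun z => g z ^ k) := by
  obtain ⟨C, hC⟩ := hg
  refine ⟨C ^ k, fun z => ?_⟩
  rw [abs_pow]
  exact pow_le_pow_left₀ (abs_nonneg _) (hC z) k

end

/-- parameters -/
structure Par (T : ℝ) where
  ν : ℝ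
  t : ℝ
  X : ℝ
  Y : ℝ
  hν : 0 < ν
  hν1 : ν ≤ 1
  ht : 0 ≤ t
  htT : t ≤ T

section
variable {f f1 f2 f3 : ℝ → ℝ} {C : ℝ}

theorem all_BF (hf : Prof f f1 f2 f3 C) (δ T : ℝ) :
    BF (fun z : Par T => U0 f f1 f2 δ z.ν z.t z.X z.Y) ∧
    BF (fun z : Par T => U1 f f1 δ z.ν z.t z.X z.Y) ∧
    BF (fun z : Par T => Pr f f1 δ z.ν z.t z.X z.Y) ∧
    BF (fun z : Par T => D0X f f1 f2 δ z.ν z.t z.X z.Y) ∧
    BF (fun z : Par T => D0Y f f1 f2 f3 δ z.ν z.t z.X z.Y) ∧
    BF (fun z : Par T => D1X f f1 δ z.ν z.t z.X z.Y) ∧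
    BF (fun z : Par T => D1Y f f1 f2 δ z.ν z.t z.X z.Y) ∧
    BF (fun z : Par T => R0 f f1 f2 f3 δ z.ν z.t z.X z.Y) ∧
    BF (fun z : Par T => R1 f f1 f2 δ z.ν z.t z.X z.Y) ∧
    BF (fun z : Par T => BY z.t (f1 z.Y) (f2 z.Y)) := by
  have hν : BF (fun z : Par T => z.ν) := ⟨1, fun z => by rw [abs_of_pos z.hν]; exact z.hν1⟩
  have ht : BF (fun z : Par T => z.t) := ⟨T, fun z => by rw [abs_of_nonneg z.ht]; exact z.htT⟩
  have h0 : BF (fun z : Par T => f z.Y) := ⟨C, fun z => hf.b0 _⟩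
  have h1 : BF (fun z : Par T => f1 z.Y) := ⟨C, fun z => hf.b1 _⟩
  have h2 : BF (fun z : Par T => f2 z.Y) := ⟨C, fun z => hf.b2 _⟩
  have h3 : BF (fun z : Par T => f3 z.Y) := ⟨C, fun z => hf.b3 _⟩
  have hB : BF (fun z : Par T => Bq z.t (f1 z.Y)) := ⟨1, fun z => Bq_abs_le_one _ _⟩
  have hs : BF (fun z : Par T => Real.sin (z.ν⁻¹ * (z.X - z.t * f z.Y))) :=
    ⟨1, fun z => Real.abs_sin_le_one _⟩
  have hc : BF (fun z : Par T => Real.cos (z.ν⁻¹ * (z.X - z.t * f z.Y))) :=
    ⟨1, fun z => Real.abs_cos_le_one _⟩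
  have hBt : BF (fun z : Par T => Bt z.t (f1 z.Y)) := by unfold Bt; (repeat first | exact BF.const _ | assumption | apply BF.sub | apply BF.add | apply BF.mul | apply BF.pow | apply BF.neg)
  have hBY : BF (fun z : Par T => BY z.t (f1 z.Y) (f2 z.Y)) := by unfold BY; (repeat first | exact BF.const _ | assumption | apply BF.sub | apply BF.add | apply BF.mul | apply BF.pow | apply BF.neg)
  have hBYY : BF (fun z : Par T => BYY z.t (f1 z.Y) (f2 z.Y) (f3 z.Y)) := by unfold BYY; (repeat first | exact BF.const _ | assumption | apply BF.sub | apply BF.add | apply BF.mul | apply BF.pow | apply BF.neg)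
  have hBYt : BF (fun z : Par T => BYt z.t (f1 z.Y) (f2 z.Y)) := by unfold BYt; (repeat first | exact BF.const _ | assumption | apply BF.sub | apply BF.add | apply BF.mul | apply BF.pow | apply BF.neg)
  have hD0X : BF (fun z : Par T => D0X f f1 f2 δ z.ν z.t z.X z.Y) := by
    unfold D0X wave'; (repeat first | exact BF.const _ | assumption | apply BF.sub | apply BF.add | apply BF.mul | apply BF.pow | apply BF.neg)
  have hD1X : BF (fun z : Par T => D1X f f1 δ z.ν z.t z.X z.Y) := by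
    unfold D1X wave'; (repeat first | exact BF.const _ | assumption | apply BF.sub | apply BF.add | apply BF.mul | apply BF.pow | apply BF.neg)
  refine ⟨?_, ?_, ?_, hD0X, ?_, hD1X, ?_, ?_, ?_, hBY⟩
  · unfold U0 wave; (repeat first | exact BF.const _ | assumption | apply BF.sub | apply BF.add | apply BF.mul | apply BF.pow | apply BF.neg)
  · unfold U1 wave; (repeat first | exact BF.const _ | assumption | apply BF.sub | apply BF.add | apply BF.mul | apply BF.pow | apply BF.neg)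
  · unfold Pr wave; (repeat first | exact BF.const _ | assumption | apply BF.sub | apply BF.add | apply BF.mul | apply BF.pow | apply BF.neg)
  · unfold D0Y wave; (repeat first | exact BF.const _ | assumption | apply BF.sub | apply BF.add | apply BF.mul | apply BF.pow | apply BF.neg)
  · unfold D1Y wave; (repeat first | exact BF.const _ | assumption | apply BF.sub | apply BF.add | apply BF.mul | apply BF.pow | apply BF.neg)
  · unfold R0; simp only; (repeat first | exact BF.const _ | assumption | apply BF.sub | apply BF.add | apply BF.mul | apply BF.pow | apply BF.neg)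
  · unfold R1; simp only; (repeat first | exact BF.const _ | assumption | apply BF.sub | apply BF.add | apply BF.mul | apply BF.pow | apply BF.neg)

end

/-! ### The flow -/

/-- the approximate velocity -/
noncomputable def Uv (i0 i1 : Fin n) (f f1 f2 : ℝ → ℝ) (δ ν t : ℝ) (x : E n) : E n :=
  U0 f f1 f2 δ ν t (x i0) (x i1) • (eb i0 : E n) + U1 f f1 δ ν t (x i0) (x i1) • (eb i1 : E n)

/-- its time derivative -/
noncomputable def Utv (i0 i1 : Fin n) (f f1 f2 : ℝ → ℝ) (δ ν t : ℝ) (x : E n) : E n :=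
  D0t f f1 f2 δ ν t (x i0) (x i1) • (eb i0 : E n) + D1t f f1 δ ν t (x i0) (x i1) • (eb i1 : E n)

/-- the approximate pressure -/
noncomputable def Pv (i0 i1 : Fin n) (f f1 : ℝ → ℝ) (δ ν t : ℝ) (x : E n) : ℝ :=
  Pr f f1 δ ν t (x i0) (x i1)

section
variable {i0 i1 : Fin n} {f f1 f2 f3 : ℝ → ℝ} {C : ℝ}

lemma Bq_contDiff (hf : Prof f f1 f2 f3 C) (t : ℝ) : ContDiff ℝ ∞ (fun y => Bq t (f1 y)) := by
  unfold Bq
  exact (contDiff_const.add (contDiff_const.mul (hf.s1.pow 2))).inv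
    (fun y => (Bq_den_pos t (f1 y)).ne')

lemma U0_contDiff (hf : Prof f f1 f2 f3 C) (δ ν t : ℝ) :
    ContDiff ℝ ∞ (fun x : E n => U0 f f1 f2 δ ν t (x i0) (x i1)) := by
  refine wave_contDiff (α := f) (β := fun Y => δ * ν * (t * f1 Y * Bq t (f1 Y)))
    (γ := fun Y => δ * ν ^ 2 * BY t (f1 Y) (f2 Y)) (τ := fun Y => t * f Y) hf.s0 ?_ ?_
    (contDiff_const.mul hf.s0) i0 i1 ν⁻¹
  · exact contDiff_const.mul ((contDiff_const.mul hf.s1).mul (Bq_contDiff hf t))
  · unfold BY
    exact contDiff_const.mul (((contDiff_const.mul hf.s1).mul hf.s2).mul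
      ((Bq_contDiff hf t).pow 2))

lemma U1_contDiff (hf : Prof f f1 f2 f3 C) (δ ν t : ℝ) :
    ContDiff ℝ ∞ (fun x : E n => U1 f f1 δ ν t (x i0) (x i1)) := by
  refine wave_contDiff (α := fun _ => 0) (β := fun Y => δ * ν * Bq t (f1 Y))
    (γ := fun _ => 0) (τ := fun Y => t * f Y) contDiff_const ?_ contDiff_const
    (contDiff_const.mul hf.s0) i0 i1 ν⁻¹
  exact contDiff_const.mul (Bq_contDiff hf t)

lemma Pr_contDiff (hf : Prof f f1 f2 f3 C) (δ ν t : ℝ) :
    ContDiff ℝ ∞ (fun x : E n => Pr f f1 δ ν t (x i0) (x i1)) := by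
  refine wave_contDiff (α := fun _ => 0) (β := fun _ => 0)
    (γ := fun Y => δ * ν ^ 2 * (2 * Bq t (f1 Y) ^ 2 * f1 Y)) (τ := fun Y => t * f Y)
    contDiff_const contDiff_const ?_ (contDiff_const.mul hf.s0) i0 i1 ν⁻¹
  exact contDiff_const.mul ((contDiff_const.mul ((Bq_contDiff hf t).pow 2)).mul hf.s1)

lemma Bq_continuous {X : Type*} [TopologicalSpace X] {a b : X → ℝ} (ha : Continuous a)
    (hb : Continuous b) : Continuous (fun x => Bq (a x) (b x)) := by
  unfold Bq
  exact (continuous_const.add ((ha.pow 2).mul (hb.pow 2))).inv₀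
    (fun x => (Bq_den_pos (a x) (b x)).ne')

lemma norm_planar_le (a b : ℝ) : ‖a • (eb i0 : E n) + b • (eb i1 : E n)‖ ≤ |a| + |b| := by
  refine (norm_add_le _ _).trans ?_
  rw [norm_smul, norm_smul, norm_eb, norm_eb, mul_one, mul_one]
  rfl

lemma coord_cont (i : Fin n) : Continuous (fun x : E n => x i) :=
  (EuclideanSpace.proj i : E n →L[ℝ] ℝ).continuous

lemma smul_const_cont {X : Type*} [TopologicalSpace X] {a : X → ℝ} (ha : Continuous a)
    (v : E n) : Continuous (fun x => a x • v) := by fun_prop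

lemma joint_cont (hf : Prof f f1 f2 f3 C) (δ ν : ℝ) :
    Continuous (fun q : ℝ × E n => Uv i0 i1 f f1 f2 δ ν q.1 q.2) ∧
    Continuous (fun q : ℝ × E n => Utv i0 i1 f f1 f2 δ ν q.1 q.2) := by
  have ct : Continuous (fun q : ℝ × E n => q.1) := continuous_fst
  have cX : Continuous (fun q : ℝ × E n => q.2 i0) := (coord_cont i0).comp continuous_snd
  have cY : Continuous (fun q : ℝ × E n => q.2 i1) := (coord_cont i1).comp continuous_snd
  have c0 : Continuous (fun q : ℝ × E n => f (q.2 i1)) := hf.s0.continuous.comp cY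
  have c1 : Continuous (fun q : ℝ × E n => f1 (q.2 i1)) := hf.s1.continuous.comp cY
  have c2 : Continuous (fun q : ℝ × E n => f2 (q.2 i1)) := hf.s2.continuous.comp cY
  have cB := Bq_continuous ct c1
  have cBt : Continuous (fun q : ℝ × E n => Bt q.1 (f1 (q.2 i1))) := by unfold Bt; (repeat first | exact continuous_const | assumption | apply Continuous.sub | apply Continuous.add | apply Continuous.mul | apply Continuous.pow | apply Continuous.neg)
  have cBY : Continuous (fun q : ℝ × E n => BY q.1 (f1 (q.2 i1)) (f2 (q.2 i1))) := by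
    unfold BY; (repeat first | exact continuous_const | assumption | apply Continuous.sub | apply Continuous.add | apply Continuous.mul | apply Continuous.pow | apply Continuous.neg)
  have cBYt : Continuous (fun q : ℝ × E n => BYt q.1 (f1 (q.2 i1)) (f2 (q.2 i1))) := by
    unfold BYt; (repeat first | exact continuous_const | assumption | apply Continuous.sub | apply Continuous.add | apply Continuous.mul | apply Continuous.pow | apply Continuous.neg)
  have cθ : Continuous (fun q : ℝ × E n => q.2 i0 - q.1 * f (q.2 i1)) := by (repeat first | exact continuous_const | assumption | apply Continuous.sub | apply Continuous.add | apply Continuous.mul | apply Continuous.pow | apply Continuous.neg)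
  have cs : Continuous (fun q : ℝ × E n => Real.sin (ν⁻¹ * (q.2 i0 - q.1 * f (q.2 i1)))) :=
    Real.continuous_sin.comp (continuous_const.mul cθ)
  have cc : Continuous (fun q : ℝ × E n => Real.cos (ν⁻¹ * (q.2 i0 - q.1 * f (q.2 i1)))) :=
    Real.continuous_cos.comp (continuous_const.mul cθ)
  constructor
  · unfold Uv U0 U1 wave
    refine Continuous.add (smul_const_cont ?_ _) (smul_const_cont ?_ _)
    · (repeat first | exact continuous_const | assumption | apply Continuous.sub | apply Continuous.add | apply Continuous.mul | apply Continuous.pow | apply Continuous.neg)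
    · (repeat first | exact continuous_const | assumption | apply Continuous.sub | apply Continuous.add | apply Continuous.mul | apply Continuous.pow | apply Continuous.neg)
  · unfold Utv D0t D1t D0X D1X wave wave'
    refine Continuous.add (smul_const_cont ?_ _) (smul_const_cont ?_ _)
    · (repeat first | exact continuous_const | assumption | apply Continuous.sub | apply Continuous.add | apply Continuous.mul | apply Continuous.pow | apply Continuous.neg)
    · (repeat first | exact continuous_const | assumption | apply Continuous.sub | apply Continuous.add | apply Continuous.mul | apply Continuous.pow | apply Continuous.neg)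

/-- the derivative of the velocity -/
lemma Uv_fderiv (hf : Prof f f1 f2 f3 C) {δ ν : ℝ} (hν : ν ≠ 0) (t : ℝ) (x h : E n) :
    fderiv ℝ (Uv i0 i1 f f1 f2 δ ν t) x h =
      (D0X f f1 f2 δ ν t (x i0) (x i1) * h i0 + D0Y f f1 f2 f3 δ ν t (x i0) (x i1) * h i1) •
        (eb i0 : E n) +
      (D1X f f1 δ ν t (x i0) (x i1) * h i0 + D1Y f f1 f2 δ ν t (x i0) (x i1) * h i1) •
        (eb i1 : E n) := by
  have h0 := (U0_fderiv hν hf i0 i1 t x (δ := δ)).smul_const (eb i0 : E n)
  have h1 := (U1_fderiv hν hf i0 i1 t x (δ := δ)).smul_const (eb i1 : E n)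
  have h2 := h0.add h1
  have h3 : fderiv ℝ (Uv i0 i1 f f1 f2 δ ν t) x = _ := h2.fderiv
  rw [h3]
  simp

lemma Pv_gradient (hf : Prof f f1 f2 f3 C) {δ ν : ℝ} (hν : ν ≠ 0) (t : ℝ) (x : E n) :
    gradient (Pv i0 i1 f f1 δ ν t) x =
      PX f f1 δ ν t (x i0) (x i1) • (eb i0 : E n) +
        PY f f1 f2 δ ν t (x i0) (x i1) • (eb i1 : E n) := by
  refine ext_inner_right ℝ (fun h => ?_)
  have h1 : ⟪gradient (Pv i0 i1 f f1 δ ν t) x, h⟫ = fderiv ℝ (Pv i0 i1 f f1 δ ν t) x h :=
    InnerProductSpace.toDual_symm_apply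
  have h2 := Pr_fderiv hν hf i0 i1 t x (δ := δ)
  have h3 : fderiv ℝ (Pv i0 i1 f f1 δ ν t) x = _ := h2.fderiv
  rw [h1, h3, inner_add_left, real_inner_smul_left, real_inner_smul_left, inner_eb, inner_eb]
  simp

theorem approx_flow (hi : i0 ≠ i1) (hf : Prof f f1 f2 f3 C) (δ T : ℝ) :
    ∃ K : ℝ, 0 ≤ K ∧ ∀ ν : ℝ, 0 < ν → ν ≤ 1 →
      Flow T (Uv i0 i1 f f1 f2 δ ν) (Pv i0 i1 f f1 δ ν) (Utv i0 i1 f f1 f2 δ ν) K (K * ν ^ 2) ∧
      (∀ t ∈ Icc 0 T, ∀ x : E n, ‖fderiv ℝ (Uv i0 i1 f f1 f2 δ ν t) x‖ ≤ K) ∧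
      (∀ t ∈ Icc 0 T, ∀ x : E n, |Pv i0 i1 f f1 δ ν t x| ≤ K) := by
  obtain ⟨⟨C0, h0⟩, ⟨C1, h1⟩, ⟨C2, h2⟩, ⟨C3, h3⟩, ⟨C4, h4⟩, ⟨C5, h5⟩, ⟨C6, h6⟩, ⟨C7, h7⟩,
    ⟨C8, h8⟩, -⟩ := all_BF hf δ T
  refine ⟨|C0| + |C1| + |C2| + |C3| + |C4| + |C5| + |C6| + |C7| + |C8|, by positivity, ?_⟩
  set K := |C0| + |C1| + |C2| + |C3| + |C4| + |C5| + |C6| + |C7| + |C8| with hK
  intro ν hν hν1
  have hν' : ν ≠ 0 := hν.ne'
  have p0 := abs_nonneg C0
  have p1 := abs_nonneg C1
  have p2 := abs_nonneg C2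
  have p3 := abs_nonneg C3
  have p4 := abs_nonneg C4
  have p5 := abs_nonneg C5
  have p6 := abs_nonneg C6
  have p7 := abs_nonneg C7
  have p8 := abs_nonneg C8
  refine ⟨⟨(joint_cont hf δ ν).1.continuousOn, (joint_cont hf δ ν).2.continuousOn, ?_, ?_, ?_, ?_,
    ?_, ?_⟩, ?_, ?_⟩
  · intro t _
    exact ((U0_contDiff hf δ ν t).smul contDiff_const).add
      ((U1_contDiff hf δ ν t).smul contDiff_const)
  · intro t _
    exact Pr_contDiff hf δ ν t
  · intro t _ x
    exact ((U0_deriv_t hν' t (x i0) (x i1)).smul_const _).add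
      ((U1_deriv_t hν' t (x i0) (x i1)).smul_const _)
  · intro t ht x
    refine (norm_planar_le _ _).trans ?_
    have g0 := (h0 ⟨ν, t, x i0, x i1, hν, hν1, ht.1, ht.2⟩).trans (le_abs_self C0)
    have g1 := (h1 ⟨ν, t, x i0, x i1, hν, hν1, ht.1, ht.2⟩).trans (le_abs_self C1)
    simp only at g0 g1
    linarith
  · intro t _
    refine weaklyDivFree_planar (U0_contDiff hf δ ν t) (U1_contDiff hf δ ν t) (fun x => ?_)
    rw [(U0_fderiv hν' hf i0 i1 t x).fderiv, (U1_fderiv hν' hf i0 i1 t x).fderiv]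
    have h9 := div0 f f1 f2 δ ν t (x i0) (x i1)
    simp [eb_apply_self, eb_apply_ne hi.symm, eb_apply_ne hi]
    linarith
  · intro t ht x
    have ht' := Ioo_subset_Icc_self ht
    rw [Uv_fderiv hf hν', Pv_gradient hf hν']
    have e0 : (Uv i0 i1 f f1 f2 δ ν t x) i0 = U0 f f1 f2 δ ν t (x i0) (x i1) := by
      unfold Uv
      simp [eb_apply_self, eb_apply_ne hi]
    have e1 : (Uv i0 i1 f f1 f2 δ ν t x) i1 = U1 f f1 δ ν t (x i0) (x i1) := by
      unfold Uv
      simp [eb_apply_self, eb_apply_ne hi.symm]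
    rw [e0, e1]
    have e2 : Utv i0 i1 f f1 f2 δ ν t x +
        ((D0X f f1 f2 δ ν t (x i0) (x i1) * U0 f f1 f2 δ ν t (x i0) (x i1) +
          D0Y f f1 f2 f3 δ ν t (x i0) (x i1) * U1 f f1 δ ν t (x i0) (x i1)) • (eb i0 : E n) +
        (D1X f f1 δ ν t (x i0) (x i1) * U0 f f1 f2 δ ν t (x i0) (x i1) +
          D1Y f f1 f2 δ ν t (x i0) (x i1) * U1 f f1 δ ν t (x i0) (x i1)) • (eb i1 : E n)) +
        (PX f f1 δ ν t (x i0) (x i1) • (eb i0 : E n) +
        PY f f1 f2 δ ν t (x i0) (x i1) • (eb i1 : E n)) =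
        (ν ^ 2 * R0 f f1 f2 f3 δ ν t (x i0) (x i1)) • (eb i0 : E n) +
        (ν ^ 2 * R1 f f1 f2 δ ν t (x i0) (x i1)) • (eb i1 : E n) := by
      rw [← residual0, ← residual1]
      unfold Utv
      module
    rw [e2]
    refine (norm_planar_le _ _).trans ?_
    have g0 := (h7 ⟨ν, t, x i0, x i1, hν, hν1, ht'.1, ht'.2⟩).trans (le_abs_self C7)
    have g1 := (h8 ⟨ν, t, x i0, x i1, hν, hν1, ht'.1, ht'.2⟩).trans (le_abs_self C8)
    simp only at g0 g1
    rw [abs_mul, abs_mul, abs_of_pos (by positivity : 0 < ν ^ 2), ← mul_add, mul_comm]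
    gcongr
    linarith
  · intro t ht x
    have g3 := (h3 ⟨ν, t, x i0, x i1, hν, hν1, ht.1, ht.2⟩).trans (le_abs_self C3)
    have g4 := (h4 ⟨ν, t, x i0, x i1, hν, hν1, ht.1, ht.2⟩).trans (le_abs_self C4)
    have g5 := (h5 ⟨ν, t, x i0, x i1, hν, hν1, ht.1, ht.2⟩).trans (le_abs_self C5)
    have g6 := (h6 ⟨ν, t, x i0, x i1, hν, hν1, ht.1, ht.2⟩).trans (le_abs_self C6)
    simp only at g3 g4 g5 g6
    refine ContinuousLinearMap.opNorm_le_bound _ (by positivity) (fun h => ?_)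
    rw [Uv_fderiv hf hν']
    refine (norm_planar_le _ _).trans ?_
    have k0 : |h i0| ≤ ‖h‖ := by
      have := PiLp.norm_apply_le h i0
      simpa using this
    have k1 : |h i1| ≤ ‖h‖ := by
      have := PiLp.norm_apply_le h i1
      simpa using this
    have hh : 0 ≤ ‖h‖ := norm_nonneg _
    calc |D0X f f1 f2 δ ν t (x i0) (x i1) * h i0 + D0Y f f1 f2 f3 δ ν t (x i0) (x i1) * h i1| +
        |D1X f f1 δ ν t (x i0) (x i1) * h i0 + D1Y f f1 f2 δ ν t (x i0) (x i1) * h i1|
        ≤ (|C3| * ‖h‖ + |C4| * ‖h‖) + (|C5| * ‖h‖ + |C6| * ‖h‖) := by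
          refine add_le_add ((abs_add_le _ _).trans (add_le_add ?_ ?_))
            ((abs_add_le _ _).trans (add_le_add ?_ ?_))
          · rw [abs_mul]; gcongr
          · rw [abs_mul]; gcongr
          · rw [abs_mul]; gcongr
          · rw [abs_mul]; gcongr
      _ ≤ K * ‖h‖ := by
          rw [hK]
          nlinarith [mul_nonneg p0 hh, mul_nonneg p1 hh, mul_nonneg p2 hh, mul_nonneg p7 hh,
            mul_nonneg p8 hh]
  · intro t ht x
    have g2 := (h2 ⟨ν, t, x i0, x i1, hν, hν1, ht.1, ht.2⟩).trans (le_abs_self C2)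
    simp only at g2
    unfold Pv
    linarith

end

end Pool.Agent.MP_f6d183_an
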