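import Mathlib
import Pool.Agent.MP_f6d183_an.Defs

set_option autoImplicit false

/-!
# Properties of the Littlewood–Paley kernel
-/

namespace Pool.Agent.MP_f6d183_an

open MeasureTheory Set Filter Topology
open scoped ENNReal FourierTransform ContDiff SchwartzMap

variable {n : ℕ}

/-! ### `L¹` moduli of continuity -/

section modulus

variable {V F : Type*} [NormedAddCommGroup V] [NormedSpace ℝ V] [MeasurableSpace V] [BorelSpace V]
  [NormedAddCommGroup F] [NormedSpace ℝ F] [CompleteSpace F]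

lemma lintegral_diff_le (μ : Measure V) [SigmaFinite μ] [μ.IsAddLeftInvariant] {f : V → F}
    (hf : ContDiff ℝ 1 f) (z : V) :
    ∫⁻ y, ‖f (y + z) - f y‖ₑ ∂μ ≤ ‖z‖ₑ * ∫⁻ y, ‖fderiv ℝ f y‖ₑ ∂μ := by
  have hd : Differentiable ℝ f := hf.differentiable one_ne_zero
  have hcf : Continuous (fderiv ℝ f) := hf.continuous_fderiv one_ne_zero
  have h1 : ∀ y, ‖f (y + z) - f y‖ₑ ≤ ∫⁻ s in Ioc (0 : ℝ) 1, ‖fderiv ℝ f (y + s • z)‖ₑ * ‖z‖ₑ := by
    intro y
    have hder : ∀ s : ℝ, HasDerivAt (fun s : ℝ => f (y + s • z)) (fderiv ℝ f (y + s • z) z) s := by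
      intro s
      have h2 : HasDerivAt (fun s : ℝ => y + s • z) z s := by
        simpa using ((hasDerivAt_id s).smul_const z).const_add y
      exact (hd (y + s • z)).hasFDerivAt.comp_hasDerivAt s h2
    have hcont : Continuous (fun s : ℝ => fderiv ℝ f (y + s • z) z) := by fun_prop
    have h3 := intervalIntegral.integral_eq_sub_of_hasDerivAt (a := (0 : ℝ)) (b := 1)
      (fun s _ => hder s) (hcont.intervalIntegrable _ _)
    simp only [one_smul, zero_smul, add_zero] at h3
    rw [← h3, intervalIntegral.integral_of_le zero_le_one]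
    refine (enorm_integral_le_lintegral_enorm _).trans ?_
    apply lintegral_mono
    intro s
    exact ContinuousLinearMap.le_opENorm _ _
  calc ∫⁻ y, ‖f (y + z) - f y‖ₑ ∂μ
      ≤ ∫⁻ y, (∫⁻ s in Ioc (0 : ℝ) 1, ‖fderiv ℝ f (y + s • z)‖ₑ * ‖z‖ₑ) ∂μ := lintegral_mono h1
    _ = ∫⁻ s in Ioc (0 : ℝ) 1, (∫⁻ y, ‖fderiv ℝ f (y + s • z)‖ₑ * ‖z‖ₑ ∂μ) := by
        rw [lintegral_lintegral_swap]
        have hm : Continuous (fun p : V × ℝ => fderiv ℝ f (p.1 + p.2 • z)) := by fun_prop
        exact (hm.enorm.measurable.mul_const _).aemeasurable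
    _ = ∫⁻ s in Ioc (0 : ℝ) 1, (‖z‖ₑ * ∫⁻ y, ‖fderiv ℝ f y‖ₑ ∂μ) := by
        congr 1
        ext s
        rw [lintegral_mul_const' _ _ (by simp), mul_comm]
        congr 1
        have : (fun y => ‖fderiv ℝ f (y + s • z)‖ₑ) = (fun y => (fun y => ‖fderiv ℝ f y‖ₑ)
          (y + s • z)) := rfl
        rw [this]
        have hright : μ.IsAddRightInvariant := inferInstance
        exact lintegral_add_right_eq_self (fun y => ‖fderiv ℝ f y‖ₑ) (s • z)
    _ = ‖z‖ₑ * ∫⁻ y, ‖fderiv ℝ f y‖ₑ ∂μ := by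
        simp

lemma lintegral_second_diff_le (μ : Measure V) [SigmaFinite μ] [μ.IsAddLeftInvariant] {f : V → F}
    (hf : ContDiff ℝ 2 f) (z : V) :
    ∫⁻ y, ‖f (y + z) + f (y - z) - (2 : ℝ) • f y‖ₑ ∂μ ≤
      ‖z‖ₑ * (‖z‖ₑ * ∫⁻ y, ‖fderiv ℝ (fderiv ℝ f) y‖ₑ ∂μ) := by
  have hd : Differentiable ℝ f := hf.differentiable two_ne_zero
  have hdf : ContDiff ℝ 1 (fderiv ℝ f) := hf.fderiv_right (m := 1) (by norm_num)
  have hg : ContDiff ℝ 1 (fun y => f (y + z) - f y) := by
    have h1 : ContDiff ℝ 1 f := hf.of_le (by norm_num)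
    exact (h1.comp (contDiff_id.add contDiff_const)).sub h1
  have h1 := lintegral_diff_le μ hg (-z)
  have h2 := lintegral_diff_le μ hdf z
  have h3 : ∀ y, fderiv ℝ (fun y => f (y + z) - f y) y = fderiv ℝ f (y + z) - fderiv ℝ f y := by
    intro y
    have e1 : HasFDerivAt (fun y => f (y + z)) (fderiv ℝ f (y + z)) y := by
      have := (hd (y + z)).hasFDerivAt.comp y ((hasFDerivAt_id y).add_const z)
      simpa [Function.comp_def] using this
    exact (e1.sub (hd y).hasFDerivAt).fderiv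
  simp only [h3, enorm_neg] at h1
  calc ∫⁻ y, ‖f (y + z) + f (y - z) - (2 : ℝ) • f y‖ₑ ∂μ
      = ∫⁻ y, ‖(f (y + -z + z) - f (y + -z)) - (f (y + z) - f y)‖ₑ ∂μ := by
        congr 1
        ext y
        rw [← enorm_neg]
        congr 1
        rw [two_smul, neg_add_cancel_right, ← sub_eq_add_neg]
        abel
    _ ≤ _ := h1
    _ ≤ _ := by gcongr

end modulus

/-! ### The kernel as a Schwartz function -/

/-- the cut-off as a complex Schwartz function -/
noncomputable def chiS (χ : LPCutoff n) : 𝓢(E n, ℂ) :=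
  HasCompactSupport.toSchwartzMap (f := fun ξ : E n => (χ.toFun ξ : ℂ))
    (χ.compactSupport.comp_left (g := Complex.ofReal) Complex.ofReal_zero)
    (Complex.ofRealCLM.contDiff.comp χ.smooth)

lemma chiS_apply (χ : LPCutoff n) (ξ : E n) : chiS χ ξ = (χ.toFun ξ : ℂ) := rfl

/-- the inverse Fourier transform of the cut-off -/
noncomputable def gS (χ : LPCutoff n) : 𝓢(E n, ℂ) := 𝓕⁻ (chiS χ)

lemma gS_apply (χ : LPCutoff n) (x : E n) :
    gS χ x = 𝓕⁻ (fun ξ : E n => (χ.toFun ξ : ℂ)) x := by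
  rw [gS, SchwartzMap.fourierInv_coe]
  rfl

/-- the kernel as a real Schwartz function -/
noncomputable def kerS (χ : LPCutoff n) : 𝓢(E n, ℝ) := (gS χ).postcompCLM Complex.reCLM

lemma kerS_apply (χ : LPCutoff n) (x : E n) : kerS χ x = kernel χ x := by
  rw [kerS, SchwartzMap.postcompCLM_apply, gS_apply]
  rfl

lemma chi_even (χ : LPCutoff n) (ξ : E n) : χ.toFun (-ξ) = χ.toFun ξ :=
  χ.radial _ _ (norm_neg ξ)

lemma gS_even (χ : LPCutoff n) (x : E n) : gS χ (-x) = gS χ x := by
  have h := Real.fourierInv_comp_linearIsometry (LinearIsometryEquiv.neg ℝ (E := E n))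
    (fun ξ : E n => (χ.toFun ξ : ℂ)) x
  have h2 : (fun ξ : E n => (χ.toFun ξ : ℂ)) ∘ (LinearIsometryEquiv.neg ℝ (E := E n)) =
      (fun ξ : E n => (χ.toFun ξ : ℂ)) := by
    ext ξ
    simp [chi_even]
  rw [h2] at h
  rw [gS_apply, gS_apply, h]
  rfl

lemma kernel_even (χ : LPCutoff n) (x : E n) : kernel χ (-x) = kernel χ x := by
  rw [← kerS_apply, ← kerS_apply, kerS, SchwartzMap.postcompCLM_apply,
    SchwartzMap.postcompCLM_apply, gS_even]

lemma gS_conj (χ : LPCutoff n) (x : E n) : (starRingEnd ℂ) (gS χ x) = gS χ x := by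
  conv_rhs => rw [← gS_even]
  rw [gS_apply, gS_apply, Real.fourierInv_eq', Real.fourierInv_eq', ← integral_conj]
  congr 1
  ext ξ
  simp only [smul_eq_mul, map_mul, Complex.conj_ofReal, inner_neg_right]
  rw [← Complex.exp_conj]
  congr 2
  simp only [map_mul, Complex.conj_ofReal, Complex.conj_I]
  push_cast
  ring

lemma gS_eq_kernel (χ : LPCutoff n) (x : E n) : gS χ x = (kernel χ x : ℂ) := by
  have h := Complex.conj_eq_iff_re.1 (gS_conj χ x)
  rw [← h]
  congr 1
  rw [gS_apply]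
  rfl

lemma fourier_gS (χ : LPCutoff n) (ξ : E n) : 𝓕 (gS χ : E n → ℂ) ξ = (χ.toFun ξ : ℂ) := by
  have h : 𝓕 (gS χ) = chiS χ := by
    rw [gS]
    exact FourierTransform.fourier_fourierInv_eq _
  rw [← SchwartzMap.fourier_coe, h, chiS_apply]

lemma integral_kernel_cexp (χ : LPCutoff n) (ξ : E n) :
    ∫ x, Complex.exp (((-2 * Real.pi * inner ℝ x ξ : ℝ) : ℂ) * Complex.I) * (kernel χ x : ℂ) =
      (χ.toFun ξ : ℂ) := by
  rw [← fourier_gS, Real.fourier_eq']
  congr 1
  ext x
  rw [gS_eq_kernel, smul_eq_mul]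

lemma chi_zero (χ : LPCutoff n) : χ.toFun 0 = 1 := by
  obtain ⟨r, hr, h⟩ := χ.one_near_zero
  exact h 0 (by simpa using hr.le)

lemma kernel_integrable (χ : LPCutoff n) : Integrable (kernel χ) := by
  have := (kerS χ).integrable (μ := volume)
  exact this.congr (Eventually.of_forall (fun x => kerS_apply χ x))

lemma integral_kernel (χ : LPCutoff n) : ∫ x, kernel χ x = 1 := by
  have h := integral_kernel_cexp χ 0
  simp only [inner_zero_right, mul_zero, Complex.ofReal_zero, zero_mul, Complex.exp_zero, one_mul,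
    chi_zero, Complex.ofReal_one] at h
  rw [integral_complex_ofReal] at h
  exact_mod_cast h

lemma kernel_contDiff (χ : LPCutoff n) (k : ℕ) : ContDiff ℝ k (kernel χ) := by
  have : kernel χ = (kerS χ : E n → ℝ) := by
    ext x
    exact (kerS_apply χ x).symm
  rw [this]
  exact (kerS χ).smooth k

lemma kernel_continuous (χ : LPCutoff n) : Continuous (kernel χ) := (kernel_contDiff χ 0).continuous

lemma kernel_lintegral_lt_top (χ : LPCutoff n) : ∫⁻ x, ‖kernel χ x‖ₑ < ⊤ :=
  (kernel_integrable χ).2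

lemma kernel_fderiv_lintegral_lt_top (χ : LPCutoff n) :
    ∫⁻ x, ‖fderiv ℝ (kernel χ) x‖ₑ < ⊤ := by
  have h := (SchwartzMap.fderivCLM ℝ (E n) ℝ (kerS χ)).integrable (μ := volume)
  have h2 : (fun x => kerS χ x) = kernel χ := by
    ext x
    exact kerS_apply χ x
  have := h.2
  simp only [HasFiniteIntegral, SchwartzMap.fderivCLM_apply] at this
  rw [← h2]
  exact this

lemma kernel_fderiv2_lintegral_lt_top (χ : LPCutoff n) :
    ∫⁻ x, ‖fderiv ℝ (fderiv ℝ (kernel χ)) x‖ₑ < ⊤ := by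
  have h := (SchwartzMap.fderivCLM ℝ (E n) _ (SchwartzMap.fderivCLM ℝ (E n) ℝ (kerS χ))).integrable
    (μ := volume)
  have h2 : (fun x => kerS χ x) = kernel χ := by
    ext x
    exact kerS_apply χ x
  have h3 : (fun x => SchwartzMap.fderivCLM ℝ (E n) ℝ (kerS χ) x) = fderiv ℝ (kernel χ) := by
    ext x
    rw [SchwartzMap.fderivCLM_apply, ← h2]
  have := h.2
  simp only [HasFiniteIntegral, SchwartzMap.fderivCLM_apply] at this
  rw [← h3]
  exact this

lemma kernel_moment_lt_top (χ : LPCutoff n) : ∫⁻ x, ‖x‖ₑ ^ 2 * ‖kernel χ x‖ₑ < ⊤ := by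
  have h := ((kerS χ).integrable_pow_mul volume 2).2
  simp only [HasFiniteIntegral, kerS_apply] at h
  refine lt_of_le_of_lt (le_of_eq ?_) h
  congr 1
  ext x
  rw [enorm_mul, enorm_pow, enorm_norm, enorm_norm]

/-- the kernel reproduces itself under a much sharper low-pass filter -/
lemma kernel_reproducing (χ : LPCutoff n) (c : ℝ)
    (hc : ∀ ξ : E n, χ.toFun ξ ≠ 0 → χ.toFun (c • ξ) = 1) (y : E n) :
    ∫ ζ, kernel χ ζ * kernel χ (y - c • ζ) = kernel χ y := by
  have hk : ∀ w : E n, (kernel χ w : ℂ) =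
      ∫ ξ, Complex.exp (((2 * Real.pi * inner ℝ ξ w : ℝ) : ℂ) * Complex.I) * (χ.toFun ξ : ℂ) := by
    intro w
    rw [← gS_eq_kernel, gS_apply, Real.fourierInv_eq']
    rfl
  have hint : Integrable (Function.uncurry (fun (ζ ξ : E n) => (kernel χ ζ : ℂ) *
      (Complex.exp (((2 * Real.pi * inner ℝ ξ (y - c • ζ) : ℝ) : ℂ) * Complex.I) *
        (χ.toFun ξ : ℂ)))) (volume.prod volume) := by
    have h1 : Integrable (fun p : E n × E n => (kernel χ p.1 : ℂ) * (χ.toFun p.2 : ℂ))
        (volume.prod volume) := by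
      refine Integrable.mul_prod (f := fun x => (kernel χ x : ℂ)) (g := fun x => (χ.toFun x : ℂ))
        ?_ ?_
      · exact (kernel_integrable χ).ofReal
      · exact (chiS χ).integrable (μ := volume)
    refine h1.mono ?_ ?_
    · have hk := kernel_continuous χ
      have hχ := χ.smooth.continuous
      apply Continuous.aestronglyMeasurable
      unfold Function.uncurry
      fun_prop
    · refine Eventually.of_forall ?_
      rintro ⟨ζ, ξ⟩
      simp only [Function.uncurry, norm_mul, Complex.norm_exp_ofReal_mul_I, one_mul]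
      exact le_rfl
  have key : (∫ ζ, (kernel χ ζ : ℂ) * (kernel χ (y - c • ζ) : ℂ)) = (kernel χ y : ℂ) := by
    calc (∫ ζ, (kernel χ ζ : ℂ) * (kernel χ (y - c • ζ) : ℂ))
        = ∫ ζ, ∫ ξ, (kernel χ ζ : ℂ) *
          (Complex.exp (((2 * Real.pi * inner ℝ ξ (y - c • ζ) : ℝ) : ℂ) * Complex.I) *
            (χ.toFun ξ : ℂ)) := by
          congr 1
          ext ζ
          rw [hk (y - c • ζ), integral_const_mul]
      _ = ∫ ξ, ∫ ζ, (kernel χ ζ : ℂ) *
          (Complex.exp (((2 * Real.pi * inner ℝ ξ (y - c • ζ) : ℝ) : ℂ) * Complex.I) *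
            (χ.toFun ξ : ℂ)) := integral_integral_swap hint
      _ = ∫ ξ, Complex.exp (((2 * Real.pi * inner ℝ ξ y : ℝ) : ℂ) * Complex.I) *
            (χ.toFun ξ : ℂ) := by
          congr 1
          ext ξ
          have h2 : ∀ ζ : E n, (kernel χ ζ : ℂ) *
              (Complex.exp (((2 * Real.pi * inner ℝ ξ (y - c • ζ) : ℝ) : ℂ) * Complex.I) *
                (χ.toFun ξ : ℂ)) =
              (Complex.exp (((2 * Real.pi * inner ℝ ξ y : ℝ) : ℂ) * Complex.I) *
                (χ.toFun ξ : ℂ)) *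
              (Complex.exp (((-2 * Real.pi * inner ℝ ζ (c • ξ) : ℝ) : ℂ) * Complex.I) *
                (kernel χ ζ : ℂ)) := by
            intro ζ
            have h3 : Complex.exp (((2 * Real.pi * inner ℝ ξ (y - c • ζ) : ℝ) : ℂ) * Complex.I) =
                Complex.exp (((2 * Real.pi * inner ℝ ξ y : ℝ) : ℂ) * Complex.I) *
                Complex.exp (((-2 * Real.pi * inner ℝ ζ (c • ξ) : ℝ) : ℂ) * Complex.I) := by
              rw [← Complex.exp_add]
              congr 1
              rw [inner_sub_right, inner_smul_right, inner_smul_right, real_inner_comm ξ ζ]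
              push_cast
              ring
            rw [h3]
            ring
          simp only [h2]
          rw [integral_const_mul, integral_kernel_cexp]
          by_cases hξ : χ.toFun ξ = 0
          · simp [hξ]
          · rw [hc ξ hξ]
            simp
      _ = (kernel χ y : ℂ) := (hk y).symm
  have h4 : (∫ ζ, (kernel χ ζ : ℂ) * (kernel χ (y - c • ζ) : ℂ)) =
      ((∫ ζ, kernel χ ζ * kernel χ (y - c • ζ) : ℝ) : ℂ) := by
    rw [← integral_complex_ofReal]
    congr 1
    ext ζ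
    push_cast
    rfl
  rw [h4] at key
  exact_mod_cast key

end Pool.Agent.MP_f6d183_an
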