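import Mathlib
import Pool.Agent.MP_f6d183_an.Kernel

set_option autoImplicit false

/-!
# The low-pass filters on bounded continuous functions
-/

namespace Pool.Agent.MP_f6d183_an

open MeasureTheory Set Filter Topology
open scoped ENNReal FourierTransform ContDiff

variable {n : ℕ}

/-! ### Constants -/

/-- `∫ |h|` -/
noncomputable def A0 (χ : LPCutoff n) : ℝ := ∫ x, ‖kernel χ x‖
/-- `∫ |x|² |h|` -/
noncomputable def A2 (χ : LPCutoff n) : ℝ := ∫ x, ‖x‖ ^ 2 * ‖kernel χ x‖
/-- `∫ |∇h|` -/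
noncomputable def D1 (χ : LPCutoff n) : ℝ := (∫⁻ x, ‖fderiv ℝ (kernel χ) x‖ₑ).toReal
/-- `∫ |∇²h|` -/
noncomputable def D2 (χ : LPCutoff n) : ℝ := (∫⁻ x, ‖fderiv ℝ (fderiv ℝ (kernel χ)) x‖ₑ).toReal

lemma A0_nonneg (χ : LPCutoff n) : 0 ≤ A0 χ := integral_nonneg (fun _ => norm_nonneg _)
lemma A2_nonneg (χ : LPCutoff n) : 0 ≤ A2 χ := integral_nonneg (fun _ => by positivity)
lemma D1_nonneg (χ : LPCutoff n) : 0 ≤ D1 χ := ENNReal.toReal_nonneg
lemma D2_nonneg (χ : LPCutoff n) : 0 ≤ D2 χ := ENNReal.toReal_nonneg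

lemma moment_integrable (χ : LPCutoff n) : Integrable (fun x : E n => ‖x‖ ^ 2 * ‖kernel χ x‖) := by
  have h := (kerS χ).integrable_pow_mul volume 2
  simpa only [kerS_apply] using h

lemma diff_integrable (χ : LPCutoff n) (w : E n) :
    Integrable (fun ζ => kernel χ (ζ + w) - kernel χ ζ) :=
  ((kernel_integrable χ).comp_add_right w).sub (kernel_integrable χ)

lemma integral_diff_le (χ : LPCutoff n) (w : E n) :
    ∫ ζ, ‖kernel χ (ζ + w) - kernel χ ζ‖ ≤ D1 χ * ‖w‖ := by
  have h := lintegral_diff_le volume (kernel_contDiff χ 1) w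
  rw [integral_norm_eq_lintegral_enorm (diff_integrable χ w).aestronglyMeasurable]
  calc (∫⁻ a, ‖kernel χ (a + w) - kernel χ a‖ₑ).toReal
      ≤ (‖w‖ₑ * ∫⁻ y, ‖fderiv ℝ (kernel χ) y‖ₑ).toReal :=
        ENNReal.toReal_mono (ENNReal.mul_ne_top (by simp) (kernel_fderiv_lintegral_lt_top χ).ne) h
    _ = D1 χ * ‖w‖ := by
        rw [ENNReal.toReal_mul, toReal_enorm, mul_comm]
        rfl

lemma diff2_integrable (χ : LPCutoff n) (w : E n) :
    Integrable (fun ζ => kernel χ (ζ + w) + kernel χ (ζ - w) - 2 * kernel χ ζ) :=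
  (((kernel_integrable χ).comp_add_right w).add ((kernel_integrable χ).comp_sub_right w)).sub
    ((kernel_integrable χ).const_mul 2)

lemma integral_diff2_le (χ : LPCutoff n) (w : E n) :
    ∫ ζ, ‖kernel χ (ζ + w) + kernel χ (ζ - w) - 2 * kernel χ ζ‖ ≤ D2 χ * ‖w‖ ^ 2 := by
  have h := lintegral_second_diff_le volume (kernel_contDiff χ 2) w
  simp only [smul_eq_mul] at h
  rw [integral_norm_eq_lintegral_enorm (diff2_integrable χ w).aestronglyMeasurable]
  calc (∫⁻ a, ‖kernel χ (a + w) + kernel χ (a - w) - 2 * kernel χ a‖ₑ).toReal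
      ≤ (‖w‖ₑ * (‖w‖ₑ * ∫⁻ y, ‖fderiv ℝ (fderiv ℝ (kernel χ)) y‖ₑ)).toReal :=
        ENNReal.toReal_mono (ENNReal.mul_ne_top (by simp) (ENNReal.mul_ne_top (by simp)
          (kernel_fderiv2_lintegral_lt_top χ).ne)) h
    _ = D2 χ * ‖w‖ ^ 2 := by
        rw [ENNReal.toReal_mul, ENNReal.toReal_mul, toReal_enorm]
        unfold D2
        ring

/-! ### The operator in substituted form -/

variable {F : Type*} [NormedAddCommGroup F] [NormedSpace ℝ F]

/-- `S_j f (x) = ∫ h(z) f(x - 2^{-j} z) dz` -/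
noncomputable def Sop (χ : LPCutoff n) (j : ℕ) (f : E n → F) (x : E n) : F :=
  ∫ z, kernel χ z • f (x - ((2 : ℝ) ^ j)⁻¹ • z)

lemma lowPass_eq (χ : LPCutoff n) (j : ℕ) (f : E n → E n) (x : E n) :
    lowPass χ j f x = Sop χ j f x := by
  unfold lowPass Sop
  have h := Measure.integral_comp_smul (μ := (volume : Measure (E n)))
    (fun z => kernel χ z • f (x - ((2 : ℝ) ^ j)⁻¹ • z)) ((2 : ℝ) ^ j)
  have h2 : ((2 : ℝ) ^ j) ≠ 0 := by positivity
  simp only [smul_smul, inv_mul_cancel₀ h2, one_smul] at h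
  rw [finrank_euclideanSpace_fin] at h
  have h3 : |(((2 : ℝ) ^ j) ^ n)⁻¹| = (((2 : ℝ) ^ j) ^ n)⁻¹ := abs_of_pos (by positivity)
  rw [h3] at h
  have h4 : (∫ z, kernel χ z • f (x - ((2 : ℝ) ^ j)⁻¹ • z)) =
      ((2 : ℝ) ^ j) ^ n • ∫ y, kernel χ ((2 : ℝ) ^ j • y) • f (x - y) := by
    rw [h, smul_smul, mul_inv_cancel₀ (by positivity), one_smul]
  rw [h4, ← integral_smul]
  congr 1
  ext1 y
  rw [mul_smul, pow_mul]

/-- bounded continuous functions with an explicit bound -/
structure BC (f : E n → F) (C : ℝ) : Prop where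
  cont : Continuous f
  bound : ∀ x, ‖f x‖ ≤ C

lemma BC.nonneg {f : E n → F} {C : ℝ} (hf : BC f C) : 0 ≤ C :=
  (norm_nonneg _).trans (hf.bound 0)

variable {f : E n → F} {C : ℝ}

lemma BC.integrable_smul (hf : BC f C) {k : E n → ℝ} (hk : Integrable k) (x : E n) (c : ℝ) :
    Integrable (fun z => k z • f (x - c • z)) := by
  refine (hk.mul_const C).mono ?_ ?_
  · have hc := hf.cont
    exact hk.aestronglyMeasurable.smul
      (Continuous.aestronglyMeasurable (by fun_prop))
  · refine Eventually.of_forall (fun z => ?_)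
    rw [norm_smul, norm_mul]
    gcongr
    exact (hf.bound _).trans (le_abs_self _)

lemma BC.norm_integral_le (hf : BC f C) {k : E n → ℝ} (hk : Integrable k) (x : E n) (c : ℝ) :
    ‖∫ z, k z • f (x - c • z)‖ ≤ (∫ z, ‖k z‖) * C := by
  rw [← integral_mul_const]
  refine norm_integral_le_of_norm_le (hk.norm.mul_const C) (Eventually.of_forall (fun z => ?_))
  rw [norm_smul]
  gcongr
  exact hf.bound _

lemma BC.norm_Sop_le (hf : BC f C) (χ : LPCutoff n) (j : ℕ) (x : E n) :
    ‖Sop χ j f x‖ ≤ A0 χ * C := hf.norm_integral_le (kernel_integrable χ) x _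

lemma BC.Sop_continuous (hf : BC f C) (χ : LPCutoff n) (j : ℕ) : Continuous (Sop χ j f) := by
  unfold Sop
  have hc := hf.cont
  have hk := kernel_continuous χ
  refine continuous_of_dominated (bound := fun z => ‖kernel χ z‖ * C) ?_ ?_ ?_ ?_
  · intro x
    exact Continuous.aestronglyMeasurable (by fun_prop)
  · intro x
    refine Eventually.of_forall (fun z => ?_)
    rw [norm_smul]
    gcongr
    exact hf.bound _
  · exact (kernel_integrable χ).norm.mul_const C
  · refine Eventually.of_forall (fun z => ?_)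
    fun_prop

lemma BC.Sop_BC (hf : BC f C) (χ : LPCutoff n) (j : ℕ) : BC (Sop χ j f) (A0 χ * C) :=
  ⟨hf.Sop_continuous χ j, hf.norm_Sop_le χ j⟩

lemma BC.sub {g : E n → F} {C' : ℝ} (hf : BC f C) (hg : BC g C') :
    BC (fun x => f x - g x) (C + C') :=
  ⟨hf.cont.sub hg.cont, fun x => (norm_sub_le _ _).trans (add_le_add (hf.bound x) (hg.bound x))⟩

lemma BC.add {g : E n → F} {C' : ℝ} (hf : BC f C) (hg : BC g C') :
    BC (fun x => f x + g x) (C + C') :=
  ⟨hf.cont.add hg.cont, fun x => (norm_add_le _ _).trans (add_le_add (hf.bound x) (hg.bound x))⟩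

lemma BC.mono {C' : ℝ} (hf : BC f C) (h : C ≤ C') : BC f C' :=
  ⟨hf.cont, fun x => (hf.bound x).trans h⟩

lemma Sop_sub {g : E n → F} {C' : ℝ} (hf : BC f C) (hg : BC g C') (χ : LPCutoff n) (j : ℕ)
    (x : E n) : Sop χ j (fun x => f x - g x) x = Sop χ j f x - Sop χ j g x := by
  unfold Sop
  rw [← integral_sub (hf.integrable_smul (kernel_integrable χ) x _)
    (hg.integrable_smul (kernel_integrable χ) x _)]
  congr 1
  ext1 z
  rw [smul_sub]

lemma Sop_add {g : E n → F} {C' : ℝ} (hf : BC f C) (hg : BC g C') (χ : LPCutoff n) (j : ℕ)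
    (x : E n) : Sop χ j (fun x => f x + g x) x = Sop χ j f x + Sop χ j g x := by
  unfold Sop
  rw [← integral_add (hf.integrable_smul (kernel_integrable χ) x _)
    (hg.integrable_smul (kernel_integrable χ) x _)]
  congr 1
  ext1 z
  rw [smul_add]

/-- translation of the variable in the kernel -/
lemma Sop_shift (χ : LPCutoff n) (j : ℕ) (f : E n → F) (x w : E n) :
    Sop χ j f (x + w) = ∫ ζ, kernel χ (ζ + (2 : ℝ) ^ j • w) • f (x - ((2 : ℝ) ^ j)⁻¹ • ζ) := by
  unfold Sop
  rw [← integral_add_right_eq_self (fun z => kernel χ z • f (x + w - ((2 : ℝ) ^ j)⁻¹ • z))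
    ((2 : ℝ) ^ j • w)]
  congr 1
  ext1 ζ
  congr 2
  rw [smul_add, smul_smul, inv_mul_cancel₀ (by positivity), one_smul]
  abel

lemma BC.norm_Sop_diff_le (hf : BC f C) (χ : LPCutoff n) (j : ℕ) (x w : E n) :
    ‖Sop χ j f (x + w) - Sop χ j f x‖ ≤ D1 χ * (2 ^ j * ‖w‖) * C := by
  rw [Sop_shift]
  unfold Sop
  rw [← integral_sub]
  · have h : (fun ζ => kernel χ (ζ + (2 : ℝ) ^ j • w) • f (x - ((2 : ℝ) ^ j)⁻¹ • ζ) -
        kernel χ ζ • f (x - ((2 : ℝ) ^ j)⁻¹ • ζ)) =
        (fun ζ => (kernel χ (ζ + (2 : ℝ) ^ j • w) - kernel χ ζ) • f (x - ((2 : ℝ) ^ j)⁻¹ • ζ)) := by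
      ext1 ζ
      rw [sub_smul]
    rw [h]
    refine (hf.norm_integral_le (diff_integrable χ _) x _).trans ?_
    refine mul_le_mul_of_nonneg_right ?_ hf.nonneg
    refine (integral_diff_le χ _).trans (le_of_eq ?_)
    rw [norm_smul, norm_pow, Real.norm_two]
  · exact hf.integrable_smul ((kernel_integrable χ).comp_add_right _) x _
  · exact hf.integrable_smul (kernel_integrable χ) x _

lemma BC.norm_Sop_diff2_le (hf : BC f C) (χ : LPCutoff n) (j : ℕ) (x w : E n) :
    ‖Sop χ j f (x + w) + Sop χ j f (x - w) - (2 : ℝ) • Sop χ j f x‖ ≤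
      D2 χ * (2 ^ j * ‖w‖) ^ 2 * C := by
  rw [sub_eq_add_neg x w, Sop_shift, Sop_shift]
  unfold Sop
  rw [← integral_add, ← integral_smul, ← integral_sub]
  · have h : (fun ζ => kernel χ (ζ + (2 : ℝ) ^ j • w) • f (x - ((2 : ℝ) ^ j)⁻¹ • ζ) +
        kernel χ (ζ + (2 : ℝ) ^ j • (-w)) • f (x - ((2 : ℝ) ^ j)⁻¹ • ζ) -
        (2 : ℝ) • kernel χ ζ • f (x - ((2 : ℝ) ^ j)⁻¹ • ζ)) =
        (fun ζ => (kernel χ (ζ + (2 : ℝ) ^ j • w) + kernel χ (ζ - (2 : ℝ) ^ j • w) -
          2 * kernel χ ζ) • f (x - ((2 : ℝ) ^ j)⁻¹ • ζ)) := by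
      ext1 ζ
      rw [sub_smul, add_smul, mul_smul, smul_neg, ← sub_eq_add_neg]
    rw [h]
    refine (hf.norm_integral_le (diff2_integrable χ _) x _).trans ?_
    refine mul_le_mul_of_nonneg_right ?_ hf.nonneg
    refine (integral_diff2_le χ _).trans (le_of_eq ?_)
    rw [norm_smul, norm_pow, Real.norm_two]
  · exact (hf.integrable_smul ((kernel_integrable χ).comp_add_right _) x _).add
      (hf.integrable_smul ((kernel_integrable χ).comp_add_right _) x _)
  · exact (hf.integrable_smul (kernel_integrable χ) x _).smul (2 : ℝ)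
  · exact hf.integrable_smul ((kernel_integrable χ).comp_add_right _) x _
  · exact hf.integrable_smul ((kernel_integrable χ).comp_add_right _) x _

/-- `m₀` such that `χ(2^{-m} ξ) = 1` on the support of `χ` for `m ≥ m₀` -/
lemma exists_m0 (χ : LPCutoff n) : ∃ m₀ : ℕ, ∀ m, m₀ ≤ m → ∀ ξ : E n, χ.toFun ξ ≠ 0 →
    χ.toFun (((2 : ℝ) ^ m)⁻¹ • ξ) = 1 := by
  obtain ⟨r, hr, h1⟩ := χ.one_near_zero
  obtain ⟨R, hR⟩ := χ.compactSupport.isCompact.isBounded.exists_norm_le
  obtain ⟨m₀, hm₀⟩ := exists_nat_gt (R / r)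
  refine ⟨m₀, fun m hm ξ hξ => h1 _ ?_⟩
  have h2 : ‖ξ‖ ≤ R := hR ξ (subset_tsupport _ hξ)
  have h3 : (m : ℝ) ≤ 2 ^ m := by
    exact_mod_cast (Nat.lt_two_pow_self).le
  have h4 : (m₀ : ℝ) ≤ m := by exact_mod_cast hm
  rw [norm_smul, norm_inv, norm_pow, Real.norm_two]
  have h5 : R ≤ r * 2 ^ m := by
    have : R / r ≤ 2 ^ m := by linarith
    rw [div_le_iff₀ hr] at this
    linarith
  rw [inv_mul_le_iff₀ (by positivity)]
  linarith

/-- `S_J S_j = S_j` if `J` is much larger than `j` -/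
lemma BC.Sop_Sop [CompleteSpace F] (hf : BC f C) (χ : LPCutoff n) {m₀ : ℕ}
    (hm₀ : ∀ m, m₀ ≤ m → ∀ ξ : E n, χ.toFun ξ ≠ 0 → χ.toFun (((2 : ℝ) ^ m)⁻¹ • ξ) = 1)
    {j J : ℕ} (hJ : j + m₀ ≤ J) (x : E n) :
    Sop χ J (Sop χ j f) x = Sop χ j f x := by
  obtain ⟨m, rfl⟩ : ∃ m, J = j + m := ⟨J - j, by omega⟩
  have hm : m₀ ≤ m := by omega
  set c : ℝ := ((2 : ℝ) ^ m)⁻¹ with hc
  set d : ℝ := ((2 : ℝ) ^ j)⁻¹ with hd
  have hcd : ((2 : ℝ) ^ (j + m))⁻¹ = d * c := by
    rw [hc, hd, pow_add, mul_inv]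
  have hkc := kernel_continuous χ
  have hfc := hf.cont
  have h1 : ∀ ζ : E n, Sop χ j f (x - (d * c) • ζ) =
      ∫ y, kernel χ (y - c • ζ) • f (x - d • y) := by
    intro ζ
    unfold Sop
    rw [← integral_sub_right_eq_self (fun z => kernel χ z • f (x - (d * c) • ζ - d • z)) (c • ζ)]
    congr 1
    ext1 y
    congr 2
    rw [smul_sub, smul_smul]
    abel
  have hint : Integrable (Function.uncurry (fun (ζ y : E n) =>
      kernel χ ζ • (kernel χ (y - c • ζ) • f (x - d • y)))) (volume.prod volume) := by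
    have h2 : Integrable (fun p : E n × E n => kernel χ p.1 * kernel χ (p.2 - c • p.1))
        (volume.prod volume) := by
      have h3 : Integrable (fun p : E n × E n => kernel χ p.1 * kernel χ p.2)
          (volume.prod volume) := (kernel_integrable χ).mul_prod (kernel_integrable χ)
      -- shear is measure preserving
      have hsh : MeasurePreserving (fun p : E n × E n => (p.1, p.2 - c • p.1))
          (volume.prod volume) (volume.prod volume) := by
        have := MeasurePreserving.skew_product (μa := (volume : Measure (E n)))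
          (μb := (volume : Measure (E n))) (μc := (volume : Measure (E n)))
          (μd := (volume : Measure (E n))) (f := id) (g := fun a b => b - c • a)
          (MeasurePreserving.id _) (by
            apply Continuous.measurable
            unfold Function.uncurry
            fun_prop) (by
            refine Eventually.of_forall (fun a => ?_)
            exact (measurePreserving_sub_right (volume : Measure (E n)) (c • a)).map_eq)
        exact this
      exact hsh.integrable_comp_of_integrable h3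
    refine (h2.norm.mul_const C).mono ?_ ?_
    · apply Continuous.aestronglyMeasurable
      unfold Function.uncurry
      fun_prop
    · refine Eventually.of_forall ?_
      rintro ⟨ζ, y⟩
      simp only [Function.uncurry, norm_smul, norm_mul, norm_norm, Real.norm_eq_abs, abs_abs]
      rw [← mul_assoc]
      gcongr
      exact (hf.bound _).trans (le_abs_self _)
  calc Sop χ (j + m) (Sop χ j f) x
      = ∫ ζ, kernel χ ζ • ∫ y, kernel χ (y - c • ζ) • f (x - d • y) := by
        rw [Sop, hcd]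
        congr 1
        ext1 ζ
        rw [h1 ζ]
    _ = ∫ ζ, ∫ y, kernel χ ζ • (kernel χ (y - c • ζ) • f (x - d • y)) := by
        congr 1
        ext1 ζ
        rw [integral_smul]
    _ = ∫ y, ∫ ζ, kernel χ ζ • (kernel χ (y - c • ζ) • f (x - d • y)) :=
        integral_integral_swap hint
    _ = ∫ y, kernel χ y • f (x - d • y) := by
        congr 1
        ext1 y
        simp only [smul_smul]
        rw [integral_smul_const, kernel_reproducing χ c (hm₀ m hm)]
    _ = Sop χ j f x := rfl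

/-- `S_j f → f` pointwise -/
lemma BC.tendsto_Sop [CompleteSpace F] (hf : BC f C) (χ : LPCutoff n) (x : E n) :
    Tendsto (fun j => Sop χ j f x) atTop (𝓝 (f x)) := by
  have h1 : f x = ∫ z, kernel χ z • f x := by
    rw [integral_smul_const, integral_kernel, one_smul]
  rw [h1]
  have hkc := kernel_continuous χ
  have hfc := hf.cont
  refine tendsto_integral_of_dominated_convergence (fun z => ‖kernel χ z‖ * C) ?_ ?_ ?_ ?_
  · intro j
    exact Continuous.aestronglyMeasurable (by fun_prop)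
  · exact (kernel_integrable χ).norm.mul_const C
  · intro j
    refine Eventually.of_forall (fun z => ?_)
    rw [norm_smul]
    gcongr
    exact hf.bound _
  · refine Eventually.of_forall (fun z => ?_)
    have h2 : Tendsto (fun j : ℕ => ((2 : ℝ) ^ j)⁻¹) atTop (𝓝 0) := by
      have := tendsto_pow_atTop_nhds_zero_of_lt_one (r := (2⁻¹ : ℝ)) (by norm_num) (by norm_num)
      simpa [inv_pow] using this
    have h3 : Tendsto (fun j : ℕ => x - ((2 : ℝ) ^ j)⁻¹ • z) atTop (𝓝 x) := by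
      simpa using (tendsto_const_nhds (x := x)).sub (h2.smul_const z)
    exact ((hfc.tendsto x).comp h3).const_smul _

end Pool.Agent.MP_f6d183_an
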