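import Mathlib

set_option autoImplicit false

/-!
# A discrete Young inequality for the kernel `2^{-|m-r|}`
-/

namespace Pool.Agent.MP_f6d183_an

open scoped ENNReal

/-- the weight `2^{-|r-m|}` -/
noncomputable def wt (r m : ℕ) : ℝ≥0∞ := (2⁻¹ : ℝ≥0∞) ^ ((r - m) + (m - r))

lemma wt_symm (r m : ℕ) : wt r m = wt m r := by
  unfold wt
  rw [add_comm]

lemma wt_le_one (r m : ℕ) : wt r m ≤ 1 := by
  unfold wt
  exact pow_le_one₀ (by simp) (by simp)

lemma tsum_wt_le (r : ℕ) : ∑' m, wt r m ≤ 4 := by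
  have h1 : ∀ m, wt r m ≤ (if r ≤ m then (2⁻¹ : ℝ≥0∞) ^ (m - r) else 0) +
      (if m < r then (2⁻¹ : ℝ≥0∞) ^ (r - m) else 0) := by
    intro m
    rcases le_or_gt r m with h | h
    · rw [if_pos h, if_neg (by omega)]
      unfold wt
      rw [Nat.sub_eq_zero_of_le h]
      simp
    · rw [if_neg (by omega), if_pos h]
      unfold wt
      rw [Nat.sub_eq_zero_of_le h.le]
      simp
  have h2 : ∑' m, (if r ≤ m then (2⁻¹ : ℝ≥0∞) ^ (m - r) else 0) = 2 := by
    have hinj : Function.Injective (fun k : ℕ => k + r) := fun a b h => by simpa using h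
    have hsupp : Function.support (fun m => if r ≤ m then (2⁻¹ : ℝ≥0∞) ^ (m - r) else 0) ⊆
        Set.range (fun k : ℕ => k + r) := by
      intro m hm
      rw [Function.mem_support] at hm
      by_cases h : r ≤ m
      · exact ⟨m - r, by simp; omega⟩
      · simp [h] at hm
    rw [← hinj.tsum_eq hsupp]
    simp only [le_add_iff_nonneg_left, zero_le, if_true, Nat.add_sub_cancel]
    rw [ENNReal.tsum_geometric]
    simp
  have h3 : ∑' m, (if m < r then (2⁻¹ : ℝ≥0∞) ^ (r - m) else 0) ≤ 2 := by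
    rw [tsum_eq_sum (s := Finset.range r)]
    · rw [← Finset.sum_range_reflect]
      calc ∑ j ∈ Finset.range r, (if r - 1 - j < r then (2⁻¹ : ℝ≥0∞) ^ (r - (r - 1 - j)) else 0)
          ≤ ∑ j ∈ Finset.range r, (2⁻¹ : ℝ≥0∞) ^ j := by
            apply Finset.sum_le_sum
            intro j hj
            rw [Finset.mem_range] at hj
            rw [if_pos (by omega)]
            exact pow_le_pow_of_le_one (by simp) (by simp) (by omega)
        _ ≤ ∑' j, (2⁻¹ : ℝ≥0∞) ^ j := ENNReal.sum_le_tsum _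
        _ = 2 := by rw [ENNReal.tsum_geometric]; simp
    · intro b hb
      simp at hb
      simp [hb]
  calc ∑' m, wt r m ≤ ∑' m, ((if r ≤ m then (2⁻¹ : ℝ≥0∞) ^ (m - r) else 0) +
      (if m < r then (2⁻¹ : ℝ≥0∞) ^ (r - m) else 0)) := ENNReal.tsum_le_tsum h1
    _ = _ := ENNReal.tsum_add
    _ ≤ 2 + 2 := add_le_add h2.le h3
    _ = 4 := by norm_num

lemma tsum_wt_mul_rpow_le {q : ℝ} (hq : 1 < q) (a : ℕ → ℝ≥0∞) (r : ℕ) :
    (∑' m, wt r m * a m) ^ q ≤ 4 ^ (q - 1) * ∑' m, wt r m * a m ^ q := by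
  have hq0 : 0 < q := by linarith
  have h1 : ∀ s : Finset ℕ, (∑ m ∈ s, wt r m * a m) ^ q ≤
      4 ^ (q - 1) * ∑' m, wt r m * a m ^ q := by
    intro s
    have h2 := ENNReal.inner_le_weight_mul_Lp_of_nonneg s hq.le (fun m => wt r m) a
    calc (∑ m ∈ s, wt r m * a m) ^ q
        ≤ ((∑ i ∈ s, wt r i) ^ (1 - q⁻¹) * (∑ i ∈ s, wt r i * a i ^ q) ^ q⁻¹) ^ q :=
          ENNReal.rpow_le_rpow h2 hq0.le
      _ = (∑ i ∈ s, wt r i) ^ (q - 1) * (∑ i ∈ s, wt r i * a i ^ q) := by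
          rw [ENNReal.mul_rpow_of_nonneg _ _ hq0.le, ← ENNReal.rpow_mul, ← ENNReal.rpow_mul]
          congr 1
          · congr 1
            field_simp
          · rw [inv_mul_cancel₀ hq0.ne', ENNReal.rpow_one]
      _ ≤ 4 ^ (q - 1) * ∑' m, wt r m * a m ^ q := by
          refine mul_le_mul' (ENNReal.rpow_le_rpow ?_ (by linarith)) (ENNReal.sum_le_tsum _)
          exact (ENNReal.sum_le_tsum _).trans (tsum_wt_le r)
  have h3 : (∑' m, wt r m * a m) = ⨆ s : Finset ℕ, ∑ m ∈ s, wt r m * a m :=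
    ENNReal.tsum_eq_iSup_sum
  rw [h3, (ENNReal.monotone_rpow_of_nonneg hq0.le).map_iSup_of_continuousAt
    ENNReal.continuous_rpow_const.continuousAt (by simp [hq0])]
  exact iSup_le h1

/-- discrete Young inequality -/
theorem young_wt {q : ℝ} (hq : 1 < q) (a : ℕ → ℝ≥0∞) :
    ∑' r, (∑' m, wt r m * a m) ^ q ≤ 4 ^ q * ∑' m, a m ^ q := by
  calc ∑' r, (∑' m, wt r m * a m) ^ q
      ≤ ∑' r, 4 ^ (q - 1) * ∑' m, wt r m * a m ^ q :=
        ENNReal.tsum_le_tsum (fun r => tsum_wt_mul_rpow_le hq a r)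
    _ = 4 ^ (q - 1) * ∑' r, ∑' m, wt r m * a m ^ q := ENNReal.tsum_mul_left
    _ = 4 ^ (q - 1) * ∑' m, ∑' r, wt r m * a m ^ q := by rw [ENNReal.tsum_comm]
    _ = 4 ^ (q - 1) * ∑' m, (∑' r, wt m r) * a m ^ q := by
        congr 1
        apply tsum_congr
        intro m
        rw [ENNReal.tsum_mul_right]
        congr 1
        exact tsum_congr (fun r => wt_symm r m)
    _ ≤ 4 ^ (q - 1) * ∑' m, 4 * a m ^ q := by
        gcongr with m
        exact tsum_wt_le m
    _ = 4 ^ (q - 1) * (4 * ∑' m, a m ^ q) := by rw [ENNReal.tsum_mul_left]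
    _ = 4 ^ q * ∑' m, a m ^ q := by
        rw [← mul_assoc]
        congr 1
        nth_rewrite 2 [← ENNReal.rpow_one 4]
        rw [← ENNReal.rpow_add _ _ (by norm_num) (by norm_num)]
        congr 1
        ring

end Pool.Agent.MP_f6d183_an
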