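import Mathlib
import Pool.Agent.MP_f6d183_an.Seq
import Pool.Agent.MP_f6d183_an.LowPass

set_option autoImplicit false

/-!
# Estimates for the Besov norm
-/

namespace Pool.Agent.MP_f6d183_an

open MeasureTheory Set Filter Topology
open scoped ENNReal FourierTransform ContDiff

variable {n : ℕ}

lemma block_zero (χ : LPCutoff n) (f : E n → E n) (x : E n) : block χ 0 f x = Sop χ 0 f x :=
  lowPass_eq χ 0 f x

lemma block_succ (χ : LPCutoff n) (j : ℕ) (f : E n → E n) (x : E n) :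
    block χ (j + 1) f x = Sop χ (j + 1) f x - Sop χ j f x := by
  show lowPass χ (j + 1) f x - lowPass χ j f x = _
  rw [lowPass_eq, lowPass_eq]

lemma sum_block (χ : LPCutoff n) (M : ℕ) (f : E n → E n) (x : E n) :
    ∑ m ∈ Finset.range (M + 1), block χ m f x = Sop χ M f x := by
  induction M with
  | zero => simp [block_zero]
  | succ M ih => rw [Finset.sum_range_succ, ih, block_succ]; abel

/-- weighted sup norm of a block -/
noncomputable def coeff (χ : LPCutoff n) (f : E n → E n) (m : ℕ) : ℝ≥0∞ :=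
  (2 : ℝ≥0∞) ^ ((m : ℤ) - 1) * ⨆ x, ‖block χ m f x‖ₑ

lemma besovNorm_eq (χ : LPCutoff n) (q : ℝ) (f : E n → E n) :
    besovNorm χ q f = (∑' m : ℕ, coeff χ f m ^ q) ^ (1 / q) := rfl

lemma besovNorm_rpow (χ : LPCutoff n) {q : ℝ} (hq : 0 < q) (f : E n → E n) :
    besovNorm χ q f ^ q = ∑' m : ℕ, coeff χ f m ^ q := by
  rw [besovNorm_eq, ← ENNReal.rpow_mul, one_div, inv_mul_cancel₀ hq.ne', ENNReal.rpow_one]

lemma coeff_le_besovNorm (χ : LPCutoff n) {q : ℝ} (hq : 0 < q) (f : E n → E n) (m : ℕ) :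
    coeff χ f m ≤ besovNorm χ q f := by
  rw [← ENNReal.rpow_le_rpow_iff hq, besovNorm_rpow χ hq]
  exact ENNReal.le_tsum m

lemma sup_block (χ : LPCutoff n) (f : E n → E n) (m : ℕ) :
    (⨆ x, ‖block χ m f x‖ₑ) = 2 * (2⁻¹ : ℝ≥0∞) ^ m * coeff χ f m := by
  unfold coeff
  rw [← mul_assoc]
  have h : 2 * (2⁻¹ : ℝ≥0∞) ^ m * (2 : ℝ≥0∞) ^ ((m : ℤ) - 1) = 1 := by
    rw [ENNReal.zpow_sub (by norm_num) (by norm_num), zpow_natCast, zpow_one]
    calc 2 * (2⁻¹ : ℝ≥0∞) ^ m * (2 ^ m * 2⁻¹) = (2 * 2⁻¹) * (2⁻¹ * 2) ^ m := by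
          rw [mul_pow]; ring
      _ = 1 := by
          rw [ENNReal.mul_inv_cancel (by norm_num) (by norm_num),
            ENNReal.inv_mul_cancel (by norm_num) (by norm_num), one_pow, one_mul]
  rw [h, one_mul]

lemma enorm_block_le (χ : LPCutoff n) (f : E n → E n) (m : ℕ) (x : E n) :
    ‖block χ m f x‖ₑ ≤ 2 * (2⁻¹ : ℝ≥0∞) ^ m * coeff χ f m := by
  rw [← sup_block]
  exact le_iSup (fun x => ‖block χ m f x‖ₑ) x

variable {f g : E n → E n} {C C' : ℝ}

lemma BC.block_BC (hf : BC f C) (χ : LPCutoff n) (m : ℕ) :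
    BC (block χ m f) (2 * (A0 χ * C)) := by
  have h0 : 0 ≤ A0 χ * C := mul_nonneg (A0_nonneg χ) hf.nonneg
  cases m with
  | zero =>
    have h : block χ 0 f = Sop χ 0 f := by
      ext1 x
      exact block_zero χ f x
    rw [h]
    exact (hf.Sop_BC χ 0).mono (by linarith)
  | succ j =>
    have h : block χ (j + 1) f = fun x => Sop χ (j + 1) f x - Sop χ j f x := by
      ext1 x
      exact block_succ χ j f x
    rw [h, two_mul]
    exact (hf.Sop_BC χ (j + 1)).sub (hf.Sop_BC χ j)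

lemma BC.sup_block_ne_top (hf : BC f C) (χ : LPCutoff n) (m : ℕ) :
    (⨆ x, ‖block χ m f x‖ₑ) ≠ ⊤ := by
  have h : (⨆ x, ‖block χ m f x‖ₑ) ≤ ENNReal.ofReal (2 * (A0 χ * C)) := by
    apply iSup_le
    intro x
    rw [← ofReal_norm]
    exact ENNReal.ofReal_le_ofReal ((hf.block_BC χ m).bound x)
  exact ne_top_of_le_ne_top ENNReal.ofReal_ne_top h

/-- real version of the sup norm of a block -/
noncomputable def bsup (χ : LPCutoff n) (f : E n → E n) (m : ℕ) : ℝ :=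
  (⨆ x, ‖block χ m f x‖ₑ).toReal

lemma BC.block_BC' (hf : BC f C) (χ : LPCutoff n) (m : ℕ) :
    BC (block χ m f) (bsup χ f m) := by
  refine ⟨(hf.block_BC χ m).cont, fun x => ?_⟩
  unfold bsup
  rw [← toReal_enorm]
  exact ENNReal.toReal_mono (hf.sup_block_ne_top χ m) (le_iSup (fun x => ‖block χ m f x‖ₑ) x)

lemma BC.ofReal_bsup (hf : BC f C) (χ : LPCutoff n) (m : ℕ) :
    ENNReal.ofReal (bsup χ f m) = 2 * (2⁻¹ : ℝ≥0∞) ^ m * coeff χ f m := by
  unfold bsup
  rw [ENNReal.ofReal_toReal (hf.sup_block_ne_top χ m), sup_block]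

/-- blocks are reproduced by sharper low-pass filters -/
lemma BC.Sop_block (hf : BC f C) (χ : LPCutoff n) {m₀ : ℕ}
    (hm₀ : ∀ m, m₀ ≤ m → ∀ ξ : E n, χ.toFun ξ ≠ 0 → χ.toFun (((2 : ℝ) ^ m)⁻¹ • ξ) = 1)
    (m : ℕ) (x : E n) : Sop χ (m + m₀) (block χ m f) x = block χ m f x := by
  cases m with
  | zero =>
    have h : block χ 0 f = Sop χ 0 f := by
      ext1 x
      exact block_zero χ f x
    rw [h]
    exact hf.Sop_Sop χ hm₀ (by omega) x
  | succ j =>
    have h : block χ (j + 1) f = fun x => Sop χ (j + 1) f x - Sop χ j f x := by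
      ext1 x
      exact block_succ χ j f x
    rw [h, Sop_sub (hf.Sop_BC χ (j + 1)) (hf.Sop_BC χ j), hf.Sop_Sop χ hm₀ (by omega),
      hf.Sop_Sop χ hm₀ (by omega)]

/-- a linear functional of the form of a finite difference is controlled by the blocks -/
lemma BC.enorm_le_tsum_block (hf : BC f C) (χ : LPCutoff n) (x : E n) :
    ‖f x‖ₑ ≤ ∑' m, ‖block χ m f x‖ₑ := by
  have h1 : Tendsto (fun M => ‖Sop χ M f x‖ₑ) atTop (𝓝 ‖f x‖ₑ) :=
    (continuous_enorm.tendsto _).comp (hf.tendsto_Sop χ x)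
  refine le_of_tendsto' h1 (fun M => ?_)
  rw [← sum_block]
  exact (enorm_sum_le _ _).trans (ENNReal.sum_le_tsum _)

lemma BC.enorm_diff_le_tsum (hf : BC f C) (χ : LPCutoff n) (x z : E n) :
    ‖f (x + z) - f x‖ₑ ≤ ∑' m, ‖block χ m f (x + z) - block χ m f x‖ₑ := by
  have h1 : Tendsto (fun M => ‖Sop χ M f (x + z) - Sop χ M f x‖ₑ) atTop
      (𝓝 ‖f (x + z) - f x‖ₑ) :=
    (continuous_enorm.tendsto _).comp ((hf.tendsto_Sop χ (x + z)).sub (hf.tendsto_Sop χ x))
  refine le_of_tendsto' h1 (fun M => ?_)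
  rw [← sum_block, ← sum_block, ← Finset.sum_sub_distrib]
  exact (enorm_sum_le _ _).trans (ENNReal.sum_le_tsum _)

lemma BC.enorm_diff2_le_tsum (hf : BC f C) (χ : LPCutoff n) (x z : E n) :
    ‖f (x + z) + f (x - z) - (2 : ℝ) • f x‖ₑ ≤
      ∑' m, ‖block χ m f (x + z) + block χ m f (x - z) - (2 : ℝ) • block χ m f x‖ₑ := by
  have h1 : Tendsto (fun M => ‖Sop χ M f (x + z) + Sop χ M f (x - z) - (2 : ℝ) • Sop χ M f x‖ₑ)
      atTop (𝓝 ‖f (x + z) + f (x - z) - (2 : ℝ) • f x‖ₑ) :=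
    (continuous_enorm.tendsto _).comp (((hf.tendsto_Sop χ (x + z)).add
      (hf.tendsto_Sop χ (x - z))).sub ((hf.tendsto_Sop χ x).const_smul 2))
  refine le_of_tendsto' h1 (fun M => ?_)
  rw [← sum_block, ← sum_block, ← sum_block, Finset.smul_sum, ← Finset.sum_add_distrib,
    ← Finset.sum_sub_distrib]
  exact (enorm_sum_le _ _).trans (ENNReal.sum_le_tsum _)

/-- `L^∞` bound -/
lemma BC.enorm_le_besovNorm (hf : BC f C) (χ : LPCutoff n) {q : ℝ} (hq : 0 < q) (x : E n) :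
    ‖f x‖ₑ ≤ 4 * besovNorm χ q f := by
  calc ‖f x‖ₑ ≤ ∑' m, ‖block χ m f x‖ₑ := hf.enorm_le_tsum_block χ x
    _ ≤ ∑' m, (2⁻¹ : ℝ≥0∞) ^ m * (2 * besovNorm χ q f) := by
        refine ENNReal.tsum_le_tsum (fun m => ?_)
        refine (enorm_block_le χ f m x).trans ?_
        rw [mul_comm (2 : ℝ≥0∞), mul_assoc]
        gcongr
        exact coeff_le_besovNorm χ hq f m
    _ = 2 * (2 * besovNorm χ q f) := by
        rw [ENNReal.tsum_mul_right, ENNReal.tsum_geometric]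
        congr 1
        simp
    _ = 4 * besovNorm χ q f := by
        rw [← mul_assoc]
        norm_num

/-- second differences at scale `2^{-r}` are controlled by the blocks near `r` -/
theorem exists_diff2_const (χ : LPCutoff n) : ∃ K : ℝ≥0∞, K ≠ ⊤ ∧ ∀ (f : E n → E n) (C : ℝ),
    BC f C → ∀ (r : ℕ) (x z : E n), ‖z‖ ≤ (2⁻¹ : ℝ) ^ r →
      2 ^ r * ‖f (x + z) + f (x - z) - (2 : ℝ) • f x‖ₑ ≤ K * ∑' m, wt r m * coeff χ f m := by
  obtain ⟨m₀, hm₀⟩ := exists_m0 χ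
  set L : ℝ := D2 χ * (2 ^ m₀) ^ 2 with hL
  have hL0 : 0 ≤ L := mul_nonneg (D2_nonneg χ) (by positivity)
  refine ⟨2 * ENNReal.ofReal (4 + L), by finiteness, ?_⟩
  intro f C hf r x z hz
  have hblock : ∀ m, ‖block χ m f (x + z) + block χ m f (x - z) - (2 : ℝ) • block χ m f x‖ₑ ≤
      ENNReal.ofReal (4 + L) * (min 1 (((2⁻¹ : ℝ≥0∞) ^ (r - m)) ^ 2) *
        (2 * (2⁻¹ : ℝ≥0∞) ^ m * coeff χ f m)) := by
    intro m
    rw [← hf.ofReal_bsup, ← ofReal_norm]
    have hB := hf.block_BC' χ m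
    have hb0 : 0 ≤ bsup χ f m := hB.nonneg
    -- two bounds
    have b1 : ‖block χ m f (x + z) + block χ m f (x - z) - (2 : ℝ) • block χ m f x‖ ≤
        4 * bsup χ f m := by
      calc _ ≤ ‖block χ m f (x + z)‖ + ‖block χ m f (x - z)‖ + ‖(2 : ℝ) • block χ m f x‖ :=
            (norm_sub_le _ _).trans (by gcongr; exact norm_add_le _ _)
        _ ≤ bsup χ f m + bsup χ f m + 2 * bsup χ f m := by
            rw [norm_smul, Real.norm_two]
            have h1 := hB.bound (x + z)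
            have h2 := hB.bound (x - z)
            have h3 := hB.bound x
            gcongr
        _ = 4 * bsup χ f m := by ring
    have b2 : ‖block χ m f (x + z) + block χ m f (x - z) - (2 : ℝ) • block χ m f x‖ ≤
        L * ((2⁻¹ : ℝ) ^ r * 2 ^ m) ^ 2 * bsup χ f m := by
      have h := hB.norm_Sop_diff2_le χ (m + m₀) x z
      rw [hf.Sop_block χ hm₀, hf.Sop_block χ hm₀, hf.Sop_block χ hm₀] at h
      refine h.trans ?_
      rw [hL]
      have : D2 χ * (2 ^ (m + m₀) * ‖z‖) ^ 2 = D2 χ * (2 ^ m₀) ^ 2 * (‖z‖ * 2 ^ m) ^ 2 := by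
        rw [pow_add]; ring
      rw [this]
      have hD := D2_nonneg χ
      gcongr
    rcases le_or_gt r m with hrm | hrm
    · rw [Nat.sub_eq_zero_of_le hrm]
      simp only [pow_zero, one_pow, min_self, one_mul]
      rw [← ENNReal.ofReal_mul (by positivity)]
      apply ENNReal.ofReal_le_ofReal
      refine b1.trans ?_
      gcongr
      linarith
    · have h1 : (2⁻¹ : ℝ) ^ r * 2 ^ m = (2⁻¹ : ℝ) ^ (r - m) := by
        have : r = (r - m) + m := by omega
        conv_lhs => rw [this, pow_add]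
        rw [mul_assoc, ← mul_pow]
        norm_num
      rw [h1] at b2
      have h2 : min 1 (((2⁻¹ : ℝ≥0∞) ^ (r - m)) ^ 2) = ENNReal.ofReal (((2⁻¹ : ℝ) ^ (r - m)) ^ 2) := by
        rw [min_eq_right]
        · rw [ENNReal.ofReal_pow (by positivity), ENNReal.ofReal_pow (by positivity),
            ENNReal.ofReal_inv_of_pos (by norm_num)]
          simp
        · exact pow_le_one₀ (by simp) (pow_le_one₀ (by simp) (by simp))
      rw [h2, ← ENNReal.ofReal_mul (by positivity), ← ENNReal.ofReal_mul (by positivity)]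
      apply ENNReal.ofReal_le_ofReal
      refine b2.trans ?_
      rw [mul_assoc]
      gcongr
      linarith
  calc 2 ^ r * ‖f (x + z) + f (x - z) - (2 : ℝ) • f x‖ₑ
      ≤ 2 ^ r * ∑' m, ENNReal.ofReal (4 + L) * (min 1 (((2⁻¹ : ℝ≥0∞) ^ (r - m)) ^ 2) *
        (2 * (2⁻¹ : ℝ≥0∞) ^ m * coeff χ f m)) := by
        gcongr
        exact (hf.enorm_diff2_le_tsum χ x z).trans (ENNReal.tsum_le_tsum hblock)
    _ = ∑' m, 2 ^ r * (ENNReal.ofReal (4 + L) * (min 1 (((2⁻¹ : ℝ≥0∞) ^ (r - m)) ^ 2) *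
        (2 * (2⁻¹ : ℝ≥0∞) ^ m * coeff χ f m))) := by rw [← ENNReal.tsum_mul_left]
    _ ≤ ∑' m, 2 * ENNReal.ofReal (4 + L) * (wt r m * coeff χ f m) := by
        refine ENNReal.tsum_le_tsum (fun m => ?_)
        have h3 : (2 : ℝ≥0∞) ^ r * (min 1 (((2⁻¹ : ℝ≥0∞) ^ (r - m)) ^ 2) * (2⁻¹ : ℝ≥0∞) ^ m) ≤
            wt r m := by
          unfold wt
          rcases le_or_gt r m with hrm | hrm
          · rw [Nat.sub_eq_zero_of_le hrm]
            simp only [pow_zero, one_pow, min_self, one_mul, zero_add]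
            have : m = r + (m - r) := by omega
            conv_lhs => rw [this, pow_add, ← mul_assoc, ← mul_pow,
              ENNReal.mul_inv_cancel (by norm_num) (by norm_num), one_pow, one_mul]
          · rw [Nat.sub_eq_zero_of_le hrm.le, add_zero]
            have : r = (r - m) + m := by omega
            calc (2 : ℝ≥0∞) ^ r * (min 1 (((2⁻¹ : ℝ≥0∞) ^ (r - m)) ^ 2) * (2⁻¹ : ℝ≥0∞) ^ m)
                ≤ (2 : ℝ≥0∞) ^ r * ((((2⁻¹ : ℝ≥0∞) ^ (r - m)) ^ 2) * (2⁻¹ : ℝ≥0∞) ^ m) := by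
                  gcongr
                  exact min_le_right _ _
              _ = ((2 : ℝ≥0∞) ^ (r - m) * (2⁻¹ : ℝ≥0∞) ^ (r - m)) *
                  ((2 : ℝ≥0∞) ^ m * (2⁻¹ : ℝ≥0∞) ^ m) * (2⁻¹ : ℝ≥0∞) ^ (r - m) := by
                  conv_lhs => rw [this, pow_add]
                  simp only [Nat.add_sub_cancel]
                  ring
              _ = (2⁻¹ : ℝ≥0∞) ^ (r - m) := by
                  rw [← mul_pow, ← mul_pow, ENNReal.mul_inv_cancel (by norm_num) (by norm_num)]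
                  simp
              _ ≤ _ := le_rfl
        calc 2 ^ r * (ENNReal.ofReal (4 + L) * (min 1 (((2⁻¹ : ℝ≥0∞) ^ (r - m)) ^ 2) *
              (2 * (2⁻¹ : ℝ≥0∞) ^ m * coeff χ f m)))
            = 2 * ENNReal.ofReal (4 + L) * (((2 : ℝ≥0∞) ^ r *
                (min 1 (((2⁻¹ : ℝ≥0∞) ^ (r - m)) ^ 2) * (2⁻¹ : ℝ≥0∞) ^ m)) * coeff χ f m) := by
              ring
          _ ≤ _ := by gcongr
    _ = 2 * ENNReal.ofReal (4 + L) * ∑' m, wt r m * coeff χ f m := ENNReal.tsum_mul_left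

end Pool.Agent.MP_f6d183_an
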