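import Mathlib
import Pool.Agent.MP_f6d183_an.Besov

set_option autoImplicit false

/-!
# Further estimates for the Besov norm
-/

namespace Pool.Agent.MP_f6d183_an

open MeasureTheory Set Filter Topology
open scoped ENNReal FourierTransform ContDiff

variable {n : ℕ} {f g : E n → E n} {C C' : ℝ}

/-! ### Hölder bound -/

theorem exists_holder_const (χ : LPCutoff n) : ∃ K : ℝ, 0 ≤ K ∧ ∀ (f : E n → E n) (C q : ℝ),
    BC f C → 0 < q → besovNorm χ q f < ⊤ → ∀ (x z : E n),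
      ‖f (x + z) - f x‖ ≤ K * (besovNorm χ q f).toReal * ‖z‖ ^ (3 / 4 : ℝ) := by
  obtain ⟨m₀, hm₀⟩ := exists_m0 χ
  set L : ℝ := D1 χ * 2 ^ m₀ with hL
  have hL0 : 0 ≤ L := mul_nonneg (D1_nonneg χ) (by positivity)
  set ρ : ℝ := (2⁻¹ : ℝ) * 2 ^ (3 / 4 : ℝ) with hρ
  have hρ0 : 0 ≤ ρ := by positivity
  have hρ1 : ρ < 1 := by
    have : (2 : ℝ) ^ (3 / 4 : ℝ) < 2 ^ (1 : ℝ) :=
      Real.rpow_lt_rpow_of_exponent_lt (by norm_num) (by norm_num)
    rw [Real.rpow_one] at this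
    rw [hρ]
    linarith
  refine ⟨(2 + L) * 2 * (1 - ρ)⁻¹, ?_, ?_⟩
  · have : 0 < 1 - ρ := by linarith
    positivity
  intro f C q hf hq hfin x z
  set A : ℝ := (besovNorm χ q f).toReal with hA
  have hA0 : 0 ≤ A := ENNReal.toReal_nonneg
  have hb : ∀ m, bsup χ f m ≤ 2 * (2⁻¹) ^ m * A := by
    intro m
    have h1 : ENNReal.ofReal (bsup χ f m) ≤ ENNReal.ofReal (2 * (2⁻¹) ^ m * A) := by
      rw [hf.ofReal_bsup, ENNReal.ofReal_mul (by positivity), ENNReal.ofReal_mul (by positivity),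
        ENNReal.ofReal_pow (by positivity), ENNReal.ofReal_inv_of_pos (by norm_num), hA,
        ENNReal.ofReal_toReal hfin.ne]
      simp only [ENNReal.ofReal_ofNat]
      gcongr
      exact coeff_le_besovNorm χ hq f m
    exact (ENNReal.ofReal_le_ofReal_iff (by positivity)).1 h1
  have hterm : ∀ m, ‖block χ m f (x + z) - block χ m f x‖ ≤
      ((2 + L) * 2 * A * ‖z‖ ^ (3 / 4 : ℝ)) * ρ ^ m := by
    intro m
    have hB := hf.block_BC' χ m
    have hb0 : 0 ≤ bsup χ f m := hB.nonneg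
    have b1 : ‖block χ m f (x + z) - block χ m f x‖ ≤ 2 * bsup χ f m := by
      calc _ ≤ ‖block χ m f (x + z)‖ + ‖block χ m f x‖ := norm_sub_le _ _
        _ ≤ bsup χ f m + bsup χ f m := add_le_add (hB.bound _) (hB.bound _)
        _ = _ := by ring
    have b2 : ‖block χ m f (x + z) - block χ m f x‖ ≤ L * (2 ^ m * ‖z‖) * bsup χ f m := by
      have h := hB.norm_Sop_diff_le χ (m + m₀) x z
      rw [hf.Sop_block χ hm₀, hf.Sop_block χ hm₀] at h
      refine h.trans (le_of_eq ?_)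
      rw [hL, pow_add]
      ring
    have b3 : ‖block χ m f (x + z) - block χ m f x‖ ≤
        (2 + L) * (2 ^ m * ‖z‖) ^ (3 / 4 : ℝ) * bsup χ f m := by
      set t : ℝ := 2 ^ m * ‖z‖ with ht
      have ht0 : 0 ≤ t := by positivity
      rcases le_or_gt 1 t with h1 | h1
      · have h2 : 1 ≤ t ^ (3 / 4 : ℝ) := Real.one_le_rpow h1 (by norm_num)
        refine b1.trans ?_
        gcongr
        nlinarith
      · have h2 : t ≤ t ^ (3 / 4 : ℝ) := by
          rcases ht0.eq_or_lt with h0 | h0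
          · rw [← h0, Real.zero_rpow (by norm_num)]
          · conv_lhs => rw [← Real.rpow_one t]
            exact Real.rpow_le_rpow_of_exponent_ge h0 h1.le (by norm_num)
        refine b2.trans ?_
        gcongr
        linarith
    refine b3.trans ?_
    calc (2 + L) * (2 ^ m * ‖z‖) ^ (3 / 4 : ℝ) * bsup χ f m
        ≤ (2 + L) * (2 ^ m * ‖z‖) ^ (3 / 4 : ℝ) * (2 * (2⁻¹) ^ m * A) := by
          gcongr
          exact hb m
      _ = ((2 + L) * 2 * A * ‖z‖ ^ (3 / 4 : ℝ)) * ρ ^ m := by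
          rw [Real.mul_rpow (by positivity) (norm_nonneg _), hρ, mul_pow]
          have : ((2 : ℝ) ^ m) ^ (3 / 4 : ℝ) = (2 ^ (3 / 4 : ℝ)) ^ m := by
            rw [← Real.rpow_natCast, ← Real.rpow_natCast, ← Real.rpow_mul (by norm_num),
              ← Real.rpow_mul (by norm_num), mul_comm]
          rw [this]
          ring
  have hsum : Summable (fun m : ℕ => ((2 + L) * 2 * A * ‖z‖ ^ (3 / 4 : ℝ)) * ρ ^ m) :=
    (summable_geometric_of_lt_one hρ0 hρ1).mul_left _
  have h1 : ‖f (x + z) - f x‖ₑ ≤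
      ENNReal.ofReal (∑' m : ℕ, ((2 + L) * 2 * A * ‖z‖ ^ (3 / 4 : ℝ)) * ρ ^ m) := by
    rw [ENNReal.ofReal_tsum_of_nonneg (fun m => by positivity) hsum]
    refine (hf.enorm_diff_le_tsum χ x z).trans (ENNReal.tsum_le_tsum (fun m => ?_))
    rw [← ofReal_norm]
    exact ENNReal.ofReal_le_ofReal (hterm m)
  rw [← ofReal_norm, ENNReal.ofReal_le_ofReal_iff (tsum_nonneg (fun m => by positivity)),
    tsum_mul_left, tsum_geometric_of_lt_one hρ0 hρ1] at h1
  refine h1.trans (le_of_eq ?_)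
  ring

/-! ### Triangle inequality -/

lemma block_add (hf : BC f C) (hg : BC g C') (χ : LPCutoff n) (m : ℕ) (x : E n) :
    block χ m (fun x => f x + g x) x = block χ m f x + block χ m g x := by
  cases m with
  | zero => rw [block_zero, block_zero, block_zero, Sop_add hf hg]
  | succ j => rw [block_succ, block_succ, block_succ, Sop_add hf hg, Sop_add hf hg]; abel

lemma coeff_add_le (hf : BC f C) (hg : BC g C') (χ : LPCutoff n) (m : ℕ) :
    coeff χ (fun x => f x + g x) m ≤ coeff χ f m + coeff χ g m := by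
  unfold coeff
  rw [← mul_add]
  gcongr
  apply iSup_le
  intro x
  rw [block_add hf hg]
  refine (enorm_add_le _ _).trans ?_
  exact add_le_add (le_iSup (fun x => ‖block χ m f x‖ₑ) x) (le_iSup (fun x => ‖block χ m g x‖ₑ) x)

lemma besovNorm_add_le (hf : BC f C) (hg : BC g C') (χ : LPCutoff n) {q : ℝ} (hq : 1 ≤ q) :
    besovNorm χ q (fun x => f x + g x) ≤ besovNorm χ q f + besovNorm χ q g := by
  have hq0 : 0 < q := by linarith
  rw [besovNorm_eq]
  have h1 : ∀ s : Finset ℕ, (∑ m ∈ s, coeff χ (fun x => f x + g x) m ^ q) ^ (1 / q) ≤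
      besovNorm χ q f + besovNorm χ q g := by
    intro s
    calc (∑ m ∈ s, coeff χ (fun x => f x + g x) m ^ q) ^ (1 / q)
        ≤ (∑ m ∈ s, (coeff χ f m + coeff χ g m) ^ q) ^ (1 / q) := by
          gcongr with m hm
          exact coeff_add_le hf hg χ m
      _ ≤ (∑ m ∈ s, coeff χ f m ^ q) ^ (1 / q) + (∑ m ∈ s, coeff χ g m ^ q) ^ (1 / q) :=
          ENNReal.Lp_add_le s _ _ hq
      _ ≤ _ := by
          rw [besovNorm_eq, besovNorm_eq]
          gcongr
          · exact ENNReal.sum_le_tsum _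
          · exact ENNReal.sum_le_tsum _
  rw [ENNReal.tsum_eq_iSup_sum, (ENNReal.monotone_rpow_of_nonneg (by positivity :
    0 ≤ 1 / q)).map_iSup_of_continuousAt ENNReal.continuous_rpow_const.continuousAt
    (by simp [hq0])]
  exact iSup_le h1

/-! ### Upper bounds from second differences -/

lemma BC.Sop_sub_self (hf : BC f C) (χ : LPCutoff n) (j : ℕ) (x : E n) :
    (2 : ℝ) • (Sop χ j f x - f x) = ∫ z, kernel χ z •
      (f (x + ((2 : ℝ) ^ j)⁻¹ • z) + f (x - ((2 : ℝ) ^ j)⁻¹ • z) - (2 : ℝ) • f x) := by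
  set d : ℝ := ((2 : ℝ) ^ j)⁻¹ with hd
  have hk := kernel_integrable χ
  have i1 : Integrable (fun z => kernel χ z • f (x - d • z)) := hf.integrable_smul hk x d
  have i2 : Integrable (fun z => kernel χ z • f (x + d • z)) := by
    have := hf.integrable_smul hk x (-d)
    simpa [sub_eq_add_neg] using this
  have e2 : ∫ z, kernel χ z • f (x + d • z) = ∫ z, kernel χ z • f (x - d • z) := by
    rw [← integral_neg_eq_self]
    congr 1
    ext1 z
    rw [kernel_even, smul_neg, ← sub_eq_add_neg]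
  have i3 : Integrable (fun z => kernel χ z • (2 : ℝ) • f x) := hk.smul_const _
  have i21 : Integrable (fun z => kernel χ z • f (x + d • z) + kernel χ z • f (x - d • z)) :=
    i2.add i1
  have h1 : (fun z => kernel χ z • (f (x + d • z) + f (x - d • z) - (2 : ℝ) • f x)) =
      (fun z => kernel χ z • f (x + d • z) + kernel χ z • f (x - d • z) -
        kernel χ z • (2 : ℝ) • f x) := by
    ext1 z
    rw [smul_sub, smul_add]
  rw [h1, integral_sub i21 i3, integral_add i2 i1, e2, integral_smul_const,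
    integral_kernel, one_smul, smul_sub, two_smul]
  rfl

/-- quantitative second-difference bounds with a sequence `c` -/
structure Lac (f : E n → E n) (c : ℕ → ℝ≥0∞) : Prop where
  sup : ∀ x, ‖f x‖ₑ ≤ ∑' k, c k * (2⁻¹ : ℝ≥0∞) ^ k
  diff2 : ∀ x w, ‖f (x + w) + f (x - w) - (2 : ℝ) • f x‖ₑ ≤
    ∑' k, c k * ((2⁻¹ : ℝ≥0∞) ^ k * min 4 (4 ^ k * ‖w‖ₑ ^ 2))

theorem exists_lac_const (χ : LPCutoff n) : ∃ K : ℝ≥0∞, K ≠ ⊤ ∧ ∀ (f : E n → E n) (C : ℝ)
    (c : ℕ → ℝ≥0∞), BC f C → Lac f c → ∀ m, coeff χ f m ≤ K * ∑' k, wt m k * c k := by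
  set a0 : ℝ≥0∞ := ∫⁻ x, ‖kernel χ x‖ₑ with ha0
  set a2 : ℝ≥0∞ := ∫⁻ x, ‖x‖ₑ ^ 2 * ‖kernel χ x‖ₑ with ha2
  have h0 : a0 ≠ ⊤ := (kernel_lintegral_lt_top χ).ne
  have h2 : a2 ≠ ⊤ := (kernel_moment_lt_top χ).ne
  refine ⟨2 * (4 * a0 + a2), by finiteness, ?_⟩
  intro f C c hf hc m
  -- error of the low-pass filter
  have herr : ∀ j x, ‖Sop χ j f x - f x‖ₑ ≤
      2⁻¹ * ((4 * a0 + a2) * ∑' k, c k * ((2⁻¹ : ℝ≥0∞) ^ k * ((2⁻¹ : ℝ≥0∞) ^ (j - k)) ^ 2)) := by
    intro j x
    have h3 := hf.Sop_sub_self χ j x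
    have h4 : ‖Sop χ j f x - f x‖ₑ = 2⁻¹ * ‖(2 : ℝ) • (Sop χ j f x - f x)‖ₑ := by
      rw [enorm_smul, ← mul_assoc]
      have : ‖(2 : ℝ)‖ₑ = 2 := by
        rw [← ofReal_norm, Real.norm_two]; simp
      rw [this, ENNReal.inv_mul_cancel (by norm_num) (by norm_num), one_mul]
    rw [h4, h3]
    gcongr
    refine (enorm_integral_le_lintegral_enorm _).trans ?_
    have hd : ‖(((2 : ℝ) ^ j)⁻¹)‖ₑ = (2⁻¹ : ℝ≥0∞) ^ j := by
      rw [← ofReal_norm, norm_inv, norm_pow, Real.norm_two, ENNReal.ofReal_inv_of_pos (by positivity),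
        ENNReal.ofReal_pow (by norm_num), ENNReal.inv_pow]
      simp
    calc ∫⁻ z, ‖kernel χ z • (f (x + ((2 : ℝ) ^ j)⁻¹ • z) + f (x - ((2 : ℝ) ^ j)⁻¹ • z) -
          (2 : ℝ) • f x)‖ₑ
        ≤ ∫⁻ z, ∑' k, c k * ((2⁻¹ : ℝ≥0∞) ^ k * (min 4 (4 ^ k * (4⁻¹ : ℝ≥0∞) ^ j * ‖z‖ₑ ^ 2) *
            ‖kernel χ z‖ₑ)) := by
          apply lintegral_mono
          intro z
          simp only
          rw [enorm_smul]
          calc ‖kernel χ z‖ₑ * ‖f (x + ((2 : ℝ) ^ j)⁻¹ • z) + f (x - ((2 : ℝ) ^ j)⁻¹ • z) -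
              (2 : ℝ) • f x‖ₑ
              ≤ ‖kernel χ z‖ₑ * ∑' k, c k * ((2⁻¹ : ℝ≥0∞) ^ k *
                  min 4 (4 ^ k * ‖((2 : ℝ) ^ j)⁻¹ • z‖ₑ ^ 2)) := by
                gcongr
                exact hc.diff2 _ _
            _ = ∑' k, c k * ((2⁻¹ : ℝ≥0∞) ^ k * (min 4 (4 ^ k * (4⁻¹ : ℝ≥0∞) ^ j * ‖z‖ₑ ^ 2) *
                ‖kernel χ z‖ₑ)) := by
                rw [← ENNReal.tsum_mul_left]
                apply tsum_congr
                intro k
                rw [enorm_smul, hd]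
                have : (4 : ℝ≥0∞) ^ k * ((2⁻¹ : ℝ≥0∞) ^ j * ‖z‖ₑ) ^ 2 =
                    4 ^ k * (4⁻¹ : ℝ≥0∞) ^ j * ‖z‖ₑ ^ 2 := by
                  rw [mul_pow, ← pow_mul, mul_comm j 2, pow_mul, mul_assoc]
                  congr 3
                  rw [← ENNReal.inv_pow]
                  norm_num
                rw [this]
                ring
      _ = ∑' k, ∫⁻ z, c k * ((2⁻¹ : ℝ≥0∞) ^ k * (min 4 (4 ^ k * (4⁻¹ : ℝ≥0∞) ^ j * ‖z‖ₑ ^ 2) *
            ‖kernel χ z‖ₑ)) := by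
          rw [lintegral_tsum]
          intro k
          have hk := kernel_continuous χ
          have hm : Measurable (fun z : E n => ‖kernel χ z‖ₑ) := hk.enorm.measurable
          have hm2 : Measurable (fun z : E n => ‖z‖ₑ) := continuous_enorm.measurable
          fun_prop
      _ ≤ ∑' k, c k * ((2⁻¹ : ℝ≥0∞) ^ k * ((4 * a0 + a2) * ((2⁻¹ : ℝ≥0∞) ^ (j - k)) ^ 2)) := by
          refine ENNReal.tsum_le_tsum (fun k => ?_)
          rw [lintegral_const_mul _ (by
            have hk := kernel_continuous χ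
            have hm : Measurable (fun z : E n => ‖kernel χ z‖ₑ) := hk.enorm.measurable
            have hm2 : Measurable (fun z : E n => ‖z‖ₑ) := continuous_enorm.measurable
            fun_prop), lintegral_const_mul _ (by
            have hk := kernel_continuous χ
            have hm : Measurable (fun z : E n => ‖kernel χ z‖ₑ) := hk.enorm.measurable
            have hm2 : Measurable (fun z : E n => ‖z‖ₑ) := continuous_enorm.measurable
            fun_prop)]
          gcongr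
          rcases le_or_gt j k with hjk | hjk
          · rw [Nat.sub_eq_zero_of_le hjk]
            simp only [pow_zero, one_pow, mul_one]
            calc ∫⁻ z, min 4 (4 ^ k * (4⁻¹ : ℝ≥0∞) ^ j * ‖z‖ₑ ^ 2) * ‖kernel χ z‖ₑ
                ≤ ∫⁻ z, 4 * ‖kernel χ z‖ₑ := by
                  apply lintegral_mono
                  intro z
                  simp only
                  gcongr
                  exact min_le_left _ _
              _ = 4 * a0 := by rw [lintegral_const_mul' _ _ (by norm_num)]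
              _ ≤ _ := le_self_add
          · have h5 : (4 : ℝ≥0∞) ^ k * (4⁻¹ : ℝ≥0∞) ^ j = ((2⁻¹ : ℝ≥0∞) ^ (j - k)) ^ 2 := by
              have : j = k + (j - k) := by omega
              have h22 : (4⁻¹ : ℝ≥0∞) = 2⁻¹ ^ 2 := by
                rw [← ENNReal.inv_pow]
                norm_num
              conv_lhs => rw [this, pow_add, ← mul_assoc, ← mul_pow,
                ENNReal.mul_inv_cancel (by norm_num) (by norm_num), one_pow, one_mul]
              rw [← pow_mul, mul_comm (j - k) 2, pow_mul, h22]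
            calc ∫⁻ z, min 4 (4 ^ k * (4⁻¹ : ℝ≥0∞) ^ j * ‖z‖ₑ ^ 2) * ‖kernel χ z‖ₑ
                ≤ ∫⁻ z, (4 ^ k * (4⁻¹ : ℝ≥0∞) ^ j) * (‖z‖ₑ ^ 2 * ‖kernel χ z‖ₑ) := by
                  apply lintegral_mono
                  intro z
                  simp only
                  rw [← mul_assoc]
                  gcongr
                  exact min_le_right _ _
              _ = (4 ^ k * (4⁻¹ : ℝ≥0∞) ^ j) * a2 := by
                  rw [lintegral_const_mul' _ _ (by finiteness)]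
              _ = a2 * ((2⁻¹ : ℝ≥0∞) ^ (j - k)) ^ 2 := by rw [h5, mul_comm]
              _ ≤ _ := by gcongr; exact le_add_self
      _ = (4 * a0 + a2) * ∑' k, c k * ((2⁻¹ : ℝ≥0∞) ^ k * ((2⁻¹ : ℝ≥0∞) ^ (j - k)) ^ 2) := by
          rw [← ENNReal.tsum_mul_left]
          apply tsum_congr
          intro k
          ring
  cases m with
  | zero =>
    have h5 : ∀ x, ‖block χ 0 f x‖ₑ ≤ a0 * ∑' k, c k * (2⁻¹ : ℝ≥0∞) ^ k := by
      intro x
      rw [block_zero, Sop]
      refine (enorm_integral_le_lintegral_enorm _).trans ?_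
      calc ∫⁻ z, ‖kernel χ z • f (x - ((2 : ℝ) ^ 0)⁻¹ • z)‖ₑ
          ≤ ∫⁻ z, ‖kernel χ z‖ₑ * ∑' k, c k * (2⁻¹ : ℝ≥0∞) ^ k := by
            apply lintegral_mono
            intro z
            simp only
            rw [enorm_smul]
            gcongr
            exact hc.sup _
        _ = _ := by
            rw [lintegral_mul_const _ (kernel_continuous χ).enorm.measurable]
    unfold coeff
    calc (2 : ℝ≥0∞) ^ (((0 : ℕ) : ℤ) - 1) * ⨆ x, ‖block χ 0 f x‖ₑ
        ≤ 1 * (a0 * ∑' k, c k * (2⁻¹ : ℝ≥0∞) ^ k) := by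
          gcongr
          · simp [zpow_neg_one]
          · exact iSup_le h5
      _ = a0 * ∑' k, wt 0 k * c k := by
          rw [one_mul]
          congr 1
          apply tsum_congr
          intro k
          unfold wt
          simp [mul_comm]
      _ ≤ 2 * (4 * a0 + a2) * ∑' k, wt 0 k * c k := by
          gcongr
          calc a0 ≤ 2 * (4 * a0) := by
                rw [← mul_assoc]
                exact le_mul_of_one_le_left (by simp) (by norm_num)
            _ ≤ _ := by gcongr; exact le_self_add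
  | succ j =>
    have h6 : ∀ x, ‖block χ (j + 1) f x‖ₑ ≤
        (4 * a0 + a2) * ∑' k, c k * ((2⁻¹ : ℝ≥0∞) ^ k * ((2⁻¹ : ℝ≥0∞) ^ (j - k)) ^ 2) := by
      intro x
      have h7 : block χ (j + 1) f x = (Sop χ (j + 1) f x - f x) - (Sop χ j f x - f x) := by
        rw [block_succ]; abel
      rw [h7]
      refine (enorm_sub_le).trans ?_
      have h8 : (∑' k, c k * ((2⁻¹ : ℝ≥0∞) ^ k * ((2⁻¹ : ℝ≥0∞) ^ (j + 1 - k)) ^ 2)) ≤
          ∑' k, c k * ((2⁻¹ : ℝ≥0∞) ^ k * ((2⁻¹ : ℝ≥0∞) ^ (j - k)) ^ 2) := by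
        refine ENNReal.tsum_le_tsum (fun k => ?_)
        have h9 : (2⁻¹ : ℝ≥0∞) ^ (j + 1 - k) ≤ (2⁻¹ : ℝ≥0∞) ^ (j - k) :=
          pow_le_pow_of_le_one (by simp) (by simp) (by omega)
        exact mul_le_mul' le_rfl (mul_le_mul' le_rfl (pow_le_pow_left' h9 2))
      calc ‖Sop χ (j + 1) f x - f x‖ₑ + ‖Sop χ j f x - f x‖ₑ
          ≤ 2⁻¹ * ((4 * a0 + a2) * ∑' k, c k * ((2⁻¹ : ℝ≥0∞) ^ k *
              ((2⁻¹ : ℝ≥0∞) ^ (j - k)) ^ 2)) + 2⁻¹ * ((4 * a0 + a2) *
              ∑' k, c k * ((2⁻¹ : ℝ≥0∞) ^ k * ((2⁻¹ : ℝ≥0∞) ^ (j - k)) ^ 2)) := by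
            gcongr
            · exact (herr (j + 1) x).trans (by gcongr)
            · exact herr j x
        _ = _ := by
            rw [← add_mul, ENNReal.inv_two_add_inv_two, one_mul]
    unfold coeff
    have hz : (2 : ℝ≥0∞) ^ (((j + 1 : ℕ) : ℤ) - 1) = 2 ^ j := by
      push_cast
      rw [add_sub_cancel_right, zpow_natCast]
    rw [hz]
    calc (2 : ℝ≥0∞) ^ j * ⨆ x, ‖block χ (j + 1) f x‖ₑ
        ≤ 2 ^ j * ((4 * a0 + a2) *
            ∑' k, c k * ((2⁻¹ : ℝ≥0∞) ^ k * ((2⁻¹ : ℝ≥0∞) ^ (j - k)) ^ 2)) := by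
          gcongr
          exact iSup_le h6
      _ = (4 * a0 + a2) * ∑' k, c k * (2 ^ j * ((2⁻¹ : ℝ≥0∞) ^ k *
            ((2⁻¹ : ℝ≥0∞) ^ (j - k)) ^ 2)) := by
          rw [← ENNReal.tsum_mul_left, ← ENNReal.tsum_mul_left, ← ENNReal.tsum_mul_left]
          apply tsum_congr
          intro k
          ring
      _ ≤ (4 * a0 + a2) * ∑' k, 2 * (wt (j + 1) k * c k) := by
          refine mul_le_mul' le_rfl (ENNReal.tsum_le_tsum (fun k => ?_))
          have h9 : (2 : ℝ≥0∞) ^ j * ((2⁻¹ : ℝ≥0∞) ^ k * ((2⁻¹ : ℝ≥0∞) ^ (j - k)) ^ 2) ≤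
              2 * wt (j + 1) k := by
            unfold wt
            rcases le_or_gt k j with hkj | hkj
            · rw [Nat.sub_eq_zero_of_le (by omega : k ≤ j + 1), add_zero]
              have e1 : j = (j - k) + k := by omega
              have e2 : j + 1 - k = (j - k) + 1 := by omega
              rw [e2]
              calc (2 : ℝ≥0∞) ^ j * ((2⁻¹ : ℝ≥0∞) ^ k * ((2⁻¹ : ℝ≥0∞) ^ (j - k)) ^ 2)
                  = ((2 : ℝ≥0∞) ^ (j - k) * (2⁻¹ : ℝ≥0∞) ^ (j - k)) *
                    ((2 : ℝ≥0∞) ^ k * (2⁻¹ : ℝ≥0∞) ^ k) * (2⁻¹ : ℝ≥0∞) ^ (j - k) := by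
                    conv_lhs => rw [e1, pow_add]
                    simp only [Nat.add_sub_cancel]
                    ring
                _ = (2⁻¹ : ℝ≥0∞) ^ (j - k) := by
                    rw [← mul_pow, ← mul_pow, ENNReal.mul_inv_cancel (by norm_num) (by norm_num)]
                    simp
                _ = 2 * (2⁻¹ : ℝ≥0∞) ^ (j - k + 1) := by
                    rw [pow_succ, mul_comm ((2⁻¹ : ℝ≥0∞) ^ (j - k)), ← mul_assoc,
                      ENNReal.mul_inv_cancel (by norm_num) (by norm_num), one_mul]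
                _ ≤ _ := le_rfl
            · rw [Nat.sub_eq_zero_of_le (by omega : j ≤ k),
                Nat.sub_eq_zero_of_le (by omega : j + 1 ≤ k), zero_add]
              simp only [pow_zero, one_pow, mul_one]
              have e1 : k = j + (k - j) := by omega
              calc (2 : ℝ≥0∞) ^ j * (2⁻¹ : ℝ≥0∞) ^ k = (2⁻¹ : ℝ≥0∞) ^ (k - j) := by
                    conv_lhs => rw [e1, pow_add, ← mul_assoc, ← mul_pow,
                      ENNReal.mul_inv_cancel (by norm_num) (by norm_num), one_pow, one_mul]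
                _ ≤ 1 * (2⁻¹ : ℝ≥0∞) ^ (k - (j + 1)) := by
                    rw [one_mul]
                    exact pow_le_pow_of_le_one (by simp) (by simp) (by omega)
                _ ≤ 2 * (2⁻¹ : ℝ≥0∞) ^ (k - (j + 1)) := by gcongr; norm_num
          calc c k * (2 ^ j * ((2⁻¹ : ℝ≥0∞) ^ k * ((2⁻¹ : ℝ≥0∞) ^ (j - k)) ^ 2))
              ≤ c k * (2 * wt (j + 1) k) := by gcongr
            _ = 2 * (wt (j + 1) k * c k) := by ring
      _ = 2 * (4 * a0 + a2) * ∑' k, wt (j + 1) k * c k := by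
          rw [ENNReal.tsum_mul_left]
          ring

/-- Besov norm bound for lacunary functions -/
theorem exists_lac_norm_const (χ : LPCutoff n) {q : ℝ} (hq : 1 < q) :
    ∃ K : ℝ≥0∞, K ≠ ⊤ ∧ ∀ (f : E n → E n) (C : ℝ) (c : ℕ → ℝ≥0∞), BC f C → Lac f c →
      besovNorm χ q f ≤ K * (∑' k, c k ^ q) ^ (1 / q) := by
  obtain ⟨K, hK, h⟩ := exists_lac_const χ
  have hq0 : 0 < q := by linarith
  refine ⟨K * 4, by finiteness, ?_⟩
  intro f C c hf hc
  rw [besovNorm_eq]
  calc (∑' m, coeff χ f m ^ q) ^ (1 / q)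
      ≤ (∑' m, (K * ∑' k, wt m k * c k) ^ q) ^ (1 / q) := by
        gcongr with m
        exact h f C c hf hc m
    _ = (K ^ q * ∑' m, (∑' k, wt m k * c k) ^ q) ^ (1 / q) := by
        rw [← ENNReal.tsum_mul_left]
        congr 1
        apply tsum_congr
        intro m
        rw [ENNReal.mul_rpow_of_nonneg _ _ hq0.le]
    _ ≤ (K ^ q * (4 ^ q * ∑' m, c m ^ q)) ^ (1 / q) := by
        gcongr
        exact young_wt hq c
    _ = K * 4 * (∑' k, c k ^ q) ^ (1 / q) := by
        rw [ENNReal.mul_rpow_of_nonneg _ _ (by positivity), ENNReal.mul_rpow_of_nonneg _ _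
          (by positivity), ← ENNReal.rpow_mul, ← ENNReal.rpow_mul, mul_one_div_cancel hq0.ne',
          ENNReal.rpow_one, ENNReal.rpow_one, mul_assoc]

end Pool.Agent.MP_f6d183_an
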