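import Mathlib
import Pool.Agent.MP_f6d183_an.ApproxFlow

set_option autoImplicit false

/-!
# Lower bound for second differences of the approximate solution
-/

namespace Pool.Agent.MP_f6d183_an

open MeasureTheory Set Filter Topology
open scoped ENNReal ContDiff RealInnerProductSpace

variable {f f1 f2 f3 : ℝ → ℝ} {C : ℝ}

/-- global Lipschitz bound from a derivative bound -/
lemma lip_of_deriv {g g' : ℝ → ℝ} {L : ℝ} (hg : ∀ y, HasDerivAt g (g' y) y) (hL : ∀ y, |g' y| ≤ L)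
    (x y : ℝ) : |g y - g x| ≤ L * |y - x| := by
  have := Convex.norm_image_sub_le_of_norm_hasDerivWithin_le (f := g) (f' := g') (C := L)
    (s := univ) (x := x) (y := y) (fun z _ => (hg z).hasDerivWithinAt) (fun z _ => hL z)
    convex_univ (mem_univ _) (mem_univ _)
  simpa using this

lemma taylor2 (hf : Prof f f1 f2 f3 C) (y h : ℝ) : |f (y + h) - f y - h * f1 y| ≤ C * h ^ 2 := by
  have hd : ∀ z ∈ Metric.closedBall (0 : ℝ) |h|, HasDerivWithinAt (fun z => f (y + z) - z * f1 y)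
      (f1 (y + z) - 1 * f1 y) (Metric.closedBall (0 : ℝ) |h|) z := by
    intro z _
    have h1 : HasDerivAt (fun z => f (y + z)) (f1 (y + z)) z := by
      have := (hf.d1 (y + z)).comp_const_add y z
      exact this
    exact (h1.sub ((hasDerivAt_id z).mul_const (f1 y))).hasDerivWithinAt
  have hb : ∀ z ∈ Metric.closedBall (0 : ℝ) |h|, ‖f1 (y + z) - 1 * f1 y‖ ≤ C * |h| := by
    intro z hz
    rw [mem_closedBall_zero_iff, Real.norm_eq_abs] at hz
    rw [one_mul, Real.norm_eq_abs]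
    have h1 := lip_of_deriv hf.d2 hf.b2 y (y + z)
    rw [add_sub_cancel_left] at h1
    have hC : 0 ≤ C := (abs_nonneg _).trans (hf.b0 0)
    exact h1.trans (by gcongr)
  have := Convex.norm_image_sub_le_of_norm_hasDerivWithin_le (x := (0 : ℝ)) (y := h) hd hb
    (convex_closedBall _ _) (by simp) (by simp)
  simp only [Real.norm_eq_abs, add_zero, zero_mul, sub_zero] at this
  calc |f (y + h) - f y - h * f1 y| = |f (y + h) - h * f1 y - f y| := by congr 1; ring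
    _ ≤ C * |h| * |h| := this
    _ = C * h ^ 2 := by rw [mul_assoc, ← sq, sq_abs]

lemma abs_sin_add_sub_le (a e : ℝ) : |Real.sin (a + e) - Real.sin a| ≤ |e| := by
  have := lip_of_deriv Real.hasDerivAt_sin (fun y => Real.abs_cos_le_one y) a (a + e)
  simpa using this

/-- the trigonometric lower bound -/
lemma one_sub_cos_lower {β : ℝ} (h1 : 3 / 4 ≤ β) (h2 : β ≤ 5 / 4) :
    (9 : ℝ) / 20 ≤ 2 * (1 - Real.cos β) := by
  have e1 : Real.cos β = 1 - 2 * Real.sin (β / 2) ^ 2 := by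
    have := Real.cos_two_mul (β / 2)
    have h3 := Real.sin_sq_add_cos_sq (β / 2)
    rw [show 2 * (β / 2) = β by ring] at this
    linarith
  have e2 : β / 2 - (β / 2) ^ 3 / 6 < Real.sin (β / 2) :=
    Real.sin_gt_sub_cube (by linarith)
  have e3 : (27 : ℝ) / 80 ≤ β / 2 - (β / 2) ^ 3 / 6 := by
    nlinarith [mul_nonneg (by linarith : (0 : ℝ) ≤ β - 3 / 4) (by linarith : (0 : ℝ) ≤ 5 / 4 - β),
      sq_nonneg β]
  have e4 : (27 : ℝ) / 80 ≤ Real.sin (β / 2) := by linarith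
  rw [e1]
  nlinarith

/-- the amplitude lower bound -/
lemma amp_lower {T p σ : ℝ} (hσ : 0 < σ) (hσ1 : σ ≤ 1) (h1 : 3 / 4 ≤ T * p * σ)
    (h2 : T * p * σ ≤ 5 / 4) : (12 : ℝ) / 25 * σ ≤ T * p * Bq T p := by
  set β := T * p * σ with hβ
  have e1 : T * p = β / σ := by rw [hβ]; field_simp
  have e2 : Bq T p = σ ^ 2 / (σ ^ 2 + β ^ 2) := by
    unfold Bq
    have : T ^ 2 * p ^ 2 = (β / σ) ^ 2 := by rw [← e1]; ring
    rw [this]
    field_simp
  rw [e2, e1]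
  have h3 : 0 < σ ^ 2 + β ^ 2 := by positivity
  have e3 : β / σ * (σ ^ 2 / (σ ^ 2 + β ^ 2)) = β * σ / (σ ^ 2 + β ^ 2) := by field_simp
  rw [e3, le_div_iff₀ h3]
  have h4 : σ ^ 2 ≤ 1 := by nlinarith
  have h5 : (12 : ℝ) / 25 * (σ ^ 2 + β ^ 2) ≤ β := by nlinarith
  nlinarith

/-- the perturbation of the first component -/
noncomputable def Apt (f f1 f2 : ℝ → ℝ) (δ ν T X Y : ℝ) : ℝ :=
  U0 f f1 f2 δ ν T X Y - f Y

theorem diff2_lower (hf : Prof f f1 f2 f3 C) {δ T : ℝ} (hδ : 0 < δ) (hT : 0 ≤ T) :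
    ∃ K : ℝ, 0 ≤ K ∧ ∀ ν σ X Y : ℝ, 0 < ν → ν ≤ 1 → 0 < σ → σ ≤ 1 →
      3 / 4 ≤ T * f1 Y * σ → T * f1 Y * σ ≤ 5 / 4 →
      1 / 5 * (δ * ν * σ) * |Real.sin (ν⁻¹ * (X - T * f Y))| - K * ν ^ 2 ≤
        |Apt f f1 f2 δ ν T X (Y + ν * σ) + Apt f f1 f2 δ ν T X (Y - ν * σ) -
          2 * Apt f f1 f2 δ ν T X Y| := by
  obtain ⟨-, -, -, -, -, -, -, -, -, ⟨C₁, hC₁⟩⟩ := all_BF hf δ T
  have hC : 0 ≤ C := (abs_nonneg _).trans (hf.b0 0)
  have hBY : ∀ Y, |BY T (f1 Y) (f2 Y)| ≤ |C₁| := fun Y =>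
    (hC₁ ⟨1, T, 0, Y, by norm_num, le_rfl, hT, le_rfl⟩).trans (le_abs_self _)
  -- the amplitude
  set α : ℝ → ℝ := fun Y => T * f1 Y * Bq T (f1 Y) with hα
  have hαd : ∀ Y, HasDerivAt α (T * f2 Y * Bq T (f1 Y) + T * f1 Y * BY T (f1 Y) (f2 Y)) Y :=
    fun Y => ((hf.d2 Y).const_mul T).mul (Bq_deriv_y hf T Y)
  set Lα : ℝ := T * C * 1 + T * C * |C₁| with hLα
  have hαL : ∀ Y, |T * f2 Y * Bq T (f1 Y) + T * f1 Y * BY T (f1 Y) (f2 Y)| ≤ Lα := by
    intro Y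
    refine (abs_add_le _ _).trans (add_le_add ?_ ?_)
    · rw [abs_mul, abs_mul, abs_of_nonneg hT]
      have := hf.b2 Y
      have := Bq_abs_le_one T (f1 Y)
      gcongr
    · rw [abs_mul, abs_mul, abs_of_nonneg hT]
      have := hf.b1 Y
      have := hBY Y
      gcongr
  have hαb : ∀ Y, |α Y| ≤ T * C := by
    intro Y
    rw [hα]
    simp only
    rw [abs_mul, abs_mul, abs_of_nonneg hT]
    calc T * |f1 Y| * |Bq T (f1 Y)| ≤ T * C * 1 := by
          have := hf.b1 Y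
          have := Bq_abs_le_one T (f1 Y)
          gcongr
      _ = T * C := by ring
  refine ⟨δ * (T * C * (2 * (T * C)) + 2 * Lα + 4 * |C₁|), by positivity, ?_⟩
  intro ν σ X Y hν hν1 hσ hσ1 hβ1 hβ2
  set β := T * f1 Y * σ with hβ
  set φ : ℝ → ℝ := fun Y => ν⁻¹ * (X - T * f Y) with hφ
  have hA : ∀ Z, Apt f f1 f2 δ ν T X Z =
      δ * ν * (α Z * Real.sin (φ Z)) + δ * ν ^ 2 * (BY T (f1 Z) (f2 Z) * Real.cos (φ Z)) := by
    intro Z
    unfold Apt U0 wave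
    simp only [hα, hφ]
    ring
  -- phases
  have hφp : ∃ e, φ (Y + ν * σ) = (φ Y - β) + e ∧ |e| ≤ T * C * ν := by
    refine ⟨φ (Y + ν * σ) - (φ Y - β), by ring, ?_⟩
    have e1 : φ (Y + ν * σ) - (φ Y - β) = -(ν⁻¹ * T) * (f (Y + ν * σ) - f Y - ν * σ * f1 Y) := by
      simp only [hφ, hβ]
      field_simp
      ring
    rw [e1, abs_mul, abs_neg, abs_of_nonneg (by positivity)]
    calc ν⁻¹ * T * |f (Y + ν * σ) - f Y - ν * σ * f1 Y| ≤ ν⁻¹ * T * (C * (ν * σ) ^ 2) := by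
          gcongr
          exact taylor2 hf Y (ν * σ)
      _ = T * C * ν * σ ^ 2 := by field_simp
      _ ≤ T * C * ν * 1 := by gcongr; nlinarith
      _ = _ := by ring
  have hφm : ∃ e, φ (Y - ν * σ) = (φ Y + β) + e ∧ |e| ≤ T * C * ν := by
    refine ⟨φ (Y - ν * σ) - (φ Y + β), by ring, ?_⟩
    have e1 : φ (Y - ν * σ) - (φ Y + β) =
        -(ν⁻¹ * T) * (f (Y + -(ν * σ)) - f Y - -(ν * σ) * f1 Y) := by
      simp only [hφ, hβ]
      rw [← sub_eq_add_neg]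
      field_simp
      ring
    rw [e1, abs_mul, abs_neg, abs_of_nonneg (by positivity)]
    calc ν⁻¹ * T * |f (Y + -(ν * σ)) - f Y - -(ν * σ) * f1 Y|
        ≤ ν⁻¹ * T * (C * (-(ν * σ)) ^ 2) := by
          gcongr
          exact taylor2 hf Y (-(ν * σ))
      _ = T * C * ν * σ ^ 2 := by field_simp
      _ ≤ T * C * ν * 1 := by gcongr; nlinarith
      _ = _ := by ring
  obtain ⟨ep, hep, hep'⟩ := hφp
  obtain ⟨em, hem, hem'⟩ := hφm
  set sp := Real.sin (φ (Y + ν * σ)) - Real.sin (φ Y - β) with hsp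
  set sm := Real.sin (φ (Y - ν * σ)) - Real.sin (φ Y + β) with hsm
  have hsp' : |sp| ≤ T * C * ν := by
    rw [hsp, hep]; exact (abs_sin_add_sub_le _ _).trans hep'
  have hsm' : |sm| ≤ T * C * ν := by
    rw [hsm, hem]; exact (abs_sin_add_sub_le _ _).trans hem'
  have htrig : Real.sin (φ Y - β) + Real.sin (φ Y + β) - 2 * Real.sin (φ Y) =
      -(2 * (1 - Real.cos β)) * Real.sin (φ Y) := by
    rw [Real.sin_sub, Real.sin_add]; ring
  have hLp : |α (Y + ν * σ) - α Y| ≤ Lα * ν := by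
    have := lip_of_deriv hαd hαL Y (Y + ν * σ)
    rw [add_sub_cancel_left, abs_of_pos (show 0 < ν * σ by positivity)] at this
    refine this.trans ?_
    have hL0 : 0 ≤ Lα := by positivity
    calc Lα * (ν * σ) ≤ Lα * (ν * 1) := by gcongr
      _ = _ := by ring
  have hLm : |α (Y - ν * σ) - α Y| ≤ Lα * ν := by
    have := lip_of_deriv hαd hαL Y (Y - ν * σ)
    rw [sub_sub_cancel_left, abs_neg, abs_of_pos (show 0 < ν * σ by positivity)] at this
    refine this.trans ?_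
    have hL0 : 0 ≤ Lα := by positivity
    calc Lα * (ν * σ) ≤ Lα * (ν * 1) := by gcongr
      _ = _ := by ring
  have hmain : Apt f f1 f2 δ ν T X (Y + ν * σ) + Apt f f1 f2 δ ν T X (Y - ν * σ) -
      2 * Apt f f1 f2 δ ν T X Y =
      δ * ν * (-(2 * (1 - Real.cos β)) * (α Y * Real.sin (φ Y))) +
      (δ * ν * (α Y * (sp + sm)) +
      δ * ν * ((α (Y + ν * σ) - α Y) * Real.sin (φ (Y + ν * σ)) +
        (α (Y - ν * σ) - α Y) * Real.sin (φ (Y - ν * σ))) +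
      δ * ν ^ 2 * (BY T (f1 (Y + ν * σ)) (f2 (Y + ν * σ)) * Real.cos (φ (Y + ν * σ)) +
        BY T (f1 (Y - ν * σ)) (f2 (Y - ν * σ)) * Real.cos (φ (Y - ν * σ)) -
        2 * (BY T (f1 Y) (f2 Y) * Real.cos (φ Y)))) := by
    rw [hA, hA, hA]
    have : -(2 * (1 - Real.cos β)) * (α Y * Real.sin (φ Y)) =
        α Y * (Real.sin (φ Y - β) + Real.sin (φ Y + β) - 2 * Real.sin (φ Y)) := by
      rw [htrig]; ring
    rw [this, hsp, hsm]
    ring
  have herr : |δ * ν * (α Y * (sp + sm)) +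
      δ * ν * ((α (Y + ν * σ) - α Y) * Real.sin (φ (Y + ν * σ)) +
        (α (Y - ν * σ) - α Y) * Real.sin (φ (Y - ν * σ))) +
      δ * ν ^ 2 * (BY T (f1 (Y + ν * σ)) (f2 (Y + ν * σ)) * Real.cos (φ (Y + ν * σ)) +
        BY T (f1 (Y - ν * σ)) (f2 (Y - ν * σ)) * Real.cos (φ (Y - ν * σ)) -
        2 * (BY T (f1 Y) (f2 Y) * Real.cos (φ Y)))| ≤
      δ * (T * C * (2 * (T * C)) + 2 * Lα + 4 * |C₁|) * ν ^ 2 := by
    have b1 : |δ * ν * (α Y * (sp + sm))| ≤ δ * ν * (T * C * (2 * (T * C) * ν)) := by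
      rw [abs_mul, abs_of_pos (by positivity : 0 < δ * ν), abs_mul]
      have : |sp + sm| ≤ 2 * (T * C) * ν := (abs_add_le _ _).trans (by linarith)
      have := hαb Y
      gcongr
    have s1 : ∀ z, |Real.sin z| ≤ 1 := Real.abs_sin_le_one
    have c1 : ∀ z, |Real.cos z| ≤ 1 := Real.abs_cos_le_one
    have b2 : |δ * ν * ((α (Y + ν * σ) - α Y) * Real.sin (φ (Y + ν * σ)) +
        (α (Y - ν * σ) - α Y) * Real.sin (φ (Y - ν * σ)))| ≤
        δ * ν * (Lα * ν * 1 + Lα * ν * 1) := by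
      rw [abs_mul, abs_of_pos (by positivity : 0 < δ * ν)]
      refine mul_le_mul_of_nonneg_left ?_ (by positivity)
      refine (abs_add_le _ _).trans (add_le_add ?_ ?_)
      · rw [abs_mul]; exact mul_le_mul hLp (s1 _) (abs_nonneg _) (by positivity)
      · rw [abs_mul]; exact mul_le_mul hLm (s1 _) (abs_nonneg _) (by positivity)
    have k1 : ∀ Z, |BY T (f1 Z) (f2 Z) * Real.cos (φ Z)| ≤ |C₁| := by
      intro Z
      rw [abs_mul]
      calc |BY T (f1 Z) (f2 Z)| * |Real.cos (φ Z)| ≤ |C₁| * 1 :=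
            mul_le_mul (hBY Z) (c1 _) (abs_nonneg _) (abs_nonneg _)
        _ = |C₁| := mul_one _
    have b3 : |δ * ν ^ 2 * (BY T (f1 (Y + ν * σ)) (f2 (Y + ν * σ)) * Real.cos (φ (Y + ν * σ)) +
        BY T (f1 (Y - ν * σ)) (f2 (Y - ν * σ)) * Real.cos (φ (Y - ν * σ)) -
        2 * (BY T (f1 Y) (f2 Y) * Real.cos (φ Y)))| ≤ δ * ν ^ 2 * (|C₁| + |C₁| + 2 * |C₁|) := by
      rw [abs_mul, abs_of_pos (by positivity : 0 < δ * ν ^ 2)]
      refine mul_le_mul_of_nonneg_left ?_ (by positivity)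
      refine (abs_sub _ _).trans (add_le_add ((abs_add_le _ _).trans (add_le_add (k1 _) (k1 _))) ?_)
      rw [abs_mul, abs_two]
      have := k1 Y
      linarith
    refine (abs_add_le _ _).trans ((add_le_add ((abs_add_le _ _).trans (add_le_add b1 b2))
      b3).trans (le_of_eq ?_))
    ring
  rw [hmain]
  set M0 := δ * ν * (-(2 * (1 - Real.cos β)) * (α Y * Real.sin (φ Y))) with hM0
  have hM0' : 1 / 5 * (δ * ν * σ) * |Real.sin (φ Y)| ≤ |M0| := by
    have h1 := one_sub_cos_lower hβ1 hβ2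
    have h2 : (12 : ℝ) / 25 * σ ≤ α Y := amp_lower hσ hσ1 hβ1 hβ2
    have h3 : 0 ≤ α Y := le_trans (by positivity) h2
    rw [hM0, abs_mul (δ * ν), abs_mul (-(2 * (1 - Real.cos β))), abs_mul (α Y), abs_neg,
      abs_of_pos (by positivity : 0 < δ * ν),
      abs_of_nonneg (by linarith : 0 ≤ 2 * (1 - Real.cos β)), abs_of_nonneg h3]
    calc 1 / 5 * (δ * ν * σ) * |Real.sin (φ Y)|
        ≤ δ * ν * ((9 / 20) * ((12 / 25 * σ) * |Real.sin (φ Y)|)) := by
          have : 0 ≤ δ * ν * σ * |Real.sin (φ Y)| := by positivity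
          nlinarith
      _ ≤ δ * ν * (2 * (1 - Real.cos β) * (α Y * |Real.sin (φ Y)|)) := by gcongr
  have hfin : ∀ a b : ℝ, |a| - |b| ≤ |a + b| := by
    intro a b
    have := abs_add_le (a + b) (-b)
    rw [abs_neg, add_neg_cancel_right] at this
    linarith
  exact (sub_le_sub hM0' herr).trans (hfin _ _)

end Pool.Agent.MP_f6d183_an
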