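import Mathlib
import Pool.Agent.MP_f6d183_an.Lower1

set_option autoImplicit false

/-!
# Lower bound for second differences of fields close to the approximate solution
-/

namespace Pool.Agent.MP_f6d183_an

open MeasureTheory Set Filter Topology
open scoped ENNReal ContDiff RealInnerProductSpace

variable {n : ℕ}

/-- measure of periodic strips -/
lemma strip_measure {g : ℝ → ℝ} (hper : Function.Periodic g (2 * Real.pi))
    {y ρ lo hi : ℝ} (hρ : 0 < ρ) (hgood : ∀ z, |z - y| ≤ ρ → lo ≤ g z ∧ g z ≤ hi) (i1 : Fin n) :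
    ∃ P : ℕ, 0 < P ∧ ∀ R : ℝ, volume (Metric.ball (0 : E n) (R - 2 * Real.pi)) ≤
      P * volume ({x : E n | lo ≤ g (x i1) ∧ g (x i1) ≤ hi} ∩ Metric.ball 0 R) := by
  have hpi := Real.pi_pos
  refine ⟨⌈Real.pi / ρ⌉₊, Nat.ceil_pos.2 (by positivity), fun R => ?_⟩
  set P := ⌈Real.pi / ρ⌉₊ with hP
  set G : Set (E n) := {x : E n | lo ≤ g (x i1) ∧ g (x i1) ≤ hi} with hG
  have hsub : Metric.ball (0 : E n) (R - 2 * Real.pi) ⊆
      ⋃ p ∈ Finset.range P, (fun x : E n => x + (-(2 * ρ * (p : ℝ))) • eb i1) ⁻¹'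
        (G ∩ Metric.ball 0 R) := by
    intro x hx
    rw [mem_ball_zero_iff] at hx
    set k : ℤ := ⌊(x i1 - y + ρ) / (2 * Real.pi)⌋ with hk
    set u : ℝ := x i1 - y + ρ - k * (2 * Real.pi) with hu
    have hu0 : 0 ≤ u := by
      have h1 := Int.floor_le ((x i1 - y + ρ) / (2 * Real.pi))
      rw [← hk, le_div_iff₀ (by positivity)] at h1
      linarith
    have hu1 : u < 2 * Real.pi := by
      have h1 := Int.lt_floor_add_one ((x i1 - y + ρ) / (2 * Real.pi))
      rw [← hk, div_lt_iff₀ (by positivity)] at h1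
      linarith
    set p : ℕ := ⌊u / (2 * ρ)⌋₊ with hp
    have hp0 : (p : ℝ) ≤ u / (2 * ρ) := Nat.floor_le (by positivity)
    have hp1 : u / (2 * ρ) < p + 1 := Nat.lt_floor_add_one _
    rw [le_div_iff₀ (by positivity)] at hp0
    rw [div_lt_iff₀ (by positivity)] at hp1
    have hpP : p < P := by
      have h1 : (p : ℝ) < Real.pi / ρ := by
        rw [lt_div_iff₀ hρ]
        linarith
      have h2 : Real.pi / ρ ≤ P := Nat.le_ceil _
      exact_mod_cast h1.trans_le h2
    simp only [mem_iUnion, Finset.mem_range, mem_preimage]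
    refine ⟨p, hpP, ?_, ?_⟩
    · show lo ≤ g ((x + (-(2 * ρ * (p : ℝ))) • eb i1 : E n) i1) ∧
        g ((x + (-(2 * ρ * (p : ℝ))) • eb i1 : E n) i1) ≤ hi
      have e1 : (x + (-(2 * ρ * (p : ℝ))) • eb i1 : E n) i1 = x i1 - 2 * ρ * p := by
        simp [eb]
        ring
      rw [e1]
      have e2 : g (x i1 - 2 * ρ * p) = g (x i1 - 2 * ρ * p - k * (2 * Real.pi)) :=
        (hper.sub_int_mul_eq k).symm
      rw [e2]
      apply hgood
      rw [abs_le]
      constructor <;> linarith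
    · rw [mem_ball_zero_iff]
      calc ‖x + (-(2 * ρ * (p : ℝ))) • (eb i1 : E n)‖
          ≤ ‖x‖ + ‖(-(2 * ρ * (p : ℝ))) • (eb i1 : E n)‖ := norm_add_le _ _
        _ = ‖x‖ + 2 * ρ * p := by
            rw [norm_smul, norm_eb, mul_one, Real.norm_eq_abs, abs_neg,
              abs_of_nonneg (by positivity)]
        _ < R := by linarith
  calc volume (Metric.ball (0 : E n) (R - 2 * Real.pi))
      ≤ volume (⋃ p ∈ Finset.range P, (fun x : E n => x + (-(2 * ρ * (p : ℝ))) • eb i1) ⁻¹'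
        (G ∩ Metric.ball 0 R)) := measure_mono hsub
    _ ≤ ∑ p ∈ Finset.range P, volume ((fun x : E n => x + (-(2 * ρ * (p : ℝ))) • eb i1) ⁻¹'
        (G ∩ Metric.ball 0 R)) := measure_biUnion_finset_le _ _
    _ = ∑ p ∈ Finset.range P, volume (G ∩ Metric.ball 0 R) := by
        refine Finset.sum_congr rfl (fun p _ => ?_)
        rw [measure_preimage_add_right]
    _ = P * volume (G ∩ Metric.ball 0 R) := by simp

/-- volume of the unit ball -/
noncomputable def cn (n : ℕ) : ℝ := (volume (Metric.ball (0 : E n) 1)).toReal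

lemma cn_pos (n : ℕ) : 0 < cn n :=
  ENNReal.toReal_pos (Metric.measure_ball_pos volume _ one_pos).ne' measure_ball_lt_top.ne

lemma strip_measure' {g : ℝ → ℝ} (hper : Function.Periodic g (2 * Real.pi))
    {y ρ lo hi : ℝ} (hρ : 0 < ρ) (hgood : ∀ z, |z - y| ≤ ρ → lo ≤ g z ∧ g z ≤ hi) (i1 : Fin n) :
    ∃ c : ℝ, 0 < c ∧ ∀ R : ℝ, 20 ≤ R → c * R ^ n ≤
      (volume ({x : E n | lo ≤ g (x i1) ∧ g (x i1) ≤ hi} ∩ Metric.ball 0 (R - 3))).toReal := by
  obtain ⟨P, hP, h⟩ := strip_measure hper hρ hgood i1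
  refine ⟨cn n * (1 / 2) ^ n / P, by have := cn_pos n; positivity, fun R hR => ?_⟩
  have h1 := h (R - 3)
  have hpi := Real.pi_lt_d2
  have hr : R / 2 ≤ R - 3 - 2 * Real.pi := by linarith
  have hr0 : 0 < R - 3 - 2 * Real.pi := by linarith
  rw [Measure.addHaar_ball_of_pos volume (0 : E n) hr0, finrank_euclideanSpace_fin] at h1
  have hfin : volume ({x : E n | lo ≤ g (x i1) ∧ g (x i1) ≤ hi} ∩ Metric.ball 0 (R - 3)) ≠ ⊤ :=
    ne_top_of_le_ne_top measure_ball_lt_top.ne (measure_mono inter_subset_right)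
  have h2 := ENNReal.toReal_mono (ENNReal.mul_ne_top (ENNReal.natCast_ne_top P) hfin) h1
  rw [ENNReal.toReal_mul, ENNReal.toReal_mul, ENNReal.toReal_ofReal (by positivity),
    ENNReal.toReal_natCast] at h2
  have hP' : (0 : ℝ) < P := by exact_mod_cast hP
  rw [div_mul_eq_mul_div, div_le_iff₀ hP']
  have h3 : (R / 2) ^ n ≤ (R - 3 - 2 * Real.pi) ^ n :=
    pow_le_pow_left₀ (by linarith) hr n
  have hc := cn_pos n
  calc cn n * (1 / 2) ^ n * R ^ n = (R / 2) ^ n * cn n := by
        rw [div_eq_mul_one_div R, mul_pow]; ring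
    _ ≤ (R - 3 - 2 * Real.pi) ^ n * cn n := by gcongr
    _ ≤ _ := by rw [mul_comm _ (P : ℝ)]; exact h2

/-- the sum of the six values -/
noncomputable def Phi (W : E n → E n) (h l x : E n) : ℝ :=
  (‖W (x + h)‖ + ‖W (x + -h)‖ + 2 * ‖W x‖) +
    (‖W (x + (l + h))‖ + ‖W (x + (l + -h))‖ + 2 * ‖W (x + l)‖)

lemma Phi_sq_le (W : E n → E n) (h l x : E n) : Phi W h l x ^ 2 ≤
    8 * ((‖W (x + h)‖ ^ 2 + ‖W (x + -h)‖ ^ 2 + 2 * ‖W (x + 0)‖ ^ 2) +
      (‖W (x + (l + h))‖ ^ 2 + ‖W (x + (l + -h))‖ ^ 2 + 2 * ‖W (x + l)‖ ^ 2)) := by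
  unfold Phi
  rw [add_zero]
  generalize ‖W (x + h)‖ = a
  generalize ‖W (x + -h)‖ = b
  generalize ‖W x‖ = c
  generalize ‖W (x + (l + h))‖ = d
  generalize ‖W (x + (l + -h))‖ = e
  generalize ‖W (x + l)‖ = f
  nlinarith [sq_nonneg (a - b), sq_nonneg (a - c), sq_nonneg (a - d), sq_nonneg (a - e),
    sq_nonneg (a - f), sq_nonneg (b - c), sq_nonneg (b - d), sq_nonneg (b - e), sq_nonneg (b - f),
    sq_nonneg (c - d), sq_nonneg (c - e), sq_nonneg (c - f), sq_nonneg (d - e), sq_nonneg (d - f),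
    sq_nonneg (e - f)]

lemma int_six {μ : Measure (E n)} {a b c d e g : E n → ℝ} (ha : Integrable a μ)
    (hb : Integrable b μ) (hc : Integrable c μ) (hd : Integrable d μ) (he : Integrable e μ)
    (hg : Integrable g μ) :
    ∫ x, 8 * ((a x + b x + 2 * c x) + (d x + e x + 2 * g x)) ∂μ =
      8 * (((∫ x, a x ∂μ) + (∫ x, b x ∂μ) + 2 * ∫ x, c x ∂μ) +
        ((∫ x, d x ∂μ) + (∫ x, e x ∂μ) + 2 * ∫ x, g x ∂μ)) := by
  have j1 : Integrable (fun x => a x + b x) μ := ha.add hb
  have j2 : Integrable (fun x => 2 * c x) μ := hc.const_mul 2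
  have j3 : Integrable (fun x => a x + b x + 2 * c x) μ := j1.add j2
  have k1 : Integrable (fun x => d x + e x) μ := hd.add he
  have k2 : Integrable (fun x => 2 * g x) μ := hg.const_mul 2
  have k3 : Integrable (fun x => d x + e x + 2 * g x) μ := k1.add k2
  rw [integral_const_mul, integral_add j3 k3, integral_add j1 j2, integral_add k1 k2,
    integral_add ha hb, integral_add hd he, integral_const_mul, integral_const_mul]

lemma integrable_six {μ : Measure (E n)} {a b c d e g : E n → ℝ} (ha : Integrable a μ)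
    (hb : Integrable b μ) (hc : Integrable c μ) (hd : Integrable d μ) (he : Integrable e μ)
    (hg : Integrable g μ) :
    Integrable (fun x => 8 * ((a x + b x + 2 * c x) + (d x + e x + 2 * g x))) μ :=
  (((ha.add hb).add (hc.const_mul 2)).add ((hd.add he).add (hg.const_mul 2))).const_mul 8

lemma lower_energy {W : E n → E n} (hW : Continuous W) {G : Set (E n)} (hG : MeasurableSet G)
    {lam R : ℝ} {h l : E n} (hh : ‖h‖ ≤ 1) (hl : ‖l‖ ≤ 2) (hlam : 0 ≤ lam)
    (hlow : ∀ x ∈ G, lam ≤ Phi W h l x) :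
    lam ^ 2 * (volume (G ∩ Metric.ball 0 (R - 3))).toReal ≤
      64 * ∫ x in Metric.ball (0 : E n) R, ‖W x‖ ^ 2 := by
  set F : E n → ℝ := fun x => ‖W x‖ ^ 2 with hF
  have hFc : Continuous F := hW.norm.pow 2
  set S : Set (E n) := G ∩ Metric.ball 0 (R - 3) with hS
  have hSm : MeasurableSet S := hG.inter Metric.isOpen_ball.measurableSet
  have hFint : ∀ (g : E n → ℝ), Continuous g → ∀ r : ℝ, IntegrableOn g (Metric.ball (0 : E n) r) := by
    intro g hg r
    exact (hg.continuousOn.integrableOn_compact (isCompact_closedBall (0 : E n) r)).mono_set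
      Metric.ball_subset_closedBall
  have hFS : ∀ (g : E n → ℝ), Continuous g → IntegrableOn g S := fun g hg =>
    (hFint g hg (R - 3)).mono_set inter_subset_right
  -- translation
  have htr : ∀ z : E n, ‖z‖ ≤ 3 → ∫ x in S, F (x + z) ≤ ∫ x in Metric.ball (0 : E n) R, F x := by
    intro z hz
    have hz' : Continuous (fun x => F (x + z)) := by fun_prop
    calc ∫ x in S, F (x + z) ≤ ∫ x in Metric.ball (0 : E n) (R - 3), F (x + z) := by
          refine setIntegral_mono_set (hFint _ hz' _) ?_ (inter_subset_right.eventuallyLE)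
          exact Eventually.of_forall (fun x => by positivity)
      _ = ∫ x, (Metric.ball (0 : E n) (R - 3)).indicator (fun x => F (x + z)) x :=
          (integral_indicator Metric.isOpen_ball.measurableSet).symm
      _ ≤ ∫ x, (Metric.ball (0 : E n) R).indicator F (x + z) := by
          refine integral_mono ?_ ?_ (fun x => ?_)
          · exact (integrable_indicator_iff Metric.isOpen_ball.measurableSet).2 (hFint _ hz' _)
          · exact ((integrable_indicator_iff Metric.isOpen_ball.measurableSet).2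
              (hFint _ hFc _)).comp_add_right z
          · by_cases hx : x ∈ Metric.ball (0 : E n) (R - 3)
            · have hx2 : x + z ∈ Metric.ball (0 : E n) R := by
                rw [mem_ball_zero_iff] at hx ⊢
                linarith [norm_add_le x z]
              rw [indicator_of_mem hx, indicator_of_mem hx2]
            · rw [indicator_of_notMem hx]
              exact indicator_nonneg (fun y _ => by positivity) _
      _ = ∫ x, (Metric.ball (0 : E n) R).indicator F x := integral_add_right_eq_self _ z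
      _ = ∫ x in Metric.ball (0 : E n) R, F x :=
          integral_indicator Metric.isOpen_ball.measurableSet
  have h1 : lam ^ 2 * (volume S).toReal = ∫ x in S, lam ^ 2 := by
    rw [setIntegral_const, smul_eq_mul, mul_comm]
    rfl
  have hc : ∀ z : E n, Continuous (fun x => F (x + z)) := fun z => by fun_prop
  have hi : ∀ z : E n, IntegrableOn (fun x => F (x + z)) S := fun z => hFS _ (hc z)
  rw [h1]
  calc ∫ x in S, lam ^ 2
      ≤ ∫ x in S, 8 * ((F (x + h) + F (x + -h) + 2 * F (x + 0)) +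
          (F (x + (l + h)) + F (x + (l + -h)) + 2 * F (x + l))) := by
        refine setIntegral_mono_on (hFS _ continuous_const) ?_ hSm (fun x hx => ?_)
        · exact integrable_six (hi h) (hi (-h)) (hi 0) (hi (l + h)) (hi (l + -h)) (hi l)
        · refine le_trans ?_ (Phi_sq_le W h l x)
          have := hlow x hx.1
          gcongr
    _ = 8 * (((∫ x in S, F (x + h)) + (∫ x in S, F (x + -h)) + 2 * ∫ x in S, F (x + 0)) +
          ((∫ x in S, F (x + (l + h))) + (∫ x in S, F (x + (l + -h))) +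
            2 * ∫ x in S, F (x + l))) := by
        exact int_six (hi h) (hi (-h)) (hi 0) (hi (l + h)) (hi (l + -h)) (hi l)
    _ ≤ 64 * ∫ x in Metric.ball (0 : E n) R, F x := by
        have t1 := htr h (by linarith)
        have t2 := htr (-h) (by rw [norm_neg]; linarith)
        have t3 := htr 0 (by simp)
        have t4 := htr (l + h) (by linarith [norm_add_le l h])
        have t5 := htr (l + -h) (by have := norm_add_le l (-h); rw [norm_neg] at this; linarith)
        have t6 := htr l (by linarith)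
        linarith

variable {i0 i1 : Fin n} {f f1 f2 f3 : ℝ → ℝ} {C : ℝ}

theorem lower_main (hi : i0 ≠ i1) (hf : Prof f f1 f2 f3 C)
    (hper : Function.Periodic f1 (2 * Real.pi)) {δ T σ y ρ CE : ℝ} (hδ : 0 < δ) (hT : 0 ≤ T)
    (hσ : 0 < σ) (hσ1 : σ ≤ 1) (hρ : 0 < ρ)
    (hgood : ∀ z, |z - y| ≤ ρ → 3 / 4 ≤ T * f1 z * σ ∧ T * f1 z * σ ≤ 5 / 4) (hCE : 0 ≤ CE) :
    ∃ ν₀ : ℝ, 0 < ν₀ ∧ ∀ ν : ℝ, 0 < ν → ν ≤ ν₀ → ∀ v : E n → E n, Continuous v →
      (∀ ε : ℝ, 0 < ε → ∃ R₀ : ℝ, ∀ R : ℝ, R₀ ≤ R →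
        ∫ x in Metric.ball (0 : E n) R, ‖v x - Uv i0 i1 f f1 f2 δ ν T x‖ ^ 2 ≤
          R ^ n * (CE * ν ^ 4 + ε)) →
      ∃ x : E n, 1 / 20 * (δ * ν * σ) ≤
        ‖(v (x + (ν * σ) • eb i1) - f ((x + (ν * σ) • eb i1 : E n) i1) • eb i0) +
          (v (x - (ν * σ) • eb i1) - f ((x - (ν * σ) • eb i1 : E n) i1) • eb i0) -
          (2 : ℝ) • (v x - f (x i1) • eb i0)‖ := by
  obtain ⟨K, hK, hlow⟩ := diff2_lower hf hδ hT
  obtain ⟨c, hc, hvol⟩ := strip_measure' (g := fun z => T * f1 z * σ)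
    (fun z => by simp only; rw [hper z]) hρ hgood i1
  set Q : ℝ := δ ^ 2 * σ ^ 2 * c / 400 with hQ
  have hQ0 : 0 < Q := by positivity
  refine ⟨min 1 (min (δ * σ / (40 * (K + 1))) (Q / (128 * (CE + 1)))), by positivity, ?_⟩
  intro ν hν hνν v hv hen
  have hν1 : ν ≤ 1 := hνν.trans (min_le_left _ _)
  have hν2 : ν ≤ δ * σ / (40 * (K + 1)) := hνν.trans ((min_le_right _ _).trans (min_le_left _ _))
  have hν3 : ν ≤ Q / (128 * (CE + 1)) := hνν.trans ((min_le_right _ _).trans (min_le_right _ _))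
  by_contra hcon
  push Not at hcon
  set h : E n := (ν * σ) • eb i1 with hh
  set l : E n := (Real.pi / 2 * ν) • eb i0 with hl
  set U : E n → E n := Uv i0 i1 f f1 f2 δ ν T with hU
  set W : E n → E n := fun x => v x - U x with hW
  have hUc : Continuous U := by
    have := (joint_cont (i0 := i0) (i1 := i1) hf δ ν).1
    exact this.comp (by fun_prop : Continuous (fun x : E n => (T, x)))
  have hWc : Continuous W := hv.sub hUc
  set lam : ℝ := 1 / 20 * (δ * ν * σ) with hlam
  have hlam0 : 0 < lam := by positivity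
  set G : Set (E n) := {x : E n | 3 / 4 ≤ T * f1 (x i1) * σ ∧ T * f1 (x i1) * σ ≤ 5 / 4} with hG
  have hGm : MeasurableSet G := by
    have c1 : Continuous (fun x : E n => T * f1 (x i1) * σ) :=
      (continuous_const.mul (hf.s1.continuous.comp (coord_cont i1))).mul continuous_const
    exact ((isClosed_le continuous_const c1).inter (isClosed_le c1 continuous_const)).measurableSet
  -- pointwise lower bound on G
  have hpt : ∀ x ∈ G, 1 / 5 * (δ * ν * σ) * |Real.sin (ν⁻¹ * (x i0 - T * f (x i1)))| - K * ν ^ 2 ≤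
      lam + (‖W (x + h)‖ + ‖W (x + -h)‖ + 2 * ‖W x‖) := by
    intro x hx
    have h1 := hlow ν σ (x i0) (x i1) hν hν1 hσ hσ1 hx.1 hx.2
    refine h1.trans ?_
    -- components
    have e0p : (x + h : E n) i0 = x i0 := by
      rw [hh]; simp [eb, hi]
    have e0m : (x - h : E n) i0 = x i0 := by
      rw [hh]; simp [eb, hi]
    have e1p : (x + h : E n) i1 = x i1 + ν * σ := by
      rw [hh]; simp [eb]
    have e1m : (x - h : E n) i1 = x i1 - ν * σ := by
      rw [hh]; simp [eb]
    have hUcomp : ∀ z : E n, (U z - f (z i1) • eb i0 : E n) i0 =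
        Apt f f1 f2 δ ν T (z i0) (z i1) := by
      intro z
      simp only [hU, Uv, Apt]
      simp [eb, hi]
    have e2 : Apt f f1 f2 δ ν T (x i0) (x i1 + ν * σ) + Apt f f1 f2 δ ν T (x i0) (x i1 - ν * σ) -
        2 * Apt f f1 f2 δ ν T (x i0) (x i1) =
        ((U (x + h) - f ((x + h : E n) i1) • eb i0) + (U (x - h) - f ((x - h : E n) i1) • eb i0) -
          (2 : ℝ) • (U x - f (x i1) • eb i0) : E n) i0 := by
      have g1 := hUcomp (x + h)
      have g2 := hUcomp (x - h)
      have g3 := hUcomp x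
      rw [e0p, e1p] at g1
      rw [e0m, e1m] at g2
      rw [← g1, ← g2, ← g3, e1p, e1m]
      simp
    rw [e2]
    have e3 : ((U (x + h) - f ((x + h : E n) i1) • eb i0) +
        (U (x - h) - f ((x - h : E n) i1) • eb i0) -
          (2 : ℝ) • (U x - f (x i1) • eb i0) : E n) =
        ((v (x + h) - f ((x + h : E n) i1) • eb i0) +
          (v (x - h) - f ((x - h : E n) i1) • eb i0) - (2 : ℝ) • (v x - f (x i1) • eb i0)) -
        (W (x + h) + W (x + -h) - (2 : ℝ) • W x) := by
      rw [← sub_eq_add_neg]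
      simp only [hW]
      module
    have e4 : ∀ z : E n, |z i0| ≤ ‖z‖ := by
      intro z
      have := PiLp.norm_apply_le z i0
      simpa using this
    refine (e4 _).trans ?_
    rw [e3]
    refine (norm_sub_le _ _).trans (add_le_add (hcon x).le ?_)
    refine (norm_sub_le _ _).trans (add_le_add (norm_add_le _ _) ?_)
    rw [norm_smul, Real.norm_two]
  have hPhi : ∀ x ∈ G, lam ≤ Phi W h l x := by
    intro x hx
    have hxl0 : (x + l : E n) i0 = x i0 + Real.pi / 2 * ν := by rw [hl]; simp [eb]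
    have hxl1 : (x + l : E n) i1 = x i1 := by rw [hl]; simp [eb, hi.symm]
    have hx' : x + l ∈ G := by
      show 3 / 4 ≤ T * f1 ((x + l : E n) i1) * σ ∧ T * f1 ((x + l : E n) i1) * σ ≤ 5 / 4
      rw [hxl1]; exact hx
    have a1 := hpt x hx
    have a2 := hpt (x + l) hx'
    rw [hxl0, hxl1] at a2
    have e1 : ν⁻¹ * (x i0 + Real.pi / 2 * ν - T * f (x i1)) =
        ν⁻¹ * (x i0 - T * f (x i1)) + Real.pi / 2 := by field_simp; ring
    rw [e1, Real.sin_add_pi_div_two] at a2
    rw [add_assoc x l h, add_assoc x l (-h)] at a2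
    set θ := ν⁻¹ * (x i0 - T * f (x i1)) with hθ
    have hsc : 1 ≤ |Real.sin θ| + |Real.cos θ| := by
      have h1 := Real.sin_sq_add_cos_sq θ
      rw [← sq_abs (Real.sin θ), ← sq_abs (Real.cos θ)] at h1
      have h2 := Real.abs_sin_le_one θ
      have h3 := Real.abs_cos_le_one θ
      nlinarith [abs_nonneg (Real.sin θ), abs_nonneg (Real.cos θ)]
    have hKν : 2 * (K * ν ^ 2) ≤ 1 / 20 * (δ * ν * σ) := by
      have h1 : ν * (40 * (K + 1)) ≤ δ * σ := by
        rw [le_div_iff₀ (by positivity)] at hν2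
        exact hν2
      have h2 : ν * (ν * (40 * (K + 1))) ≤ ν * (δ * σ) := by gcongr
      nlinarith
    unfold Phi
    have h5 : 1 / 5 * (δ * ν * σ) ≤ 1 / 5 * (δ * ν * σ) * (|Real.sin θ| + |Real.cos θ|) :=
      le_mul_of_one_le_right (by positivity) hsc
    rw [hlam] at a1 a2 ⊢
    linarith
  have hhn : ‖h‖ ≤ 1 := by
    rw [hh, norm_smul, norm_eb, mul_one, Real.norm_of_nonneg (by positivity)]
    nlinarith
  have hln : ‖l‖ ≤ 2 := by
    rw [hl, norm_smul, norm_eb, mul_one, Real.norm_of_nonneg (by positivity)]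
    have := Real.pi_lt_d2
    nlinarith [Real.pi_pos]
  have key := fun R => lower_energy (R := R) hWc hGm hhn hln hlam0.le hPhi
  set κ : ℝ := lam ^ 2 * c with hκ
  have hκ0 : 0 < κ := by positivity
  obtain ⟨R₀, hR₀⟩ := hen (κ / 256) (by positivity)
  set R : ℝ := max R₀ 20 with hR
  have hR20 : 20 ≤ R := le_max_right _ _
  have hRn : 0 < R ^ n := by positivity
  have h1 := hR₀ R (le_max_left _ _)
  have h2 := key R
  have h3 := hvol R hR20
  have h4 : κ * R ^ n ≤ 64 * (R ^ n * (CE * ν ^ 4 + κ / 256)) := by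
    calc κ * R ^ n = lam ^ 2 * (c * R ^ n) := by rw [hκ]; ring
      _ ≤ lam ^ 2 * (volume (G ∩ Metric.ball 0 (R - 3))).toReal := by gcongr
      _ ≤ 64 * ∫ x in Metric.ball (0 : E n) R, ‖W x‖ ^ 2 := h2
      _ ≤ _ := by gcongr
  have h5 : κ ≤ 64 * (CE * ν ^ 4 + κ / 256) := by
    have : κ * R ^ n ≤ (64 * (CE * ν ^ 4 + κ / 256)) * R ^ n := by linarith
    exact le_of_mul_le_mul_right this hRn
  have h6 : κ = Q * ν ^ 2 := by rw [hκ, hlam, hQ]; ring
  have h7 : ν * (128 * (CE + 1)) ≤ Q := by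
    rw [le_div_iff₀ (by positivity)] at hν3
    exact hν3
  have h8 : 3 / 4 * Q ≤ 64 * CE * ν ^ 2 := by
    have : 3 / 4 * (Q * ν ^ 2) ≤ 64 * CE * ν ^ 2 * ν ^ 2 := by rw [← h6]; nlinarith
    have h9 : 0 < ν ^ 2 := by positivity
    have : (3 / 4 * Q) * ν ^ 2 ≤ (64 * CE * ν ^ 2) * ν ^ 2 := by linarith
    exact le_of_mul_le_mul_right this h9
  have h10 : ν ^ 2 ≤ ν := by nlinarith
  nlinarith

end Pool.Agent.MP_f6d183_an
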