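import Mathlib
import Pool.Agent.MP_f6d183_an.Besov2
import Pool.Agent.MP_f6d183_an.Lower2

set_option autoImplicit false

/-!
# Lacunary series
-/

namespace Pool.Agent.MP_f6d183_an

open MeasureTheory Set Filter Topology
open scoped ENNReal ContDiff RealInnerProductSpace

variable {n : ℕ}

/-- the lacunary series `∑ c_k 2^{-k} sin (2^k y)` -/
noncomputable def lac (c : ℕ → ℝ) (y : ℝ) : ℝ :=
  ∑' k : ℕ, c k * (2⁻¹ : ℝ) ^ k * Real.sin (2 ^ k * y)

/-- bounded sequences -/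
def Bdd (c : ℕ → ℝ) (A : ℝ) : Prop := ∀ k, |c k| ≤ A

section
variable {c d : ℕ → ℝ} {A B : ℝ}

lemma Bdd.term_le (hc : Bdd c A) (k : ℕ) (z : ℝ) (hz : |z| ≤ 1) :
    |c k * (2⁻¹ : ℝ) ^ k * z| ≤ A * (2⁻¹ : ℝ) ^ k := by
  rw [abs_mul, abs_mul, abs_of_pos (by positivity : (0 : ℝ) < 2⁻¹ ^ k)]
  have hA : 0 ≤ A := (abs_nonneg _).trans (hc k)
  calc |c k| * (2⁻¹ : ℝ) ^ k * |z| ≤ A * (2⁻¹ : ℝ) ^ k * 1 := by
        have := hc k
        gcongr
    _ = _ := mul_one _

lemma summable_geom (A : ℝ) : Summable (fun k : ℕ => A * (2⁻¹ : ℝ) ^ k) :=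
  (summable_geometric_of_lt_one (by norm_num) (by norm_num)).mul_left A

lemma Bdd.summable (hc : Bdd c A) (y : ℝ) :
    Summable (fun k : ℕ => c k * (2⁻¹ : ℝ) ^ k * Real.sin (2 ^ k * y)) :=
  Summable.of_norm_bounded (summable_geom A)
    (fun k => hc.term_le k _ (Real.abs_sin_le_one _))

lemma Bdd.lac_continuous (hc : Bdd c A) : Continuous (lac c) := by
  unfold lac
  refine continuous_tsum (fun k => by fun_prop) (summable_geom A)
    (fun k y => hc.term_le k _ (Real.abs_sin_le_one _))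

lemma Bdd.lac_le (hc : Bdd c A) (y : ℝ) : |lac c y| ≤ 2 * A := by
  have h1 : ‖lac c y‖ ≤ ∑' k : ℕ, A * (2⁻¹ : ℝ) ^ k :=
    tsum_of_norm_bounded (summable_geom A).hasSum
      (fun k => hc.term_le k _ (Real.abs_sin_le_one _))
  rw [tsum_mul_left, tsum_geometric_of_lt_one (by norm_num) (by norm_num)] at h1
  rw [Real.norm_eq_abs] at h1
  linarith

lemma lac_add (hc : Bdd c A) (hd : Bdd d B) (y : ℝ) :
    lac (fun k => c k + d k) y = lac c y + lac d y := by
  unfold lac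
  rw [← (hc.summable y).tsum_add (hd.summable y)]
  apply tsum_congr
  intro k
  ring

/-- enorm of a sum of a series -/
lemma enorm_tsum_le' {a : ℕ → ℝ} (ha : Summable (fun k => |a k|)) :
    ‖∑' k, a k‖ₑ ≤ ∑' k, ‖a k‖ₑ := by
  have h1 : ‖∑' k, a k‖ ≤ ∑' k, ‖a k‖ := norm_tsum_le_tsum_norm ha
  rw [← ofReal_norm]
  refine (ENNReal.ofReal_le_ofReal h1).trans ?_
  rw [ENNReal.ofReal_tsum_of_nonneg (fun k => norm_nonneg _) ha]
  refine ENNReal.tsum_le_tsum (fun k => ?_)
  rw [ofReal_norm]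

/-- the shear-type fields -/
noncomputable def sh (c : ℕ → ℝ) (i j : Fin n) (x : E n) : E n := lac c (x i) • eb j

lemma Bdd.sh_BC (hc : Bdd c A) (i j : Fin n) : BC (sh c i j : E n → E n) (2 * A) := by
  refine ⟨?_, fun x => ?_⟩
  · unfold sh
    exact smul_const_cont (hc.lac_continuous.comp (coord_cont i)) _
  · unfold sh
    rw [norm_smul, norm_eb, mul_one]
    exact hc.lac_le _

lemma bracket (z w : ℝ) (k : ℕ) : |Real.sin (2 ^ k * (z + w)) + Real.sin (2 ^ k * (z - w)) -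
    2 * Real.sin (2 ^ k * z)| ≤ min 4 ((2 ^ k * w) ^ 2) := by
  have e1 : Real.sin (2 ^ k * (z + w)) + Real.sin (2 ^ k * (z - w)) - 2 * Real.sin (2 ^ k * z) =
      -(2 * (1 - Real.cos (2 ^ k * w))) * Real.sin (2 ^ k * z) := by
    rw [mul_add, mul_sub, Real.sin_add, Real.sin_sub]; ring
  have h1 : Real.cos (2 ^ k * w) ≤ 1 := Real.cos_le_one _
  have h2 : -1 ≤ Real.cos (2 ^ k * w) := Real.neg_one_le_cos _
  have h3 := Real.one_sub_sq_div_two_le_cos (x := 2 ^ k * w)
  rw [e1, abs_mul, abs_neg, abs_of_nonneg (by linarith)]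
  have h4 := Real.abs_sin_le_one (2 ^ k * z)
  have h5 : 2 * (1 - Real.cos (2 ^ k * w)) * |Real.sin (2 ^ k * z)| ≤
      2 * (1 - Real.cos (2 ^ k * w)) := mul_le_of_le_one_right (by linarith) h4
  exact h5.trans (le_min (by linarith) (by linarith))

lemma Bdd.sh_Lac (hc : Bdd c A) (i j : Fin n) :
    Lac (sh c i j : E n → E n) (fun k => ‖c k‖ₑ) := by
  have he : ∀ k : ℕ, ‖((2⁻¹ : ℝ) ^ k)‖ₑ = (2⁻¹ : ℝ≥0∞) ^ k := by
    intro k
    rw [← ofReal_norm, norm_pow, norm_inv, Real.norm_two, ENNReal.ofReal_pow (by norm_num),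
      ENNReal.ofReal_inv_of_pos (by norm_num)]
    simp
  have heb : ∀ a : ℝ, ‖a • (eb j : E n)‖ₑ = ‖a‖ₑ := by
    intro a
    rw [enorm_smul, ← ofReal_norm (eb j : E n), norm_eb]
    simp
  refine ⟨fun x => ?_, fun x w => ?_⟩
  · unfold sh
    rw [heb]
    refine (enorm_tsum_le' (Summable.of_nonneg_of_le (fun k => abs_nonneg _)
      (fun k => hc.term_le k _ (Real.abs_sin_le_one _)) (summable_geom A))).trans ?_
    refine ENNReal.tsum_le_tsum (fun k => ?_)
    rw [enorm_mul, enorm_mul, he]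
    calc ‖c k‖ₑ * (2⁻¹ : ℝ≥0∞) ^ k * ‖Real.sin (2 ^ k * x i)‖ₑ
        ≤ ‖c k‖ₑ * (2⁻¹ : ℝ≥0∞) ^ k * 1 := by
          gcongr
          rw [← ofReal_norm, Real.norm_eq_abs]
          exact ENNReal.ofReal_le_one.2 (Real.abs_sin_le_one _)
      _ = _ := mul_one _
  · unfold sh
    have e1 : (lac c ((x + w : E n) i) • (eb j : E n) + lac c ((x - w : E n) i) • eb j -
        (2 : ℝ) • lac c (x i) • eb j) =
        (lac c (x i + w i) + lac c (x i - w i) - 2 * lac c (x i)) • (eb j : E n) := by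
      have e2 : (x + w : E n) i = x i + w i := rfl
      have e3 : (x - w : E n) i = x i - w i := rfl
      rw [e2, e3]
      module
    rw [e1, heb]
    have e4 : lac c (x i + w i) + lac c (x i - w i) - 2 * lac c (x i) =
        ∑' k : ℕ, c k * (2⁻¹ : ℝ) ^ k * (Real.sin (2 ^ k * (x i + w i)) +
          Real.sin (2 ^ k * (x i - w i)) - 2 * Real.sin (2 ^ k * x i)) := by
      unfold lac
      rw [← (hc.summable _).tsum_add (hc.summable _), ← tsum_mul_left,
        ← ((hc.summable _).add (hc.summable _)).tsum_sub ((hc.summable _).mul_left 2)]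
      apply tsum_congr
      intro k
      ring
    have hb : ∀ k : ℕ, |Real.sin (2 ^ k * (x i + w i)) +
          Real.sin (2 ^ k * (x i - w i)) - 2 * Real.sin (2 ^ k * x i)| ≤ 4 := fun k =>
      (bracket (x i) (w i) k).trans (min_le_left _ _)
    rw [e4]
    refine (enorm_tsum_le' (Summable.of_nonneg_of_le (fun k => abs_nonneg _)
      (fun k => ?_) (summable_geom (4 * A)))).trans ?_
    · rw [abs_mul, abs_mul, abs_of_pos (by positivity : (0 : ℝ) < 2⁻¹ ^ k)]
      have hA : 0 ≤ A := (abs_nonneg _).trans (hc k)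
      have := hc k
      have := hb k
      calc _ ≤ A * (2⁻¹ : ℝ) ^ k * 4 := by gcongr
        _ = _ := by ring
    · refine ENNReal.tsum_le_tsum (fun k => ?_)
      rw [enorm_mul, enorm_mul, he, mul_assoc]
      gcongr
      rw [← ofReal_norm (Real.sin _ + _ - _), Real.norm_eq_abs]
      refine (ENNReal.ofReal_le_ofReal (bracket (x i) (w i) k)).trans ?_
      refine le_min ?_ ?_
      · calc ENNReal.ofReal (min 4 ((2 ^ k * w i) ^ 2)) ≤ ENNReal.ofReal 4 :=
              ENNReal.ofReal_le_ofReal (min_le_left _ _)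
          _ = 4 := by simp
      · calc ENNReal.ofReal (min 4 ((2 ^ k * w i) ^ 2)) ≤ ENNReal.ofReal ((4 ^ k * ‖w‖ ^ 2)) := by
              apply ENNReal.ofReal_le_ofReal
              refine (min_le_right _ _).trans ?_
              have h1 : |w i| ≤ ‖w‖ := by
                have := PiLp.norm_apply_le w i
                simpa using this
              have h2 : w i ^ 2 ≤ ‖w‖ ^ 2 := by
                rw [← sq_abs]; gcongr
              calc (2 ^ k * w i) ^ 2 = 4 ^ k * w i ^ 2 := by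
                    rw [mul_pow, ← pow_mul, mul_comm k 2, pow_mul]; norm_num
                _ ≤ _ := by gcongr
          _ = 4 ^ k * ‖w‖ₑ ^ 2 := by
              rw [ENNReal.ofReal_mul (by positivity), ENNReal.ofReal_pow (by norm_num),
                ENNReal.ofReal_pow (norm_nonneg _), ofReal_norm]
              simp

end

/-! ### Norm bounds -/

/-- constant in the norm bound for shears -/
theorem exists_sh_const (χ : LPCutoff n) {q : ℝ} (hq : 1 < q) :
    ∃ K : ℝ≥0∞, K ≠ ⊤ ∧ ∀ (c : ℕ → ℝ) (A : ℝ) (i j : Fin n), Bdd c A →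
      besovNorm χ q (sh c i j) ≤ K * (∑' k, ‖c k‖ₑ ^ q) ^ (1 / q) := by
  obtain ⟨K, hK, h⟩ := exists_lac_norm_const χ hq
  exact ⟨K, hK, fun c A i j hc => h _ _ _ (hc.sh_BC i j) (hc.sh_Lac i j)⟩

end Pool.Agent.MP_f6d183_an
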