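import Mathlib
import Pool.Agent.MP_f6d183_an.Data

set_option autoImplicit false

/-!
# The initial data
-/

namespace Pool.Agent.MP_f6d183_an

open MeasureTheory Set Filter Topology
open scoped ENNReal ContDiff RealInnerProductSpace

variable {n : ℕ}

/-! ### Sequences -/

/-- the sequence `(k+1)^{-b}` -/
noncomputable def cs (b : ℝ) (k : ℕ) : ℝ := ((k : ℝ) + 1) ^ (-b)

/-- truncation -/
def tr (K : ℕ) (c : ℕ → ℝ) (k : ℕ) : ℝ := if k < K then c k else 0

/-- minus the tail -/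
def tl (K : ℕ) (c : ℕ → ℝ) (k : ℕ) : ℝ := if k < K then 0 else - c k

/-- a single term -/
def pt (J : ℕ) (δ : ℝ) (k : ℕ) : ℝ := if k = J then δ else 0

lemma cs_pos (b : ℝ) (k : ℕ) : 0 < cs b k := by unfold cs; positivity

lemma cs_bdd {b : ℝ} (hb : 0 ≤ b) : Bdd (cs b) 1 := by
  intro k
  rw [abs_of_pos (cs_pos b k)]
  exact Real.rpow_le_one_of_one_le_of_nonpos (by linarith [Nat.cast_nonneg (α := ℝ) k])
    (by linarith)

section
variable {c : ℕ → ℝ} {A : ℝ}

lemma tr_bdd (hc : Bdd c A) (K : ℕ) : Bdd (tr K c) A := by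
  intro k
  unfold tr
  split_ifs
  · exact hc k
  · rw [abs_zero]; exact (abs_nonneg _).trans (hc k)

lemma tl_bdd (hc : Bdd c A) (K : ℕ) : Bdd (tl K c) A := by
  intro k
  unfold tl
  split_ifs
  · rw [abs_zero]; exact (abs_nonneg _).trans (hc k)
  · rw [abs_neg]; exact hc k

lemma pt_bdd (J : ℕ) (δ : ℝ) : Bdd (pt J δ) |δ| := by
  intro k
  unfold pt
  split_ifs
  · exact le_rfl
  · rw [abs_zero]; exact abs_nonneg _

lemma tr_eq (K : ℕ) (c : ℕ → ℝ) : tr K c = fun k => c k + tl K c k := by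
  ext k
  unfold tr tl
  split_ifs <;> ring

lemma lac_tr (c : ℕ → ℝ) (K : ℕ) (y : ℝ) :
    lac (tr K c) y = ∑ k ∈ Finset.range K, c k * (2⁻¹ : ℝ) ^ k * Real.sin (2 ^ k * y) := by
  unfold lac
  rw [tsum_eq_sum (s := Finset.range K)]
  · refine Finset.sum_congr rfl (fun k hk => ?_)
    rw [tr, if_pos (Finset.mem_range.1 hk)]
  · intro k hk
    rw [tr, if_neg (by simpa using hk)]
    ring

lemma lac_pt (J : ℕ) (δ y : ℝ) :
    lac (pt J δ) y = δ * (2⁻¹ : ℝ) ^ J * Real.sin (2 ^ J * y) := by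
  unfold lac
  rw [tsum_eq_single J]
  · rw [pt, if_pos rfl]
  · intro k hk
    rw [pt, if_neg hk]
    ring

end

/-! ### Summability -/

lemma enorm_cs_rpow (b : ℝ) {q : ℝ} (hq : 0 ≤ q) (k : ℕ) :
    ‖cs b k‖ₑ ^ q = ENNReal.ofReal (((k + 1 : ℕ) : ℝ) ^ (-(b * q))) := by
  rw [← ofReal_norm, Real.norm_of_nonneg (cs_pos b k).le,
    ENNReal.ofReal_rpow_of_nonneg (cs_pos b k).le hq]
  unfold cs
  rw [← Real.rpow_mul (by positivity)]
  push_cast
  congr 2
  ring

lemma cs_tsum_ne_top {b q : ℝ} (hq : 0 ≤ q) (hbq : 1 < b * q) :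
    ∑' k, ‖cs b k‖ₑ ^ q ≠ ⊤ := by
  simp_rw [enorm_cs_rpow b hq]
  apply Summable.tsum_ofReal_ne_top
  have h1 : Summable (fun n : ℕ => (n : ℝ) ^ (-(b * q))) :=
    Real.summable_nat_rpow.2 (by linarith)
  exact (summable_nat_add_iff 1).2 h1

lemma cs_sum_tendsto {b : ℝ} (hb : b ≤ 1) :
    Tendsto (fun K : ℕ => ∑ k ∈ Finset.range K, cs b k) atTop atTop := by
  rw [← not_summable_iff_tendsto_nat_atTop_of_nonneg (fun k => (cs_pos b k).le)]
  intro h
  have h1 : Summable (fun n : ℕ => ((n + 1 : ℕ) : ℝ) ^ (-b)) := by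
    refine h.congr (fun k => ?_)
    unfold cs
    push_cast
    rfl
  have h2 := (summable_nat_add_iff (f := fun n : ℕ => (n : ℝ) ^ (-b)) 1).1 h1
  have h3 := Real.summable_nat_rpow.1 h2
  linarith

lemma tsum_tr_le (K : ℕ) (c : ℕ → ℝ) {q : ℝ} (hq : 0 < q) :
    ∑' k, ‖tr K c k‖ₑ ^ q ≤ ∑' k, ‖c k‖ₑ ^ q := by
  refine ENNReal.tsum_le_tsum (fun k => ?_)
  unfold tr
  split_ifs
  · exact le_rfl
  · simp [hq]

lemma tsum_pt (J : ℕ) (δ : ℝ) {q : ℝ} (hq : 0 < q) :
    (∑' k, ‖pt J δ k‖ₑ ^ q) ^ (1 / q) = ‖δ‖ₑ := by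
  rw [tsum_eq_single J]
  · rw [pt, if_pos rfl, ← ENNReal.rpow_mul, mul_one_div_cancel hq.ne', ENNReal.rpow_one]
  · intro k hk
    rw [pt, if_neg hk]
    simp [hq]

lemma tsum_tl_tendsto {c : ℕ → ℝ} {q : ℝ} (hq : 0 < q) (hc : ∑' k, ‖c k‖ₑ ^ q ≠ ⊤) :
    Tendsto (fun K => (∑' k, ‖tl K c k‖ₑ ^ q) ^ (1 / q)) atTop (𝓝 0) := by
  have h1 := ENNReal.tendsto_sum_nat_add (fun k => ‖c k‖ₑ ^ q) hc
  have h2 : ∀ K, ∑' k, ‖tl K c k‖ₑ ^ q = ∑' k, ‖c (k + K)‖ₑ ^ q := by
    intro K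
    rw [← ENNReal.summable.sum_add_tsum_nat_add' (f := fun k => ‖tl K c k‖ₑ ^ q) (k := K)]
    have h3 : ∑ i ∈ Finset.range K, ‖tl K c i‖ₑ ^ q = 0 := by
      apply Finset.sum_eq_zero
      intro k hk
      rw [tl, if_pos (Finset.mem_range.1 hk)]
      simp [hq]
    rw [h3, zero_add]
    apply tsum_congr
    intro k
    rw [tl, if_neg (by omega)]
    simp
  simp_rw [h2]
  have h4 : Tendsto (fun a : ℝ≥0∞ => a ^ (1 / q)) (𝓝 0) (𝓝 (0 ^ (1 / q))) :=
    (ENNReal.continuous_rpow_const).tendsto 0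
  rw [ENNReal.zero_rpow_of_pos (by positivity)] at h4
  exact h4.comp h1

/-! ### The truncated profile -/

section
variable (c : ℕ → ℝ) (K : ℕ)

/-- first derivative of the truncated profile -/
noncomputable def tp1 (y : ℝ) : ℝ := ∑ k ∈ Finset.range K, c k * Real.cos (2 ^ k * y)
/-- second derivative of the truncated profile -/
noncomputable def tp2 (y : ℝ) : ℝ := ∑ k ∈ Finset.range K, -(c k * 2 ^ k * Real.sin (2 ^ k * y))
/-- third derivative of the truncated profile -/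
noncomputable def tp3 (y : ℝ) : ℝ := ∑ k ∈ Finset.range K, -(c k * 4 ^ k * Real.cos (2 ^ k * y))

theorem prof_tr : Prof (lac (tr K c)) (tp1 c K) (tp2 c K) (tp3 c K)
    (∑ k ∈ Finset.range K, |c k| * 4 ^ k) := by
  have hfun : lac (tr K c) =
      fun y => ∑ k ∈ Finset.range K, c k * (2⁻¹ : ℝ) ^ k * Real.sin (2 ^ k * y) := by
    ext y; exact lac_tr c K y
  have hlin : ∀ (k : ℕ) (y : ℝ), HasDerivAt (fun y : ℝ => 2 ^ k * y) (2 ^ k) y := by
    intro k y
    simpa using (hasDerivAt_id y).const_mul ((2 : ℝ) ^ k)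
  have hb : ∀ (a : ℕ → ℝ) (s : ℕ → ℝ → ℝ), (∀ k, |a k| ≤ |c k| * 4 ^ k) → (∀ k y, |s k y| ≤ 1) →
      ∀ y, |∑ k ∈ Finset.range K, a k * s k y| ≤ ∑ k ∈ Finset.range K, |c k| * 4 ^ k := by
    intro a s ha hs y
    refine (Finset.abs_sum_le_sum_abs _ _).trans (Finset.sum_le_sum (fun k _ => ?_))
    rw [abs_mul]
    calc |a k| * |s k y| ≤ |c k| * 4 ^ k * 1 :=
          mul_le_mul (ha k) (hs k y) (abs_nonneg _) (by positivity)
      _ = _ := mul_one _
  refine ⟨?_, ?_, ?_, ?_, ?_, ?_, ?_, ?_, ?_, ?_, ?_⟩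
  · intro y
    rw [hfun]
    have := HasDerivAt.fun_sum (u := Finset.range K)
      (A := fun k y => c k * (2⁻¹ : ℝ) ^ k * Real.sin (2 ^ k * y))
      (A' := fun k => c k * (2⁻¹ : ℝ) ^ k * (Real.cos (2 ^ k * y) * 2 ^ k)) (x := y)
      (fun k _ => ((hlin k y).sin).const_mul _)
    refine this.congr_deriv ?_
    unfold tp1
    refine Finset.sum_congr rfl (fun k _ => ?_)
    rw [inv_pow]
    field_simp
  · intro y
    have := HasDerivAt.fun_sum (u := Finset.range K)
      (A := fun k y => c k * Real.cos (2 ^ k * y))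
      (A' := fun k => c k * (-Real.sin (2 ^ k * y) * 2 ^ k)) (x := y)
      (fun k _ => ((hlin k y).cos).const_mul _)
    refine this.congr_deriv ?_
    unfold tp2
    refine Finset.sum_congr rfl (fun k _ => ?_)
    ring
  · intro y
    have := HasDerivAt.fun_sum (u := Finset.range K)
      (A := fun k y => -(c k * 2 ^ k * Real.sin (2 ^ k * y)))
      (A' := fun k => -(c k * 2 ^ k * (Real.cos (2 ^ k * y) * 2 ^ k))) (x := y)
      (fun k _ => (((hlin k y).sin).const_mul _).neg)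
    refine this.congr_deriv ?_
    unfold tp3
    refine Finset.sum_congr rfl (fun k _ => ?_)
    have : (4 : ℝ) ^ k = 2 ^ k * 2 ^ k := by rw [← mul_pow]; norm_num
    rw [this]
    ring
  · rw [hfun]
    exact ContDiff.sum (fun k _ => contDiff_const.mul
      (Real.contDiff_sin.comp (contDiff_const.mul contDiff_id)))
  · unfold tp1
    exact ContDiff.sum (fun k _ => contDiff_const.mul
      (Real.contDiff_cos.comp (contDiff_const.mul contDiff_id)))
  · unfold tp2
    exact ContDiff.sum (fun k _ => (contDiff_const.mul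
      (Real.contDiff_sin.comp (contDiff_const.mul contDiff_id))).neg)
  · unfold tp3
    fun_prop
  · intro y
    rw [lac_tr]
    refine hb _ _ (fun k => ?_) (fun k y => Real.abs_sin_le_one _) y
    rw [abs_mul, abs_of_pos (by positivity : (0 : ℝ) < 2⁻¹ ^ k)]
    gcongr
    norm_num
  · intro y
    refine hb _ _ (fun k => ?_) (fun k y => Real.abs_cos_le_one (2 ^ k * y)) y
    exact le_mul_of_one_le_right (abs_nonneg _) (one_le_pow₀ (by norm_num))
  · intro y
    have := hb (fun k => -(c k * 2 ^ k)) (fun k y => Real.sin (2 ^ k * y)) (fun k => ?_)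
      (fun k y => Real.abs_sin_le_one _) y
    · simp only [neg_mul] at this
      exact this
    · rw [abs_neg, abs_mul, abs_of_pos (by positivity : (0 : ℝ) < 2 ^ k)]
      gcongr
      norm_num
  · intro y
    have := hb (fun k => -(c k * 4 ^ k)) (fun k y => Real.cos (2 ^ k * y)) (fun k => ?_)
      (fun k y => Real.abs_cos_le_one _) y
    · simp only [neg_mul] at this
      exact this
    · rw [abs_neg, abs_mul, abs_of_pos (by positivity : (0 : ℝ) < 4 ^ k)]

lemma tp1_periodic : Function.Periodic (tp1 c K) (2 * Real.pi) := by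
  intro y
  unfold tp1
  refine Finset.sum_congr rfl (fun k _ => ?_)
  congr 1
  have : (2 : ℝ) ^ k * (y + 2 * Real.pi) = 2 ^ k * y + (2 ^ k : ℕ) * (2 * Real.pi) := by
    push_cast; ring
  rw [this, Real.cos_add_nat_mul_two_pi]

lemma tp1_zero : tp1 c K 0 = ∑ k ∈ Finset.range K, c k := by
  unfold tp1
  simp

lemma cos_two_pow (k : ℕ) : Real.cos (2 ^ k * (2 * Real.pi / 3)) = -(1 / 2) := by
  induction k with
  | zero =>
    rw [pow_zero, one_mul]
    have : 2 * Real.pi / 3 = Real.pi - Real.pi / 3 := by ring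
    rw [this, Real.cos_pi_sub, Real.cos_pi_div_three]
  | succ k ih =>
    have : (2 : ℝ) ^ (k + 1) * (2 * Real.pi / 3) = 2 * (2 ^ k * (2 * Real.pi / 3)) := by
      rw [pow_succ]; ring
    rw [this, Real.cos_two_mul, ih]
    norm_num

lemma tp1_third : tp1 c K (2 * Real.pi / 3) = -(1 / 2) * ∑ k ∈ Finset.range K, c k := by
  unfold tp1
  rw [Finset.mul_sum]
  refine Finset.sum_congr rfl (fun k _ => ?_)
  rw [cos_two_pow]
  ring

end

/-- every level between 0 and the maximum is attained -/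
lemma tp1_attains {b : ℝ} {K : ℕ} {a : ℝ} (ha : 0 ≤ a)
    (haK : a ≤ ∑ k ∈ Finset.range K, cs b k) : ∃ y, tp1 (cs b) K y = a := by
  have hc : Continuous (tp1 (cs b) K) := (prof_tr (cs b) K).s1.continuous
  have h0 : 0 ≤ ∑ k ∈ Finset.range K, cs b k :=
    Finset.sum_nonneg (fun k _ => (cs_pos b k).le)
  refine mem_range_of_exists_le_of_exists_ge hc ⟨2 * Real.pi / 3, ?_⟩ ⟨0, ?_⟩
  · rw [tp1_third]
    linarith
  · rw [tp1_zero]
    exact haK

/-! ### Divergence-free property of the shears -/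

lemma sh_divFree {c : ℕ → ℝ} {A : ℝ} (hc : Bdd c A) {i j : Fin n} (hij : i ≠ j) :
    WeaklyDivFree (sh c i j : E n → E n) := by
  intro ψ hψ hψc
  have hcont : Continuous (fun x : E n => lac c (x i)) := hc.lac_continuous.comp (coord_cont i)
  have c2 : Continuous (fun x => fderiv ℝ ψ x (eb j)) :=
    (hψ.continuous_fderiv (by simp)).clm_apply continuous_const
  have e1 : ∀ x, fderiv ℝ ψ x (sh c i j x) = lac c (x i) * fderiv ℝ ψ x (eb j) := by
    intro x
    rw [sh, map_smul, smul_eq_mul]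
  simp_rw [e1]
  have h := integral_bilinear_hasLineDerivAt_right_eq_neg_left_of_integrable
    (μ := (volume : Measure (E n))) (f := fun x => lac c (x i)) (f' := fun _ => 0)
    (g := ψ) (g' := fun x => fderiv ℝ ψ x (eb j)) (v := eb j)
    (B := ContinuousLinearMap.mul ℝ ℝ) ?_ ?_ ?_ ?_ ?_
  · simpa using h
  · simp
  · refine (hcont.mul c2).integrable_of_hasCompactSupport
      (HasCompactSupport.intro (hψc.fderiv ℝ) (fun x hx => ?_))
    simp only [Pi.mul_apply]
    rw [image_eq_zero_of_notMem_tsupport hx]; simp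
  · exact (hcont.mul hψ.continuous).integrable_of_hasCompactSupport hψc.mul_left
  · intro x _
    have h1 : ∀ t : ℝ, lac c ((x + t • (eb j : E n)) i) = lac c (x i) := by
      intro t
      congr 1
      simp [eb, hij]
    unfold HasLineDerivAt
    simp_rw [h1]
    exact hasDerivAt_const _ _
  · intro x _
    exact ((hψ.differentiable (by simp) x).hasFDerivAt).hasLineDerivAt _

end Pool.Agent.MP_f6d183_an
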