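import Mathlib
import Pool.Agent.MP_f6d183_an.Energy

set_option autoImplicit false

/-!
# Mollification of weak solutions of the Euler equations
-/

namespace Pool.Agent.MP_f6d183_an

open MeasureTheory Set Filter Topology
open scoped ENNReal ContDiff RealInnerProductSpace Convolution

variable {n : ℕ}

section basic

variable {F : Type*} [NormedAddCommGroup F] [NormedSpace ℝ F]

/-- mollification (convolution with `η`) -/
noncomputable def mol (η : E n → ℝ) (g : E n → F) (x : E n) : F := ∫ y, η y • g (x - y)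

lemma mol_eq (η : E n → ℝ) (g : E n → F) :
    mol η g = (η ⋆[ContinuousLinearMap.lsmul ℝ ℝ, volume] g) := rfl

/-- mollifiers at scale `κ` -/
structure Moll (η : E n → ℝ) (κ A : ℝ) : Prop where
  smooth : ContDiff ℝ ∞ η
  nonneg : ∀ y, 0 ≤ η y
  supp : ∀ y, κ < ‖y‖ → η y = 0
  integral : ∫ y, η y = 1
  deriv : ∫ y, ‖fderiv ℝ η y‖ ≤ A / κ

variable {η : E n → ℝ} {κ A : ℝ}

lemma Moll.tsupport_subset (h : Moll η κ A) : tsupport η ⊆ Metric.closedBall 0 κ := by
  refine closure_minimal (fun y hy => ?_) Metric.isClosed_closedBall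
  rw [mem_closedBall_zero_iff]
  by_contra h1
  exact hy (h.supp y (not_le.1 h1))

lemma Moll.compact (h : Moll η κ A) : HasCompactSupport η :=
  HasCompactSupport.of_support_subset_isCompact (isCompact_closedBall (0 : E n) κ)
    (subset_closure.trans h.tsupport_subset)

lemma exists_moll (n : ℕ) : ∃ A : ℝ, 0 ≤ A ∧ ∀ κ : ℝ, 0 < κ → ∃ η : E n → ℝ, Moll η κ A := by
  let φ : ContDiffBump (0 : E n) := ⟨1 / 2, 1, by norm_num, by norm_num⟩
  set θ : E n → ℝ := φ.normed volume with hθ
  refine ⟨∫ y, ‖fderiv ℝ θ y‖, integral_nonneg (fun _ => norm_nonneg _), ?_⟩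
  intro κ hκ
  have hθs : ContDiff ℝ ∞ θ := φ.contDiff_normed
  have hκn : 0 < κ ^ n := by positivity
  have hd : ∀ y, HasFDerivAt (fun y : E n => (κ ^ n)⁻¹ * θ (κ⁻¹ • y))
      ((κ ^ n)⁻¹ • (fderiv ℝ θ (κ⁻¹ • y)).comp (κ⁻¹ • ContinuousLinearMap.id ℝ (E n))) y := by
    intro y
    have h1 : HasFDerivAt θ (fderiv ℝ θ (κ⁻¹ • y)) (κ⁻¹ • y) :=
      (hθs.differentiable (by simp) _).hasFDerivAt
    exact (h1.comp y ((hasFDerivAt_id y).const_smul κ⁻¹)).const_mul _
  refine ⟨fun y => (κ ^ n)⁻¹ * θ (κ⁻¹ • y), ?_, ?_, ?_, ?_, ?_⟩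
  · exact contDiff_const.mul (hθs.comp (contDiff_id.const_smul κ⁻¹))
  · intro y
    exact mul_nonneg (by positivity) (φ.nonneg_normed _)
  · intro y hy
    have h1 : θ (κ⁻¹ • y) = 0 := by
      have h2 : κ⁻¹ • y ∉ Function.support θ := by
        rw [hθ, φ.support_normed_eq, Metric.mem_ball, dist_zero_right, norm_smul, norm_inv,
          Real.norm_of_nonneg hκ.le, not_lt]
        show (1 : ℝ) ≤ κ⁻¹ * ‖y‖
        rw [inv_mul_eq_div, le_div_iff₀ hκ]
        linarith
      simpa using h2
    simp [h1]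
  · rw [integral_const_mul, Measure.integral_comp_smul, finrank_euclideanSpace_fin, hθ,
      φ.integral_normed]
    rw [abs_of_pos (by positivity), inv_pow, inv_inv, smul_eq_mul, mul_one,
      inv_mul_cancel₀ hκn.ne']
  · have h1 : ∀ y, ‖fderiv ℝ (fun y : E n => (κ ^ n)⁻¹ * θ (κ⁻¹ • y)) y‖ =
        (κ ^ n)⁻¹ * κ⁻¹ * ‖fderiv ℝ θ (κ⁻¹ • y)‖ := by
      intro y
      rw [(hd y).fderiv, norm_smul]
      have h2 : (fderiv ℝ θ (κ⁻¹ • y)).comp (κ⁻¹ • ContinuousLinearMap.id ℝ (E n)) =
          κ⁻¹ • fderiv ℝ θ (κ⁻¹ • y) := by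
        ext v; simp
      rw [h2, norm_smul, Real.norm_of_nonneg (by positivity), Real.norm_of_nonneg (by positivity)]
      ring
    simp_rw [h1]
    rw [integral_const_mul, Measure.integral_comp_smul (μ := (volume : Measure (E n)))
      (fun y => ‖fderiv ℝ θ y‖) κ⁻¹, finrank_euclideanSpace_fin, abs_of_pos (by positivity),
      inv_pow, inv_inv, smul_eq_mul]
    apply le_of_eq
    field_simp

lemma Moll.integrable (h : Moll η κ A) : Integrable η :=
  h.smooth.continuous.integrable_of_hasCompactSupport h.compact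

lemma Moll.integrable_fderiv (h : Moll η κ A) : Integrable (fun y => ‖fderiv ℝ η y‖) :=
  ((h.smooth.continuous_fderiv (by simp)).integrable_of_hasCompactSupport
    (h.compact.fderiv ℝ)).norm

lemma Moll.fderiv_zero (h : Moll η κ A) {y : E n} (hy : κ < ‖y‖) : fderiv ℝ η y = 0 := by
  have h1 : y ∉ tsupport (fderiv ℝ η) := by
    intro h2
    have h3 := h.tsupport_subset (tsupport_fderiv_subset ℝ h2)
    rw [mem_closedBall_zero_iff] at h3
    linarith
  exact image_eq_zero_of_notMem_tsupport h1

lemma integrable_smul_sub {k : E n → ℝ} (hk : Continuous k) (hkc : HasCompactSupport k)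
    {g : E n → F} (hg : Continuous g) (x : E n) : Integrable (fun y => k y • g (x - y)) :=
  (by fun_prop : Continuous (fun y => k y • g (x - y))).integrable_of_hasCompactSupport
    hkc.smul_right

/-- the basic bound for mollifications -/
lemma Moll.norm_sub_le [CompleteSpace F] (h : Moll η κ A) {g : E n → F} (hg : Continuous g)
    {x : E n} {c : F} {B : ℝ} (hB : ∀ y, ‖y‖ ≤ κ → ‖g (x - y) - c‖ ≤ B) :
    ‖mol η g x - c‖ ≤ B := by
  have e1 : mol η g x - c = ∫ y, η y • (g (x - y) - c) := by
    simp_rw [smul_sub]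
    rw [integral_sub (integrable_smul_sub h.smooth.continuous h.compact hg x)
      (h.integrable.smul_const c), integral_smul_const, h.integral, one_smul]
    rfl
  have e2 : B = ∫ y, η y * B := by rw [integral_mul_const, h.integral, one_mul]
  rw [e1, e2]
  refine norm_integral_le_of_norm_le (h.integrable.mul_const B) (Eventually.of_forall (fun y => ?_))
  rw [norm_smul, Real.norm_of_nonneg (h.nonneg y)]
  rcases le_or_gt ‖y‖ κ with h1 | h1
  · exact mul_le_mul_of_nonneg_left (hB y h1) (h.nonneg y)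
  · rw [h.supp y h1]; simp

lemma contDiff_mol (hη : ContDiff ℝ ∞ η) (hc : HasCompactSupport η) {g : E n → F}
    (hg : Continuous g) : ContDiff ℝ ∞ (mol η g) := by
  rw [mol_eq]
  exact hc.contDiff_convolution_left (n := ⊤) _ hη hg.locallyIntegrable

lemma fderiv_mol [CompleteSpace F] (hη : ContDiff ℝ ∞ η) (hc : HasCompactSupport η)
    {g : E n → F} (hg : Continuous g) (x h : E n) :
    fderiv ℝ (mol η g) x h = ∫ y, (fderiv ℝ η y h) • g (x - y) := by
  have h1 := hc.hasFDerivAt_convolution_left (μ := (volume : Measure (E n)))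
    (ContinuousLinearMap.lsmul ℝ ℝ) (hη.of_le (by simp)) (hg.locallyIntegrable (μ := volume)) x
  rw [← mol_eq] at h1
  rw [h1.fderiv]
  have h2 : Integrable (fun t => (((ContinuousLinearMap.lsmul ℝ ℝ).precompL (E n))
      (fderiv ℝ η t)) (g (x - t))) :=
    (hc.fderiv ℝ).convolutionExists_left _ (hη.continuous_fderiv (by simp))
      hg.locallyIntegrable x
  rw [convolution_def, ContinuousLinearMap.integral_apply h2]
  rfl

end basic

/-- joint continuity of parametric integrals -/
lemma continuousOn_param {G F : Type*} [TopologicalSpace G] [NormedAddCommGroup F]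
    [NormedSpace ℝ F] {Ψ : E n → G → F} (hΨ : Continuous (Function.uncurry Ψ)) {k : Set (E n)}
    (hk : IsCompact k) (h0 : ∀ y, y ∉ k → ∀ z, Ψ y z = 0) {g : ℝ → E n → G} {S : Set ℝ}
    (hg : ContinuousOn (Function.uncurry g) (S ×ˢ univ)) :
    ContinuousOn (fun p : ℝ × E n => ∫ y, Ψ y (g p.1 (p.2 - y))) (S ×ˢ univ) := by
  refine continuousOn_integral_of_compact_support (k := k) hk ?_ (fun p y _ hy => h0 y hy _)
  have h1 : ContinuousOn (fun q : (ℝ × E n) × E n => Function.uncurry g (q.1.1, q.1.2 - q.2))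
      ((S ×ˢ univ) ×ˢ univ) := by
    refine hg.comp (f := fun q : (ℝ × E n) × E n => (q.1.1, q.1.2 - q.2)) ?_ ?_
    · exact (by fun_prop : Continuous (fun q : (ℝ × E n) × E n => (q.1.1, q.1.2 - q.2))).continuousOn
    · intro q hq
      exact ⟨hq.1.1, mem_univ _⟩
  exact hΨ.comp_continuousOn (continuousOn_snd.prodMk h1)

lemma continuous_gradient {ψ : E n → ℝ} (hψ : ContDiff ℝ ∞ ψ) : Continuous (gradient ψ) := by
  have h1 : Continuous (fderiv ℝ ψ) := hψ.continuous_fderiv (by simp)
  exact (InnerProductSpace.toDual ℝ (E n)).symm.continuous.comp h1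

lemma gradient_zero_of_notMem {ψ : E n → ℝ} {x : E n} (hx : x ∉ tsupport ψ) :
    gradient ψ x = 0 := by
  have h1 : x ∉ tsupport (fderiv ℝ ψ) := fun h => hx (tsupport_fderiv_subset ℝ h)
  unfold gradient
  rw [image_eq_zero_of_notMem_tsupport h1, map_zero]

lemma inner_gradient' (ψ : E n → ℝ) (x h : E n) : ⟪gradient ψ x, h⟫ = fderiv ℝ ψ x h :=
  InnerProductSpace.toDual_symm_apply

/-- weak solutions with Hölder regularity in space -/
structure WeakFlow (T : ℝ) (v : ℝ → E n → E n) (p : ℝ → E n → ℝ) (M H : ℝ) : Prop where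
  cont : ContinuousOn (Function.uncurry v) (Icc 0 T ×ˢ univ)
  pcont : ContinuousOn (Function.uncurry p) (Icc 0 T ×ˢ univ)
  bound : ∀ t ∈ Icc 0 T, ∀ x, ‖v t x‖ ≤ M
  holder : ∀ t ∈ Icc 0 T, ∀ x z, ‖v t (x + z) - v t x‖ ≤ H * ‖z‖ ^ (3 / 4 : ℝ)
  divFree : ∀ t ∈ Icc 0 T, WeaklyDivFree (v t)
  momentum : ∀ ψ : E n → ℝ, ContDiff ℝ ∞ ψ → HasCompactSupport ψ → ∀ t ∈ Icc 0 T,
    (∫ x, ψ x • v t x) - ∫ x, ψ x • v 0 x =
      ∫ s in (0 : ℝ)..t,
        ((∫ x, (fderiv ℝ ψ x (v s x)) • v s x) + ∫ x, p s x • gradient ψ x)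

/-- mollified quadratic term -/
noncomputable def Nf (η : E n → ℝ) (v : ℝ → E n → E n) (t : ℝ) (x : E n) : E n :=
  ∫ y, (fderiv ℝ η y (v t (x - y))) • v t (x - y)

/-- gradient of the mollified pressure -/
noncomputable def Qf (η : E n → ℝ) (p : ℝ → E n → ℝ) (t : ℝ) (x : E n) : E n :=
  ∫ y, p t (x - y) • gradient η y

section
variable {T M H κ A : ℝ} {v : ℝ → E n → E n} {p : ℝ → E n → ℝ} {η : E n → ℝ}

lemma slice_continuous {G : Type*} [TopologicalSpace G] {v : ℝ → E n → G} {S : Set ℝ}
    (h : ContinuousOn (Function.uncurry v) (S ×ˢ univ)) {t : ℝ} (ht : t ∈ S) :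
    Continuous (v t) := by
  have h2 : Continuous (fun x : E n => (t, x)) := by fun_prop
  have h3 : ContinuousOn (fun x : E n => Function.uncurry v (t, x)) univ :=
    h.comp h2.continuousOn (fun x _ => by simp [ht])
  exact continuousOn_univ.1 h3

lemma Nf_continuousOn (hη : ContDiff ℝ ∞ η) (hc : HasCompactSupport η)
    (hv : ContinuousOn (Function.uncurry v) (Icc 0 T ×ˢ univ)) :
    ContinuousOn (fun q : ℝ × E n => Nf η v q.1 q.2) (Icc 0 T ×ˢ univ) := by
  refine continuousOn_param (Ψ := fun y (z : E n) => (fderiv ℝ η y z) • z) (k := tsupport η)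
    ?_ hc ?_ hv
  · have h1 : Continuous (fderiv ℝ η) := hη.continuous_fderiv (by simp)
    exact ((h1.comp continuous_fst).clm_apply continuous_snd).smul continuous_snd
  · intro y hy z
    have h1 : y ∉ tsupport (fderiv ℝ η) := fun h => hy (tsupport_fderiv_subset ℝ h)
    rw [image_eq_zero_of_notMem_tsupport h1]; simp

lemma Qf_continuousOn (hη : ContDiff ℝ ∞ η) (hc : HasCompactSupport η)
    (hp : ContinuousOn (Function.uncurry p) (Icc 0 T ×ˢ univ)) :
    ContinuousOn (fun q : ℝ × E n => Qf η p q.1 q.2) (Icc 0 T ×ˢ univ) := by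
  refine continuousOn_param (Ψ := fun y (z : ℝ) => z • gradient η y) (k := tsupport η)
    ?_ hc ?_ hp
  · exact continuous_snd.smul ((continuous_gradient hη).comp continuous_fst)
  · intro y hy z
    rw [gradient_zero_of_notMem hy]; simp

lemma mol_continuousOn {F : Type*} [NormedAddCommGroup F] [NormedSpace ℝ F]
    {v : ℝ → E n → F} (hη : ContDiff ℝ ∞ η) (hc : HasCompactSupport η)
    (hv : ContinuousOn (Function.uncurry v) (Icc 0 T ×ˢ univ)) :
    ContinuousOn (fun q : ℝ × E n => mol η (v q.1) q.2) (Icc 0 T ×ˢ univ) := by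
  refine continuousOn_param (Ψ := fun y (z : F) => η y • z) (k := tsupport η) ?_ hc ?_ hv
  · exact (hη.continuous.comp continuous_fst).smul continuous_snd
  · intro y hy z
    rw [image_eq_zero_of_notMem_tsupport hy, zero_smul]

lemma gradient_mol (hη : ContDiff ℝ ∞ η) (hc : HasCompactSupport η) {t : ℝ}
    (hp : Continuous (p t)) (x : E n) : gradient (mol η (p t)) x = Qf η p t x := by
  refine ext_inner_right ℝ (fun h => ?_)
  rw [inner_gradient', fderiv_mol hη hc hp]
  unfold Qf
  have i1 : Integrable (fun y => p t (x - y) • gradient η y) := by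
    have h1 : Continuous (fun y => p t (x - y)) := by fun_prop
    refine (h1.smul (continuous_gradient hη)).integrable_of_hasCompactSupport ?_
    refine HasCompactSupport.intro hc (fun y hy => ?_)
    show p t (x - y) • gradient η y = 0
    rw [gradient_zero_of_notMem hy, smul_zero]
  rw [real_inner_comm, ← integral_inner i1]
  congr 1
  ext1 y
  rw [real_inner_comm, inner_smul_left, inner_gradient']
  simp [mul_comm]

/-- the reflected test function -/
lemma reflect_smooth (hη : ContDiff ℝ ∞ η) (x : E n) : ContDiff ℝ ∞ (fun y => η (x - y)) :=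
  hη.comp (contDiff_const.sub contDiff_id)

lemma reflect_compact (hc : HasCompactSupport η) (x : E n) :
    HasCompactSupport (fun y => η (x - y)) :=
  hc.comp_homeomorph (Homeomorph.subLeft x)

lemma reflect_fderiv (hη : ContDiff ℝ ∞ η) (x y h : E n) :
    fderiv ℝ (fun y => η (x - y)) y h = - fderiv ℝ η (x - y) h := by
  have h1 : HasFDerivAt η (fderiv ℝ η (x - y)) (x - y) :=
    (hη.differentiable (by simp) _).hasFDerivAt
  have h2 := h1.comp y ((hasFDerivAt_const x y).sub (hasFDerivAt_id y))
  have h3 : fderiv ℝ (fun y => η (x - y)) y = _ := h2.fderiv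
  rw [h3]
  simp

lemma reflect_gradient (hη : ContDiff ℝ ∞ η) (x y : E n) :
    gradient (fun y => η (x - y)) y = - gradient η (x - y) := by
  refine ext_inner_right ℝ (fun h => ?_)
  rw [inner_gradient', reflect_fderiv hη, inner_neg_left, inner_gradient']

lemma WeakFlow.mol_time (h : WeakFlow T v p M H) (hη : ContDiff ℝ ∞ η)
    (hc : HasCompactSupport η) (x : E n) {t : ℝ} (ht : t ∈ Icc 0 T) :
    mol η (v t) x - mol η (v 0) x = ∫ s in (0 : ℝ)..t, -(Nf η v s x + Qf η p s x) := by
  have h1 := h.momentum (fun y => η (x - y)) (reflect_smooth hη x) (reflect_compact hc x) t ht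
  have e1 : ∀ t, ∫ y, η (x - y) • v t y = mol η (v t) x := by
    intro t
    have := integral_sub_left_eq_self (fun y => η y • v t (x - y)) volume x
    simp only [sub_sub_cancel] at this
    exact this
  rw [e1, e1] at h1
  rw [h1]
  congr 1
  ext1 s
  have e2 : (∫ y, (fderiv ℝ (fun y => η (x - y)) y (v s y)) • v s y) = - Nf η v s x := by
    have := integral_sub_left_eq_self
      (fun y => (fderiv ℝ η y (v s (x - y))) • v s (x - y)) volume x
    simp only [sub_sub_cancel] at this
    unfold Nf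
    rw [← this, ← integral_neg]
    congr 1
    ext1 y
    rw [reflect_fderiv hη, neg_smul]
  have e3 : (∫ y, p s y • gradient (fun y => η (x - y)) y) = - Qf η p s x := by
    have := integral_sub_left_eq_self (fun y => p s (x - y) • gradient η y) volume x
    simp only [sub_sub_cancel] at this
    unfold Qf
    rw [← this, ← integral_neg]
    congr 1
    ext1 y
    rw [reflect_gradient hη, smul_neg]
  rw [e2, e3, neg_add]

lemma WeakFlow.mol_deriv (h : WeakFlow T v p M H) (hη : ContDiff ℝ ∞ η)
    (hc : HasCompactSupport η) (x : E n) {t : ℝ} (ht : t ∈ Ioo 0 T) :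
    HasDerivAt (fun s => mol η (v s) x) (-(Nf η v t x + Qf η p t x)) t := by
  set f : ℝ → E n := fun s => -(Nf η v s x + Qf η p s x) with hf
  have hfc : ContinuousOn f (Icc 0 T) := by
    have e1 : ContinuousOn (fun q : ℝ × E n => -(Nf η v q.1 q.2 + Qf η p q.1 q.2))
        (Icc 0 T ×ˢ univ) :=
      ((Nf_continuousOn hη hc h.cont).add (Qf_continuousOn hη hc h.pcont)).neg
    exact e1.comp (f := fun s : ℝ => (s, x)) (by fun_prop) (fun s hs => ⟨hs, mem_univ _⟩)
  have hnhds : Icc 0 T ∈ 𝓝 t := Icc_mem_nhds ht.1 ht.2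
  have h1 : HasDerivAt (fun u => ∫ s in (0 : ℝ)..u, f s) (f t) t := by
    refine intervalIntegral.integral_hasDerivAt_right ?_ ?_ (hfc.continuousAt hnhds)
    · exact (hfc.mono (Icc_subset_Icc_right ht.2.le)).intervalIntegrable_of_Icc ht.1.le
    · exact ContinuousOn.stronglyMeasurableAtFilter isOpen_Ioo (hfc.mono Ioo_subset_Icc_self) t ht
  have h2 : HasDerivAt (fun u => mol η (v 0) x + ∫ s in (0 : ℝ)..u, f s) (f t) t :=
    h1.const_add _
  refine h2.congr_of_eventuallyEq ?_
  filter_upwards [hnhds] with s hs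
  rw [← h.mol_time hη hc x hs]
  abel

/-- mollification preserves the divergence-free condition -/
lemma mol_divFree (hη : ContDiff ℝ ∞ η) (hc : HasCompactSupport η) {g : E n → E n}
    (hg : Continuous g) (hdiv : WeaklyDivFree g) : WeaklyDivFree (mol η g) := by
  intro ψ hψ hψc
  have hDψ : Continuous (fderiv ℝ ψ) := hψ.continuous_fderiv (by simp)
  have e1 : ∀ x, fderiv ℝ ψ x (mol η g x) = ∫ y, η y * fderiv ℝ ψ x (g (x - y)) := by
    intro x
    unfold mol
    rw [← ContinuousLinearMap.integral_comp_comm _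
      (integrable_smul_sub hη.continuous hc hg x)]
    congr 1
    ext1 y
    rw [map_smul, smul_eq_mul]
  simp_rw [e1]
  rw [integral_integral_swap]
  · have e2 : ∀ y, ∫ x, η y * fderiv ℝ ψ x (g (x - y)) = 0 := by
      intro y
      rw [integral_const_mul]
      have e3 := integral_sub_right_eq_self (μ := (volume : Measure (E n)))
        (fun x => fderiv ℝ ψ (x + y) (g x)) y
      simp only [sub_add_cancel] at e3
      rw [e3]
      have e4 : ∀ x, fderiv ℝ ψ (x + y) = fderiv ℝ (fun x => ψ (x + y)) x := by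
        intro x
        rw [fderiv_comp_add_right]
      simp_rw [e4]
      rw [hdiv (fun x => ψ (x + y)) (hψ.comp (contDiff_id.add contDiff_const))
        (hψc.comp_homeomorph (Homeomorph.addRight y)), mul_zero]
    simp [e2]
  · have hcont : Continuous (fun q : E n × E n => η q.2 * fderiv ℝ ψ q.1 (g (q.1 - q.2))) := by
      have h1 : Continuous (fun q : E n × E n => fderiv ℝ ψ q.1 (g (q.1 - q.2))) :=
        (hDψ.comp continuous_fst).clm_apply (by fun_prop)
      exact (hη.continuous.comp continuous_snd).mul h1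
    refine hcont.integrable_of_hasCompactSupport ?_
    refine HasCompactSupport.intro (hψc.prod hc) (fun q hq => ?_)
    by_cases h1 : q.1 ∈ tsupport ψ
    · have h2 : q.2 ∉ tsupport η := fun h2 => hq ⟨h1, h2⟩
      rw [image_eq_zero_of_notMem_tsupport h2, zero_mul]
    · have h2 : q.1 ∉ tsupport (fderiv ℝ ψ) := fun h => h1 (tsupport_fderiv_subset ℝ h)
      rw [image_eq_zero_of_notMem_tsupport h2]; simp

lemma integral_fderiv_zero (hη : ContDiff ℝ ∞ η) (hc : HasCompactSupport η) (m : E n) :
    ∫ y, fderiv ℝ η y m = 0 := by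
  have h1 := fderiv_mol hη hc (g := fun _ => (1 : ℝ)) continuous_const 0 m
  have h2 : mol η (fun _ => (1 : ℝ)) = fun _ => ∫ y, η y := by
    ext1 x
    simp [mol]
  rw [h2] at h1
  simp only [smul_eq_mul, mul_one] at h1
  rw [← h1]
  simp

lemma integral_fderiv_div (hη : ContDiff ℝ ∞ η) (hc : HasCompactSupport η) {g : E n → E n}
    (hdiv : WeaklyDivFree g) (x : E n) : ∫ y, fderiv ℝ η y (g (x - y)) = 0 := by
  have h1 := hdiv (fun y => η (x - y)) (reflect_smooth hη x) (reflect_compact hc x)
  simp_rw [reflect_fderiv hη] at h1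
  rw [integral_neg, neg_eq_zero] at h1
  have := integral_sub_left_eq_self (fun y => fderiv ℝ η y (g (x - y))) volume x
  simp only [sub_sub_cancel] at this
  rw [← this]
  exact h1

/-- the commutator identity -/
lemma commutator_eq (hη : ContDiff ℝ ∞ η) (hc : HasCompactSupport η) {g : E n → E n}
    (hg : Continuous g) (hdiv : WeaklyDivFree g) (x m : E n) :
    (∫ y, (fderiv ℝ η y (g (x - y))) • g (x - y)) - (∫ y, (fderiv ℝ η y m) • g (x - y)) =
      ∫ y, (fderiv ℝ η y (g (x - y) - m)) • (g (x - y) - m) := by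
  have hD : Continuous (fderiv ℝ η) := hη.continuous_fderiv (by simp)
  have cs : ∀ {G : Type} [NormedAddCommGroup G] {f : E n → G}, Continuous f →
      (∀ y, fderiv ℝ η y = 0 → f y = 0) → Integrable f := by
    intro G _ f hf h0
    refine hf.integrable_of_hasCompactSupport (HasCompactSupport.intro (hc.fderiv ℝ)
      (fun y hy => h0 y (image_eq_zero_of_notMem_tsupport hy)))
  have hgx : Continuous (fun y => g (x - y)) := by fun_prop
  have c1 : Continuous (fun y => fderiv ℝ η y (g (x - y))) := hD.clm_apply hgx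
  have c2 : Continuous (fun y => fderiv ℝ η y m) := hD.clm_apply continuous_const
  have i1 : Integrable (fun y => (fderiv ℝ η y (g (x - y))) • g (x - y)) :=
    cs (c1.smul hgx) (fun y hy => by simp [hy])
  have i2 : Integrable (fun y => (fderiv ℝ η y m) • g (x - y)) :=
    cs (c2.smul hgx) (fun y hy => by simp [hy])
  have i3 : Integrable (fun y => (fderiv ℝ η y (g (x - y))) • m) :=
    cs (c1.smul continuous_const) (fun y hy => by simp [hy])
  have i4 : Integrable (fun y => (fderiv ℝ η y m) • m) :=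
    cs (c2.smul continuous_const) (fun y hy => by simp [hy])
  have z3 : ∫ y, (fderiv ℝ η y (g (x - y))) • m = 0 := by
    rw [integral_smul_const, integral_fderiv_div hη hc hdiv, zero_smul]
  have z4 : ∫ y, (fderiv ℝ η y m) • m = 0 := by
    rw [integral_smul_const, integral_fderiv_zero hη hc, zero_smul]
  have e1 : ∀ y, (fderiv ℝ η y (g (x - y) - m)) • (g (x - y) - m) =
      ((fderiv ℝ η y (g (x - y))) • g (x - y) - (fderiv ℝ η y m) • g (x - y)) -
      ((fderiv ℝ η y (g (x - y))) • m - (fderiv ℝ η y m) • m) := by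
    intro y
    rw [map_sub, sub_smul, smul_sub, smul_sub]
    abel
  simp_rw [e1]
  have i12 : Integrable (fun y => (fderiv ℝ η y (g (x - y))) • g (x - y) -
    (fderiv ℝ η y m) • g (x - y)) := i1.sub i2
  have i34 : Integrable (fun y => (fderiv ℝ η y (g (x - y))) • m - (fderiv ℝ η y m) • m) :=
    i3.sub i4
  rw [integral_sub i12 i34, integral_sub i1 i2, integral_sub i3 i4, z3, z4]
  simp

/-- The mollification of a weak solution is an approximate solution. -/
theorem WeakFlow.flow (h : WeakFlow T v p M H) (hη : Moll η κ A) (hκ : 0 < κ) (hH : 0 ≤ H) :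
    Flow T (fun t => mol η (v t)) (fun t => mol η (p t))
      (fun t x => -(Nf η v t x + Qf η p t x)) M
      (A / κ * (H * (2 * κ) ^ (3 / 4 : ℝ)) ^ 2) where
  cont := mol_continuousOn hη.smooth hη.compact h.cont
  ut_cont := ((Nf_continuousOn hη.smooth hη.compact h.cont).add
    (Qf_continuousOn hη.smooth hη.compact h.pcont)).neg
  smooth := fun t ht => contDiff_mol hη.smooth hη.compact (slice_continuous h.cont ht)
  psmooth := fun t ht => contDiff_mol hη.smooth hη.compact (slice_continuous h.pcont ht)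
  deriv := fun t ht x => h.mol_deriv hη.smooth hη.compact x ht
  bound := by
    intro t ht x
    have h1 := hη.norm_sub_le (slice_continuous h.cont ht) (x := x) (c := 0) (B := M)
      (fun y _ => by simpa using h.bound t ht _)
    simpa using h1
  divFree := fun t ht => mol_divFree hη.smooth hη.compact (slice_continuous h.cont ht)
    (h.divFree t ht)
  residual := by
    intro t ht x
    have ht' := Ioo_subset_Icc_self ht
    have hv : Continuous (v t) := slice_continuous h.cont ht'
    rw [gradient_mol hη.smooth hη.compact (slice_continuous h.pcont ht')]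
    set m : E n := mol η (v t) x with hm
    rw [fderiv_mol hη.smooth hη.compact hv]
    have e1 := commutator_eq hη.smooth hη.compact hv (h.divFree t ht') x m
    have e2 : -(Nf η v t x + Qf η p t x) + (∫ y, (fderiv ℝ η y m) • v t (x - y)) + Qf η p t x =
        -(∫ y, (fderiv ℝ η y (v t (x - y) - m)) • (v t (x - y) - m)) := by
      rw [← e1]
      unfold Nf
      abel
    rw [e2, norm_neg]
    set B : ℝ := H * (2 * κ) ^ (3 / 4 : ℝ) with hB
    have hB0 : 0 ≤ B := by positivity
    have h3 : ∀ y, ‖y‖ ≤ κ → ‖v t (x - y) - m‖ ≤ B := by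
      intro y hy
      rw [norm_sub_rev]
      refine hη.norm_sub_le hv (fun z hz => ?_)
      have h4 := h.holder t ht' (x - y) (y - z)
      have h5 : x - y + (y - z) = x - z := by abel
      rw [h5] at h4
      refine h4.trans ?_
      rw [hB]
      have h6 : ‖y - z‖ ≤ 2 * κ := (norm_sub_le _ _).trans (by linarith)
      gcongr
    have h7 : ‖∫ y, (fderiv ℝ η y (v t (x - y) - m)) • (v t (x - y) - m)‖ ≤
        ∫ y, ‖fderiv ℝ η y‖ * B ^ 2 := by
      refine norm_integral_le_of_norm_le (hη.integrable_fderiv.mul_const _)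
        (Eventually.of_forall (fun y => ?_))
      rw [norm_smul]
      rcases le_or_gt ‖y‖ κ with h8 | h8
      · have h9 := h3 y h8
        calc ‖fderiv ℝ η y (v t (x - y) - m)‖ * ‖v t (x - y) - m‖
            ≤ (‖fderiv ℝ η y‖ * B) * B := by
              gcongr
              exact ((fderiv ℝ η y).le_opNorm _).trans (by gcongr)
          _ = _ := by ring
      · rw [hη.fderiv_zero h8]; simp
    refine h7.trans ?_
    rw [integral_mul_const]
    gcongr
    exact hη.deriv

end

end Pool.Agent.MP_f6d183_an
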