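import Mathlib
import Pool.Agent.MP_f6d183_an.Mollify

set_option autoImplicit false

/-!
# Stability: weak solutions stay close to approximate smooth solutions
-/

namespace Pool.Agent.MP_f6d183_an

open MeasureTheory Set Filter Topology
open scoped ENNReal ContDiff RealInnerProductSpace

variable {n : ℕ}

/-- the spatial cut-off -/
structure Cut (ζ : E n → ℝ) (Z₀ Z₁ : ℝ) : Prop where
  smooth : ContDiff ℝ ∞ ζ
  nonneg : ∀ x, 0 ≤ ζ x
  one : ∀ x, ‖x‖ ≤ 1 → ζ x = 1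
  supp : tsupport ζ ⊆ Metric.closedBall 0 2
  int : ∫ x, ζ x = Z₀
  int' : ∫ x, ‖fderiv ℝ ζ x‖ = Z₁

lemma exists_cut (n : ℕ) : ∃ (ζ : E n → ℝ) (Z₀ Z₁ : ℝ), Cut ζ Z₀ Z₁ := by
  let φ : ContDiffBump (0 : E n) := ⟨1, 2, by norm_num, by norm_num⟩
  refine ⟨φ, _, _, φ.contDiff, fun x => φ.nonneg, fun x hx => ?_, ?_, rfl, rfl⟩
  · exact φ.one_of_mem_closedBall (by simpa using hx)
  · rw [φ.tsupport_eq]

/-- the scaled cut-off -/
noncomputable def cutR (ζ : E n → ℝ) (R : ℝ) (x : E n) : ℝ := ζ (R⁻¹ • x)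

section
variable {ζ : E n → ℝ} {Z₀ Z₁ R : ℝ}

lemma Cut.smoothR (h : Cut ζ Z₀ Z₁) : ContDiff ℝ ∞ (cutR ζ R) :=
  h.smooth.comp (contDiff_id.const_smul R⁻¹)

lemma Cut.tsupportR (h : Cut ζ Z₀ Z₁) (hR : 0 < R) :
    tsupport (cutR ζ R) ⊆ Metric.closedBall 0 (2 * R) := by
  refine closure_minimal (fun x hx => ?_) Metric.isClosed_closedBall
  have h1 : R⁻¹ • x ∈ tsupport ζ := subset_tsupport _ hx
  have h2 := h.supp h1
  rw [mem_closedBall_zero_iff] at h2 ⊢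
  rw [norm_smul, norm_inv, Real.norm_of_nonneg hR.le, inv_mul_eq_div, div_le_iff₀ hR] at h2
  exact h2

lemma Cut.compactR (h : Cut ζ Z₀ Z₁) (hR : 0 < R) : HasCompactSupport (cutR ζ R) :=
  HasCompactSupport.of_support_subset_isCompact (isCompact_closedBall (0 : E n) (2 * R))
    (subset_closure.trans (h.tsupportR hR))

lemma Cut.intR (h : Cut ζ Z₀ Z₁) (hR : 0 < R) : ∫ x, cutR ζ R x = R ^ n * Z₀ := by
  unfold cutR
  rw [Measure.integral_comp_smul (μ := (volume : Measure (E n))) ζ R⁻¹, finrank_euclideanSpace_fin,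
    abs_of_pos (by positivity), inv_pow, inv_inv, smul_eq_mul, h.int]

lemma Cut.intR' (h : Cut ζ Z₀ Z₁) (hR : 0 < R) :
    ∫ x, ‖fderiv ℝ (cutR ζ R) x‖ = R ^ n * (R⁻¹ * Z₁) := by
  have h1 : ∀ y, ‖fderiv ℝ (cutR ζ R) y‖ = R⁻¹ * ‖fderiv ℝ ζ (R⁻¹ • y)‖ := by
    intro y
    have h2 : HasFDerivAt ζ (fderiv ℝ ζ (R⁻¹ • y)) (R⁻¹ • y) :=
      (h.smooth.differentiable (by simp) _).hasFDerivAt
    have h3 : HasFDerivAt (cutR ζ R)
        ((fderiv ℝ ζ (R⁻¹ • y)).comp (R⁻¹ • ContinuousLinearMap.id ℝ (E n))) y :=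
      h2.comp y ((hasFDerivAt_id y).const_smul R⁻¹)
    rw [h3.fderiv]
    have h4 : (fderiv ℝ ζ (R⁻¹ • y)).comp (R⁻¹ • ContinuousLinearMap.id ℝ (E n)) =
        R⁻¹ • fderiv ℝ ζ (R⁻¹ • y) := by
      ext v; simp
    rw [h4, norm_smul, Real.norm_of_nonneg (by positivity)]
  simp_rw [h1]
  rw [integral_const_mul, Measure.integral_comp_smul (μ := (volume : Measure (E n)))
    (fun y => ‖fderiv ℝ ζ y‖) R⁻¹, finrank_euclideanSpace_fin, abs_of_pos (by positivity),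
    inv_pow, inv_inv, smul_eq_mul, h.int']
  ring

end

/-- sublinear pressure: affine bound -/
lemma pressure_affine {T : ℝ} {p : ℝ → E n → ℝ}
    (hc : ContinuousOn (Function.uncurry p) (Icc 0 T ×ˢ univ))
    (hg : ∀ ε : ℝ, 0 < ε → ∃ R : ℝ, ∀ t ∈ Icc 0 T, ∀ x : E n, R ≤ ‖x‖ → |p t x| ≤ ε * ‖x‖)
    {ε : ℝ} (hε : 0 < ε) : ∃ C : ℝ, 0 ≤ C ∧ ∀ t ∈ Icc 0 T, ∀ x : E n, |p t x| ≤ ε * ‖x‖ + C := by
  obtain ⟨R, hR⟩ := hg ε hε
  obtain ⟨C, hC⟩ := (isCompact_Icc.prod (isCompact_closedBall (0 : E n) R)).exists_bound_of_continuousOn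
    (hc.mono (prod_mono_right (subset_univ _)))
  refine ⟨max C 0, le_max_right _ _, fun t ht x => ?_⟩
  rcases le_total R ‖x‖ with h | h
  · exact (hR t ht x h).trans (by linarith [le_max_right C 0])
  · have h1 := hC (t, x) ⟨ht, by simpa using h⟩
    rw [Real.norm_eq_abs] at h1
    have h2 : |p t x| ≤ C := h1
    have h3 : 0 ≤ ε * ‖x‖ := by positivity
    linarith [le_max_left C 0]

lemma final_alg {Rn R T X Xt t I₀ I₁ gk g Y Z₀ Z₁ M Q : ℝ} (hRn : 0 ≤ Rn) (hR : 0 ≤ R)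
    (hT : 0 ≤ T) (ht1 : 0 ≤ t) (ht2 : t ≤ T) (hX : 0 ≤ X) (hexp : Xt ≤ X) (hi : 0 ≤ I₀)
    (hF0 : I₀ ≤ Rn * (Y * Z₀))
    (hen : I₁ ≤ Xt * (I₀ + t * ((gk + g) ^ 2 * (Rn * Z₀) +
      (4 * M ^ 3 + 4 * M * Q) * (Rn * (R⁻¹ * Z₁)))))
    (hZ₀ : 0 ≤ Z₀) (hZ₁ : 0 ≤ Z₁) (hM : 0 ≤ M) (hQ : 0 ≤ Q) :
    I₁ ≤ X * (Rn * (Y * Z₀) + T * ((2 * gk ^ 2 + 2 * g ^ 2) * (Rn * Z₀) +
      (4 * M ^ 3 + 4 * M * Q) * (Rn * (R⁻¹ * Z₁)))) := by
  have hg2 : (gk + g) ^ 2 ≤ 2 * gk ^ 2 + 2 * g ^ 2 := by nlinarith [sq_nonneg (gk - g)]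
  have hc : 0 ≤ (4 * M ^ 3 + 4 * M * Q) * (Rn * (R⁻¹ * Z₁)) := by positivity
  generalize (4 * M ^ 3 + 4 * M * Q) * (Rn * (R⁻¹ * Z₁)) = c at *
  have h2 : (gk + g) ^ 2 * (Rn * Z₀) + c ≤ (2 * gk ^ 2 + 2 * g ^ 2) * (Rn * Z₀) + c := by
    gcongr
  have h3 : 0 ≤ (gk + g) ^ 2 * (Rn * Z₀) + c := by positivity
  have h1 : I₀ + t * ((gk + g) ^ 2 * (Rn * Z₀) + c) ≤ Rn * (Y * Z₀) +
      T * ((2 * gk ^ 2 + 2 * g ^ 2) * (Rn * Z₀) + c) :=
    add_le_add hF0 (mul_le_mul ht2 h2 h3 hT)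
  exact hen.trans (mul_le_mul hexp h1 (add_nonneg hi (mul_nonneg ht1 h3)) hX)

/-- Stability. -/
theorem stability (n : ℕ) : ∃ Z : ℝ, 0 ≤ Z ∧ ∀ (T M H L g Pb : ℝ) (v U Ut : ℝ → E n → E n)
    (p P : ℝ → E n → ℝ), 0 ≤ T → 0 ≤ H → WeakFlow T v p M H →
    (∀ ε : ℝ, 0 < ε → ∃ R : ℝ, ∀ t ∈ Icc 0 T, ∀ x : E n, R ≤ ‖x‖ → |p t x| ≤ ε * ‖x‖) →
    Flow T U P Ut M g → (∀ t ∈ Icc 0 T, ∀ x, ‖fderiv ℝ (U t) x‖ ≤ L) →
    (∀ t ∈ Icc 0 T, ∀ x, |P t x| ≤ Pb) → v 0 = U 0 →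
    ∀ ε : ℝ, 0 < ε → ∃ R₀ : ℝ, 0 < R₀ ∧ ∀ R : ℝ, R₀ ≤ R → ∀ t ∈ Icc 0 T,
      ∫ x in Metric.ball (0 : E n) R, ‖v t x - U t x‖ ^ 2 ≤
        R ^ n * (Z * T * Real.exp ((2 * L + 1) * T) * g ^ 2 + ε) := by
  obtain ⟨ζ, Z₀, Z₁, hζ⟩ := exists_cut n
  obtain ⟨A, hA, hmoll⟩ := exists_moll n
  have hZ₀ : 0 ≤ Z₀ := by rw [← hζ.int]; exact integral_nonneg hζ.nonneg
  have hZ₁ : 0 ≤ Z₁ := by rw [← hζ.int']; exact integral_nonneg (fun _ => norm_nonneg _)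
  refine ⟨4 * Z₀, by positivity, ?_⟩
  intro T M H L g Pb v U Ut p P hT hH hv hpg hU hL hPb h0 ε hε
  have h0T : (0 : ℝ) ∈ Icc 0 T := left_mem_Icc.2 hT
  have hM : 0 ≤ M := (norm_nonneg _).trans (hv.bound 0 h0T 0)
  have hL0 : 0 ≤ L := (norm_nonneg _).trans (hL 0 h0T 0)
  have hPb0 : 0 ≤ Pb := (abs_nonneg _).trans (hPb 0 h0T 0)
  set X : ℝ := Real.exp ((2 * L + 1) * T) with hX
  have hX0 : 0 < X := Real.exp_pos _
  -- choice of `κ`
  set C₂ : ℝ := 2 * H ^ 2 * Z₀ + 2 * X * (H ^ 2 * Z₀ + 2 * T * (8 * A ^ 2 * H ^ 4) * Z₀) with hC₂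
  have hC₂0 : 0 ≤ C₂ := by positivity
  obtain ⟨κ, hκ, hκ1, hκε⟩ : ∃ κ : ℝ, 0 < κ ∧ κ ≤ 1 ∧ C₂ * κ ≤ ε / 2 := by
    refine ⟨min 1 (ε / (2 * (C₂ + 1))), by positivity, min_le_left _ _, ?_⟩
    calc C₂ * min 1 (ε / (2 * (C₂ + 1))) ≤ (C₂ + 1) * (ε / (2 * (C₂ + 1))) := by
          gcongr
          · linarith
          · exact min_le_right _ _
      _ = ε / 2 := by field_simp
  obtain ⟨η, hη⟩ := hmoll κ hκ
  -- choice of `ε'` and `R₀`
  set K₁ : ℝ := 2 * X * T * Z₁ with hK₁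
  have hK₁0 : 0 ≤ K₁ := by positivity
  obtain ⟨ε', hε', hε'2⟩ : ∃ ε' : ℝ, 0 < ε' ∧ K₁ * (4 * M * (3 * ε')) ≤ ε / 4 := by
    refine ⟨ε / (4 * (12 * K₁ * M + 1)), by positivity, ?_⟩
    calc K₁ * (4 * M * (3 * (ε / (4 * (12 * K₁ * M + 1)))))
        = (12 * K₁ * M) * (ε / (4 * (12 * K₁ * M + 1))) := by ring
      _ ≤ (12 * K₁ * M + 1) * (ε / (4 * (12 * K₁ * M + 1))) := by gcongr; linarith
      _ = ε / 4 := by field_simp
  obtain ⟨C, hC0, hC⟩ := pressure_affine hv.pcont hpg hε'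
  set D : ℝ := K₁ * (4 * M ^ 3 + 4 * M * (C + Pb)) with hD
  have hD0 : 0 ≤ D := by positivity
  refine ⟨max 1 (4 * D / ε), by positivity, ?_⟩
  intro R hR t ht
  have hR1 : 1 ≤ R := (le_max_left _ _).trans hR
  have hR0 : 0 < R := by linarith
  have hDR : D * R⁻¹ ≤ ε / 4 := by
    have h1 : 4 * D / ε ≤ R := (le_max_right _ _).trans hR
    rw [div_le_iff₀ hε] at h1
    rw [mul_inv_le_iff₀ hR0]
    linarith
  -- the mollified flow
  have hfl := hv.flow hη hκ hH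
  set gk : ℝ := A / κ * (H * (2 * κ) ^ (3 / 4 : ℝ)) ^ 2 with hgk
  have hgk2 : gk ^ 2 = 8 * A ^ 2 * H ^ 4 * κ := by
    have e1 : ((2 * κ) ^ (3 / 4 : ℝ)) ^ 4 = (2 * κ) ^ 3 := by
      rw [← Real.rpow_natCast, ← Real.rpow_natCast, ← Real.rpow_mul (by positivity)]
      norm_num
    calc gk ^ 2 = (A / κ) ^ 2 * H ^ 4 * ((2 * κ) ^ (3 / 4 : ℝ)) ^ 4 := by rw [hgk]; ring
      _ = 8 * A ^ 2 * H ^ 4 * κ := by rw [e1]; field_simp; ring
  set Pi : ℝ := ε' * (2 * R + 1) + C + Pb with hPi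
  have hPibd : ∀ t ∈ Icc 0 T, ∀ x ∈ tsupport (cutR ζ R), |mol η (p t) x - P t x| ≤ Pi := by
    intro t ht x hx
    have h1 := hζ.tsupportR hR0 hx
    rw [mem_closedBall_zero_iff] at h1
    have h2 := hη.norm_sub_le (slice_continuous hv.pcont ht) (x := x) (c := 0)
      (B := ε' * (2 * R + 1) + C) (fun y hy => by
        rw [sub_zero, Real.norm_eq_abs]
        refine (hC t ht _).trans ?_
        have : ‖x - y‖ ≤ 2 * R + 1 := (norm_sub_le _ _).trans (by linarith)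
        gcongr)
    rw [sub_zero, Real.norm_eq_abs] at h2
    calc |mol η (p t) x - P t x| ≤ |mol η (p t) x| + |P t x| := abs_sub _ _
      _ ≤ _ := by rw [hPi]; exact add_le_add h2 (hPb t ht x)
  have hen := hfl.energy hU hL (ζ := cutR ζ R) hζ.smoothR (hζ.compactR hR0)
    (fun x => hζ.nonneg _) hPibd t ht
  rw [hζ.intR hR0, hζ.intR' hR0] at hen
  -- mollification error
  have hκ2 : (H * κ ^ (3 / 4 : ℝ)) ^ 2 ≤ H ^ 2 * κ := by
    have e1 : (κ ^ (3 / 4 : ℝ)) ^ 2 ≤ κ := by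
      rw [← Real.rpow_natCast, ← Real.rpow_mul hκ.le]
      conv_rhs => rw [← Real.rpow_one κ]
      exact Real.rpow_le_rpow_of_exponent_ge hκ hκ1 (by norm_num)
    rw [mul_pow]
    gcongr
  have hmolerr : ∀ t ∈ Icc 0 T, ∀ x, ‖mol η (v t) x - v t x‖ ^ 2 ≤ H ^ 2 * κ := by
    intro t ht x
    have h1 : ‖mol η (v t) x - v t x‖ ≤ H * κ ^ (3 / 4 : ℝ) := by
      refine hη.norm_sub_le (slice_continuous hv.cont ht) (fun y hy => ?_)
      have h2 := hv.holder t ht x (-y)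
      rw [norm_neg, ← sub_eq_add_neg] at h2
      exact h2.trans (by gcongr)
    exact (by gcongr : ‖mol η (v t) x - v t x‖ ^ 2 ≤ (H * κ ^ (3 / 4 : ℝ)) ^ 2).trans hκ2
  have hcont : ∀ {w : E n → E n}, Continuous w →
      Integrable (fun x => cutR ζ R x * ‖w x‖ ^ 2) := by
    intro w hw
    exact ((hζ.smoothR (R := R)).continuous.mul (hw.norm.pow 2)).integrable_of_hasCompactSupport
      (hζ.compactR hR0).mul_right
  have iζ : Integrable (cutR ζ R) :=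
    (hζ.smoothR (R := R)).continuous.integrable_of_hasCompactSupport (hζ.compactR hR0)
  have cv : ∀ t ∈ Icc 0 T, Continuous (v t) := fun t ht => slice_continuous hv.cont ht
  have ca : ∀ t ∈ Icc 0 T, Continuous (mol η (v t)) := fun t ht =>
    (contDiff_mol hη.smooth hη.compact (cv t ht)).continuous
  have cU : ∀ t ∈ Icc 0 T, Continuous (U t) := fun t ht => hU.cont_slice ht
  have hF0 : ∫ x, cutR ζ R x * ‖mol η (v 0) x - U 0 x‖ ^ 2 ≤ R ^ n * (H ^ 2 * κ * Z₀) := by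
    calc ∫ x, cutR ζ R x * ‖mol η (v 0) x - U 0 x‖ ^ 2
        ≤ ∫ x, cutR ζ R x * (H ^ 2 * κ) := by
          refine integral_mono (hcont ((ca 0 h0T).sub (cU 0 h0T))) (iζ.mul_const _) (fun x => ?_)
          have h1 := hmolerr 0 h0T x
          rw [h0] at h1
          have h2 : (0 : ℝ) ≤ cutR ζ R x := hζ.nonneg _
          simp only
          rw [h0]
          gcongr
      _ = _ := by rw [integral_mul_const, hζ.intR hR0]; ring
  have hsplit : ∫ x, cutR ζ R x * ‖v t x - U t x‖ ^ 2 ≤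
      2 * (R ^ n * (H ^ 2 * κ * Z₀)) + 2 * ∫ x, cutR ζ R x * ‖mol η (v t) x - U t x‖ ^ 2 := by
    calc ∫ x, cutR ζ R x * ‖v t x - U t x‖ ^ 2
        ≤ ∫ x, (2 * (cutR ζ R x * (H ^ 2 * κ)) +
            2 * (cutR ζ R x * ‖mol η (v t) x - U t x‖ ^ 2)) := by
          refine integral_mono (hcont ((cv t ht).sub (cU t ht)))
            (((iζ.mul_const _).const_mul 2).add ((hcont ((ca t ht).sub (cU t ht))).const_mul 2))
            (fun x => ?_)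
          have h1 := hmolerr t ht x
          have h2 : (0 : ℝ) ≤ cutR ζ R x := hζ.nonneg _
          have h3 : ‖v t x - U t x‖ ^ 2 ≤ 2 * ‖mol η (v t) x - v t x‖ ^ 2 +
              2 * ‖mol η (v t) x - U t x‖ ^ 2 := by
            have h4 : ‖v t x - U t x‖ ≤ ‖mol η (v t) x - v t x‖ + ‖mol η (v t) x - U t x‖ := by
              have : v t x - U t x = -(mol η (v t) x - v t x) + (mol η (v t) x - U t x) := by abel
              rw [this]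
              exact (norm_add_le _ _).trans (by rw [norm_neg])
            have h5 : 0 ≤ ‖v t x - U t x‖ := norm_nonneg _
            nlinarith [sq_nonneg (‖mol η (v t) x - v t x‖ - ‖mol η (v t) x - U t x‖)]
          calc cutR ζ R x * ‖v t x - U t x‖ ^ 2
              ≤ cutR ζ R x * (2 * ‖mol η (v t) x - v t x‖ ^ 2 +
                2 * ‖mol η (v t) x - U t x‖ ^ 2) := by gcongr
            _ ≤ cutR ζ R x * (2 * (H ^ 2 * κ) + 2 * ‖mol η (v t) x - U t x‖ ^ 2) := by gcongr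
            _ = _ := by ring
      _ = _ := by
          have j1 : Integrable (fun x => 2 * (cutR ζ R x * (H ^ 2 * κ))) :=
            (iζ.mul_const _).const_mul 2
          have j2 : Integrable (fun x => 2 * (cutR ζ R x * ‖mol η (v t) x - U t x‖ ^ 2)) :=
            (hcont ((ca t ht).sub (cU t ht))).const_mul 2
          rw [integral_add j1 j2, integral_const_mul,
            integral_const_mul, integral_mul_const, hζ.intR hR0]
          ring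
  have hball : ∫ x in Metric.ball (0 : E n) R, ‖v t x - U t x‖ ^ 2 ≤
      ∫ x, cutR ζ R x * ‖v t x - U t x‖ ^ 2 := by
    calc ∫ x in Metric.ball (0 : E n) R, ‖v t x - U t x‖ ^ 2
        = ∫ x in Metric.ball (0 : E n) R, cutR ζ R x * ‖v t x - U t x‖ ^ 2 := by
          refine setIntegral_congr_fun Metric.isOpen_ball.measurableSet (fun x hx => ?_)
          rw [mem_ball_zero_iff] at hx
          have : cutR ζ R x = 1 := by
            refine hζ.one _ ?_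
            rw [norm_smul, norm_inv, Real.norm_of_nonneg hR0.le, inv_mul_eq_div, div_le_one hR0]
            exact hx.le
          rw [this, one_mul]
      _ ≤ _ := by
          refine setIntegral_le_integral (hcont ((cv t ht).sub (cU t ht)))
            (Eventually.of_forall (fun x => ?_))
          exact mul_nonneg (hζ.nonneg _) (by positivity)
  refine hball.trans (hsplit.trans ?_)
  have hexp : Real.exp ((2 * L + 1) * t) ≤ X := by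
    rw [hX]
    apply Real.exp_le_exp.2
    have := ht.2
    gcongr
  have hRn : 0 < R ^ n := by positivity
  have hi : 0 ≤ ∫ x, cutR ζ R x * ‖mol η (v 0) x - U 0 x‖ ^ 2 :=
    integral_nonneg (fun x => mul_nonneg (hζ.nonneg _) (by positivity))
  have hPi0 : 0 ≤ Pi := by positivity
  generalize (∫ x, cutR ζ R x * ‖mol η (v 0) x - U 0 x‖ ^ 2) = I₀ at hen hF0 hi
  generalize (∫ x, cutR ζ R x * ‖mol η (v t) x - U t x‖ ^ 2) = I₁ at hen ⊢
  generalize Real.exp ((2 * L + 1) * t) = Xt at hexp hen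
  clear_value X gk Pi
  have hen2 := final_alg hRn.le hR0.le hT ht.1 ht.2 hX0.le hexp hi hF0 hen hZ₀ hZ₁ hM hPi0
  have hsmall : R⁻¹ * (K₁ * (4 * M ^ 3 + 4 * M * Pi)) ≤ ε / 2 := by
    have hRi : R⁻¹ ≤ 1 := inv_le_one_of_one_le₀ hR1
    have e1 : R⁻¹ * (K₁ * (4 * M ^ 3 + 4 * M * Pi)) =
        D * R⁻¹ + K₁ * (4 * M * (ε' * ((R⁻¹ * R) * 2 + R⁻¹))) := by
      rw [hD, hPi]; ring
    rw [e1, inv_mul_cancel₀ hR0.ne']
    have e2 : K₁ * (4 * M * (ε' * (1 * 2 + R⁻¹))) ≤ K₁ * (4 * M * (3 * ε')) := by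
      have : ε' * (1 * 2 + R⁻¹) ≤ 3 * ε' := by nlinarith
      gcongr
    linarith
  calc 2 * (R ^ n * (H ^ 2 * κ * Z₀)) + 2 * I₁
      ≤ 2 * (R ^ n * (H ^ 2 * κ * Z₀)) + 2 * (X * (R ^ n * (H ^ 2 * κ * Z₀) +
        T * ((2 * gk ^ 2 + 2 * g ^ 2) * (R ^ n * Z₀) +
        (4 * M ^ 3 + 4 * M * Pi) * (R ^ n * (R⁻¹ * Z₁))))) := by gcongr
    _ = R ^ n * (4 * Z₀ * T * X * g ^ 2 + (C₂ * κ + R⁻¹ * (K₁ * (4 * M ^ 3 + 4 * M * Pi)))) := by
        rw [hgk2, hC₂, hK₁]; ring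
    _ ≤ R ^ n * (4 * Z₀ * T * X * g ^ 2 + ε) := by
        gcongr
        linarith

end Pool.Agent.MP_f6d183_an
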