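import Mathlib
import Pool.Agent.MP_f6d183_an.Data2
import Pool.Agent.MP_f6d183_an.Stability

set_option autoImplicit false

/-!
# From Besov solutions to weak flows
-/

namespace Pool.Agent.MP_f6d183_an

open MeasureTheory Set Filter Topology
open scoped ENNReal ContDiff RealInnerProductSpace

variable {n : ℕ} {χ : LPCutoff n} {q T : ℝ} {u₀ : E n → E n} {u : ℝ → E n → E n}
  {p : ℝ → E n → ℝ}

lemma MemBesov.bc {f : E n → E n} (h : MemBesov χ q f) : ∃ C, BC f C := by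
  obtain ⟨h1, ⟨C, hC⟩, -⟩ := h
  exact ⟨C, h1, hC⟩

lemma Flow.mono {U Ut : ℝ → E n → E n} {P : ℝ → E n → ℝ} {M M' g : ℝ}
    (h : Flow T U P Ut M g) (hM : M ≤ M') : Flow T U P Ut M' g :=
  ⟨h.cont, h.ut_cont, h.smooth, h.psmooth, h.deriv, fun t ht x => (h.bound t ht x).trans hM,
    h.divFree, h.residual⟩

lemma WeakFlow.mono {v : ℝ → E n → E n} {M M' H : ℝ}
    (h : WeakFlow T v p M H) (hM : M ≤ M') : WeakFlow T v p M' H :=
  ⟨h.cont, h.pcont, fun t ht x => (h.bound t ht x).trans hM, h.holder, h.divFree, h.momentum⟩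

/-- the norm of a solution is bounded on `[0,T]` -/
lemma IsEulerSolution.bounded (h : IsEulerSolution χ q T u₀ u p) (hq : 1 ≤ q) :
    ∃ A : ℝ≥0∞, A ≠ ⊤ ∧ ∀ t ∈ Icc 0 T, besovNorm χ q (u t) ≤ A := by
  refine isCompact_Icc.induction_on (p := fun s => ∃ A : ℝ≥0∞, A ≠ ⊤ ∧
    ∀ t ∈ s, besovNorm χ q (u t) ≤ A) ?_ ?_ ?_ ?_
  · exact ⟨0, by simp, by simp⟩
  · rintro s t hst ⟨A, hA, h1⟩
    exact ⟨A, hA, fun r hr => h1 r (hst hr)⟩
  · rintro s t ⟨A, hA, h1⟩ ⟨B, hB, h2⟩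
    refine ⟨A + B, by finiteness, ?_⟩
    rintro r (hr | hr)
    · exact (h1 r hr).trans le_self_add
    · exact (h2 r hr).trans le_add_self
  · intro t₀ ht₀
    have h1 : ∀ᶠ t in 𝓝[Icc 0 T] t₀, besovNorm χ q (fun x => u t x - u t₀ x) < 1 :=
      (h.cont t₀ ht₀).eventually_lt_const (by norm_num)
    refine ⟨{t | t ∈ Icc 0 T ∧ besovNorm χ q (fun x => u t x - u t₀ x) < 1}, ?_,
      1 + besovNorm χ q (u t₀), ?_, ?_⟩
    · filter_upwards [h1, self_mem_nhdsWithin] with t h2 h3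
      exact ⟨h3, h2⟩
    · have := (h.mem t₀ ht₀).2.2.ne
      finiteness
    · rintro t ⟨ht, h2⟩
      obtain ⟨C, hC⟩ := (h.mem t ht).bc
      obtain ⟨C', hC'⟩ := (h.mem t₀ ht₀).bc
      have h3 := besovNorm_add_le (hC.sub hC') hC' χ hq
      have h4 : (fun x => (u t x - u t₀ x) + u t₀ x) = u t := by ext1 x; simp
      rw [h4] at h3
      exact h3.trans (by gcongr)

lemma IsEulerSolution.jointCont (h : IsEulerSolution χ q T u₀ u p) (hq : 0 < q) :
    ContinuousOn (Function.uncurry u) (Icc 0 T ×ˢ univ) := by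
  rintro ⟨t₀, x₀⟩ ⟨ht₀, -⟩
  have ht₀' : t₀ ∈ Icc 0 T := ht₀
  show Tendsto (Function.uncurry u) (𝓝[Icc 0 T ×ˢ univ] (t₀, x₀)) (𝓝 (Function.uncurry u (t₀, x₀)))
  rw [tendsto_iff_edist_tendsto_0]
  have h1 : Tendsto (fun z : ℝ × E n => 4 * besovNorm χ q (fun x => u z.1 x - u t₀ x))
      (𝓝[Icc 0 T ×ˢ univ] (t₀, x₀)) (𝓝 (4 * 0)) := by
    refine ENNReal.Tendsto.const_mul ((h.cont t₀ ht₀').comp ?_) (Or.inr (by norm_num))
    refine tendsto_nhdsWithin_iff.2 ⟨?_, ?_⟩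
    · exact (continuous_fst.tendsto _).mono_left nhdsWithin_le_nhds
    · filter_upwards [self_mem_nhdsWithin] with z hz
      exact hz.1
  have h2 : Tendsto (fun z : ℝ × E n => edist (u t₀ z.2) (u t₀ x₀))
      (𝓝[Icc 0 T ×ˢ univ] (t₀, x₀)) (𝓝 0) := by
    have hc : Continuous (fun z : ℝ × E n => u t₀ z.2) :=
      (h.mem t₀ ht₀').1.comp continuous_snd
    have h3 : Tendsto (fun z : ℝ × E n => u t₀ z.2) (𝓝[Icc 0 T ×ˢ univ] (t₀, x₀))
        (𝓝 (u t₀ x₀)) := (hc.tendsto _).mono_left nhdsWithin_le_nhds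
    exact tendsto_iff_edist_tendsto_0.1 h3
  have h3 := h1.add h2
  rw [mul_zero, add_zero] at h3
  refine tendsto_of_tendsto_of_tendsto_of_le_of_le' tendsto_const_nhds h3
    (Eventually.of_forall (fun _ => zero_le)) ?_
  filter_upwards [self_mem_nhdsWithin] with z hz
  have hz1 : z.1 ∈ Icc 0 T := hz.1
  obtain ⟨C, hC⟩ := (h.mem z.1 hz1).bc
  obtain ⟨C', hC'⟩ := (h.mem t₀ ht₀').bc
  have h4 := (hC.sub hC').enorm_le_besovNorm χ hq z.2
  calc edist (Function.uncurry u z) (Function.uncurry u (t₀, x₀))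
      ≤ edist (u z.1 z.2) (u t₀ z.2) + edist (u t₀ z.2) (u t₀ x₀) := edist_triangle _ _ _
    _ ≤ _ := by
        gcongr
        rw [edist_eq_enorm_sub]
        exact h4

/-- a Besov solution is a weak flow -/
theorem IsEulerSolution.weakFlow (h : IsEulerSolution χ q T u₀ u p) (hq : 1 ≤ q) :
    ∃ M H : ℝ, 0 ≤ M ∧ 0 ≤ H ∧ WeakFlow T u p M H := by
  have hq0 : 0 < q := by linarith
  obtain ⟨A, hA, hbd⟩ := h.bounded hq
  obtain ⟨K, hK, hhold⟩ := exists_holder_const χ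
  refine ⟨(4 * A).toReal, K * A.toReal, ENNReal.toReal_nonneg,
    mul_nonneg hK ENNReal.toReal_nonneg, ?_⟩
  refine ⟨h.jointCont hq0, h.pressure_cont, ?_, ?_, h.divFree, ?_⟩
  · intro t ht x
    obtain ⟨C, hC⟩ := (h.mem t ht).bc
    have h1 := hC.enorm_le_besovNorm χ hq0 x
    rw [← toReal_enorm]
    refine ENNReal.toReal_mono (by finiteness) (h1.trans ?_)
    gcongr
    exact hbd t ht
  · intro t ht x z
    obtain ⟨C, hC⟩ := (h.mem t ht).bc
    have h1 := hhold (u t) C q hC hq0 (h.mem t ht).2.2 x z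
    refine h1.trans ?_
    have h2 : (besovNorm χ q (u t)).toReal ≤ A.toReal := ENNReal.toReal_mono hA (hbd t ht)
    gcongr
  · intro ψ hψ hψc t ht
    have h1 := h.momentum ψ hψ hψc t ht
    rw [h.init]
    exact h1

end Pool.Agent.MP_f6d183_an
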