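import Mathlib
import Pool.Agent.MP_f6d183_an.Sol

set_option autoImplicit false

/-!
# Ill-posedness of the Euler equations in `B^1_{∞,q}`
-/

namespace Pool.Agent.MP_f6d183_an

open MeasureTheory Set Filter Topology
open scoped ENNReal ContDiff RealInnerProductSpace

variable {n : ℕ}

lemma weaklyDivFree_add {f g : E n → E n} (hf : Continuous f) (hg : Continuous g)
    (h1 : WeaklyDivFree f) (h2 : WeaklyDivFree g) : WeaklyDivFree (fun x => f x + g x) := by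
  intro ψ hψ hψc
  have hi : ∀ {v : E n → E n}, Continuous v → Integrable (fun x => fderiv ℝ ψ x (v x)) := by
    intro v hv
    have h6 : Continuous (fun x => fderiv ℝ ψ x (v x)) :=
      (hψ.continuous_fderiv (by simp)).clm_apply hv
    refine h6.integrable_of_hasCompactSupport
      (HasCompactSupport.intro (hψc.fderiv ℝ) (fun x hx => ?_))
    rw [image_eq_zero_of_notMem_tsupport hx]; simp
  simp_rw [map_add]
  rw [integral_add (hi hf) (hi hg), h1 ψ hψ hψc, h2 ψ hψ hψc, add_zero]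

lemma lac_zero (y : ℝ) : lac (fun _ => 0) y = 0 := by
  unfold lac
  simp

lemma besovNorm_zero (χ : LPCutoff n) {q : ℝ} (hq : 1 < q) (i j : Fin n) :
    besovNorm χ q (fun _ => (0 : E n)) = 0 := by
  obtain ⟨K, hK, h⟩ := exists_sh_const χ hq
  have h1 := h (fun _ => 0) 0 i j (fun k => by simp)
  have h2 : (sh (fun _ => 0) i j : E n → E n) = fun _ => 0 := by
    ext1 x
    unfold sh
    rw [lac_zero, zero_smul]
  rw [h2] at h1
  have h3 : (∑' k : ℕ, ‖((fun _ => 0 : ℕ → ℝ) k)‖ₑ ^ q) ^ (1 / q) = 0 := by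
    have : 0 < q := by linarith
    simp [this]
  rw [h3, mul_zero] at h1
  exact le_antisymm h1 (by simp)

/-- a function of one coordinate is invariant in the other directions -/
lemma integral_coord_mul_fderiv {F : ℝ → ℝ} (hF : Continuous F) {i j : Fin n} (hij : i ≠ j)
    {ψ : E n → ℝ} (hψ : ContDiff ℝ ∞ ψ) (hψc : HasCompactSupport ψ) :
    ∫ x : E n, F (x i) * fderiv ℝ ψ x (eb j) = 0 := by
  have hcont : Continuous (fun x : E n => F (x i)) := hF.comp (coord_cont i)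
  have c2 : Continuous (fun x => fderiv ℝ ψ x (eb j)) :=
    (hψ.continuous_fderiv (by simp)).clm_apply continuous_const
  have h := integral_bilinear_hasLineDerivAt_right_eq_neg_left_of_integrable
    (μ := (volume : Measure (E n))) (f := fun x => F (x i)) (f' := fun _ => 0)
    (g := ψ) (g' := fun x => fderiv ℝ ψ x (eb j)) (v := eb j)
    (B := ContinuousLinearMap.mul ℝ ℝ) ?_ ?_ ?_ ?_ ?_
  · simpa using h
  · simp
  · refine (hcont.mul c2).integrable_of_hasCompactSupport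
      (HasCompactSupport.intro (hψc.fderiv ℝ) (fun x hx => ?_))
    simp only [Pi.mul_apply]
    rw [image_eq_zero_of_notMem_tsupport hx]; simp
  · exact (hcont.mul hψ.continuous).integrable_of_hasCompactSupport hψc.mul_left
  · intro x _
    have h1 : ∀ t : ℝ, F ((x + t • (eb j : E n)) i) = F (x i) := by
      intro t
      congr 1
      simp [eb, hij]
    unfold HasLineDerivAt
    simp_rw [h1]
    exact hasDerivAt_const _ _
  · intro x _
    exact ((hψ.differentiable (by simp) x).hasFDerivAt).hasLineDerivAt _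

/-- shear flows are steady solutions with zero pressure -/
lemma steady (χ : LPCutoff n) {q : ℝ} (hq : 1 < q) {c : ℕ → ℝ} {A : ℝ} (hc : Bdd c A)
    {i j : Fin n} (hij : i ≠ j) (hmem : MemBesov χ q (sh c i j)) (T : ℝ) :
    IsEulerSolution χ q T (sh c i j) (fun _ => sh c i j) (fun _ _ => 0) where
  init := rfl
  mem := fun _ _ => hmem
  cont := by
    intro t₀ _
    have : (fun x => sh c i j x - sh c i j x) = fun _ => (0 : E n) := by ext1 x; simp
    simp only [this, besovNorm_zero χ hq i j]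
    exact tendsto_const_nhds
  pressure_cont := by
    unfold Function.uncurry
    exact continuousOn_const
  pressure_growth := by
    intro ε hε
    refine ⟨0, fun t _ x hx => ?_⟩
    rw [abs_zero]
    positivity
  divFree := fun _ _ => sh_divFree hc hij
  momentum := by
    intro ψ hψ hψc t _
    have h1 : ∀ x : E n, (fderiv ℝ ψ x (sh c i j x)) • sh c i j x =
        (lac c (x i) ^ 2 * fderiv ℝ ψ x (eb j)) • (eb j : E n) := by
      intro x
      unfold sh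
      rw [map_smul, smul_eq_mul, smul_smul]
      congr 1
      ring
    have h2 : ∫ x : E n, (fderiv ℝ ψ x (sh c i j x)) • sh c i j x = 0 := by
      simp_rw [h1]
      rw [integral_smul_const, integral_coord_mul_fderiv (F := fun y => lac c y ^ 2)
        (hc.lac_continuous.pow 2) hij hψ hψc, zero_smul]
    simp [h2]

lemma lac_pt_contDiff (J : ℕ) (δ : ℝ) : ContDiff ℝ ∞ (lac (pt J δ)) := by
  have : lac (pt J δ) = fun y => δ * (2⁻¹ : ℝ) ^ J * Real.sin (2 ^ J * y) := by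
    ext y; exact lac_pt J δ y
  rw [this]
  exact contDiff_const.mul (Real.contDiff_sin.comp (contDiff_const.mul contDiff_id))

lemma sh_contDiff {c : ℕ → ℝ} (hc : ContDiff ℝ ∞ (lac c)) (i j : Fin n) :
    ContDiff ℝ ∞ (sh c i j : E n → E n) := by
  unfold sh
  exact (hc.comp (EuclideanSpace.proj i : E n →L[ℝ] ℝ).contDiff).smul contDiff_const

/-- Norm inflation at a steady state. -/
theorem inflation (hn : 2 ≤ n) {q : ℝ} (hq : 1 < q) (χ : LPCutoff n) :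
    ∃ u₀ : E n → E n, MemBesov χ q u₀ ∧ WeaklyDivFree u₀ ∧
      (∀ T : ℝ, 0 < T → IsEulerSolution χ q T u₀ (fun _ => u₀) (fun _ _ => 0)) ∧
      ∀ T : ℝ, 0 < T → ∀ A : ℝ≥0∞, A < ⊤ → ∀ ε : ℝ≥0∞, 0 < ε →
        ∃ v₀ : E n → E n, ContDiff ℝ ∞ v₀ ∧ MemBesov χ q v₀ ∧ WeaklyDivFree v₀ ∧
          besovNorm χ q (fun x => v₀ x - u₀ x) < ε ∧
          ∀ (v : ℝ → E n → E n) (p : ℝ → E n → ℝ), IsEulerSolution χ q T v₀ v p →
            A < besovNorm χ q (v T) := by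
  have hq0 : 0 < q := by linarith
  -- the exponent
  set b : ℝ := (1 + 1 / q) / 2 with hb
  have hb0 : 0 ≤ b := by positivity
  have hb1 : b ≤ 1 := by
    have : 1 / q ≤ 1 := by rw [div_le_one hq0]; linarith
    linarith
  have hbq : 1 < b * q := by
    rw [hb]
    field_simp
    linarith
  set c : ℕ → ℝ := cs b with hc
  have hcb : Bdd c 1 := cs_bdd hb0
  have hcS : ∑' k, ‖c k‖ₑ ^ q ≠ ⊤ := cs_tsum_ne_top hq0.le hbq
  set S : ℝ≥0∞ := (∑' k, ‖c k‖ₑ ^ q) ^ (1 / q) with hS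
  have hST : S ≠ ⊤ := ENNReal.rpow_ne_top_of_nonneg (by positivity) hcS
  -- indices
  set i0 : Fin n := ⟨0, by omega⟩ with hi0
  set i1 : Fin n := ⟨1, by omega⟩ with hi1
  have hi : i0 ≠ i1 := by rw [hi0, hi1]; simp
  obtain ⟨K₁, hK₁, hsh⟩ := exists_sh_const χ hq
  have hmem : ∀ (d : ℕ → ℝ) (A : ℝ) (i j : Fin n), Bdd d A →
      (∑' k, ‖d k‖ₑ ^ q) ^ (1 / q) ≠ ⊤ → MemBesov χ q (sh d i j) := by
    intro d A i j hd hfin
    refine ⟨(hd.sh_BC i j).cont, ⟨2 * A, (hd.sh_BC i j).bound⟩, ?_⟩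
    exact (hsh d A i j hd).trans_lt (ENNReal.mul_lt_top hK₁.lt_top hfin.lt_top)
  set u₀ : E n → E n := sh c i1 i0 with hu₀
  have hu₀m : MemBesov χ q u₀ := hmem c 1 i1 i0 hcb hST
  have hu₀d : WeaklyDivFree u₀ := sh_divFree hcb hi.symm
  refine ⟨u₀, hu₀m, hu₀d, fun T _ => steady χ hq hcb hi.symm hu₀m T, ?_⟩
  intro T hT A₀ hA₀ m hm0
  have hTm : T ∈ Icc 0 T := right_mem_Icc.2 hT.le
  -- `δ` and the tail
  have hm2 : 0 < m / 2 := ENNReal.half_pos hm0.ne'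
  obtain ⟨δ, hδ, hδm⟩ : ∃ δ : ℝ, 0 < δ ∧ K₁ * ‖δ‖ₑ < m / 2 := by
    have h1 : Tendsto (fun δ : ℝ => K₁ * ‖δ‖ₑ) (𝓝[>] 0) (𝓝 (K₁ * ‖(0 : ℝ)‖ₑ)) := by
      refine ENNReal.Tendsto.const_mul ?_ (Or.inr hK₁)
      exact (continuous_enorm.tendsto 0).mono_left nhdsWithin_le_nhds
    rw [enorm_zero, mul_zero] at h1
    have h2 := h1.eventually_lt_const hm2
    obtain ⟨δ, h3, h4⟩ := (h2.and self_mem_nhdsWithin).exists
    exact ⟨δ, h4, h3⟩
  have htail : ∀ᶠ K : ℕ in atTop, K₁ * (∑' k, ‖tl K c k‖ₑ ^ q) ^ (1 / q) < m / 2 := by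
    have h1 := ENNReal.Tendsto.const_mul (a := K₁) (tsum_tl_tendsto hq0 hcS) (Or.inr hK₁)
    rw [mul_zero] at h1
    exact h1.eventually_lt_const hm2
  -- constants
  set A : ℝ≥0∞ := A₀ + K₁ * S with hA
  have hAT : A ≠ ⊤ := by
    have := hA₀.ne
    finiteness
  obtain ⟨K₂, hK₂, hdiff⟩ := exists_diff2_const χ
  -- the number of levels
  obtain ⟨M, hM⟩ : ∃ M : ℕ, (K₂ * 4 * A) ^ q < M * (ENNReal.ofReal (δ / 20)) ^ q := by
    apply ENNReal.exists_nat_mul_gt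
    · have : 0 < ENNReal.ofReal (δ / 20) := ENNReal.ofReal_pos.2 (by positivity)
      exact (ENNReal.rpow_pos this ENNReal.ofReal_ne_top).ne'
    · exact ENNReal.rpow_ne_top_of_nonneg hq0.le (by finiteness)
  -- the truncation
  obtain ⟨K, hKt, hKs⟩ : ∃ K : ℕ, K₁ * (∑' k, ‖tl K c k‖ₑ ^ q) ^ (1 / q) < m / 2 ∧
      2 ^ M / T ≤ ∑ k ∈ Finset.range K, c k := by
    have h1 := (cs_sum_tendsto hb1).eventually_ge_atTop (2 ^ M / T)
    exact (htail.and h1).exists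
  have hprof := prof_tr c K
  set f : ℝ → ℝ := lac (tr K c) with hf
  have hper := tp1_periodic c K
  obtain ⟨Ka, hKa0, happ⟩ := approx_flow hi hprof δ T
  obtain ⟨Z, hZ, hstab⟩ := stability n
  set CE : ℝ := Z * T * Real.exp ((2 * Ka + 1) * T) * Ka ^ 2 with hCE
  have hCE0 : 0 ≤ CE := by positivity
  -- lower bounds at all levels
  have hev : ∀ᶠ J : ℕ in atTop, ∀ s ∈ Finset.range M, ∀ v : E n → E n, Continuous v →
      (∀ ε : ℝ, 0 < ε → ∃ R₀ : ℝ, ∀ R : ℝ, R₀ ≤ R →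
        ∫ x in Metric.ball (0 : E n) R,
          ‖v x - Uv i0 i1 f (tp1 c K) (tp2 c K) δ ((2⁻¹ : ℝ) ^ J) T x‖ ^ 2 ≤
          R ^ n * (CE * ((2⁻¹ : ℝ) ^ J) ^ 4 + ε)) →
      ∃ x : E n, 1 / 20 * (δ * (2⁻¹ : ℝ) ^ J * (2⁻¹ : ℝ) ^ s) ≤
        ‖(v (x + ((2⁻¹ : ℝ) ^ J * (2⁻¹ : ℝ) ^ s) • eb i1) -
            f ((x + ((2⁻¹ : ℝ) ^ J * (2⁻¹ : ℝ) ^ s) • eb i1 : E n) i1) • eb i0) +
          (v (x - ((2⁻¹ : ℝ) ^ J * (2⁻¹ : ℝ) ^ s) • eb i1) -
            f ((x - ((2⁻¹ : ℝ) ^ J * (2⁻¹ : ℝ) ^ s) • eb i1 : E n) i1) • eb i0) -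
          (2 : ℝ) • (v x - f (x i1) • eb i0)‖ := by
    rw [Filter.eventually_all_finset]
    intro s hs
    rw [Finset.mem_range] at hs
    obtain ⟨y, hy⟩ : ∃ y, tp1 c K y = 2 ^ s / T := by
      apply tp1_attains (by positivity)
      refine le_trans ?_ hKs
      gcongr
      · norm_num
    obtain ⟨ρ, hρ, hgood⟩ : ∃ ρ : ℝ, 0 < ρ ∧ ∀ z, |z - y| ≤ ρ →
        3 / 4 ≤ T * tp1 c K z * (2⁻¹ : ℝ) ^ s ∧ T * tp1 c K z * (2⁻¹ : ℝ) ^ s ≤ 5 / 4 := by
      have hcont : Continuous (fun z => T * tp1 c K z * (2⁻¹ : ℝ) ^ s) :=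
        (continuous_const.mul hprof.s1.continuous).mul continuous_const
      have hval : T * tp1 c K y * (2⁻¹ : ℝ) ^ s = 1 := by
        rw [hy, inv_pow]
        field_simp
      obtain ⟨ρ, hρ, h1⟩ := Metric.continuousAt_iff.1 (hcont.continuousAt (x := y)) (1 / 4)
        (by norm_num)
      refine ⟨ρ / 2, by positivity, fun z hz => ?_⟩
      have h2 := h1 (x := z) (by rw [Real.dist_eq]; linarith)
      rw [Real.dist_eq, hval, abs_lt] at h2
      constructor <;> linarith [h2.1, h2.2]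
    obtain ⟨ν₀, hν₀, hmain⟩ := lower_main hi hprof hper hδ hT.le
      (by positivity : (0 : ℝ) < (2⁻¹ : ℝ) ^ s) (pow_le_one₀ (by norm_num) (by norm_num))
      hρ hgood hCE0
    have h1 : Tendsto (fun J : ℕ => (2⁻¹ : ℝ) ^ J) atTop (𝓝 0) :=
      tendsto_pow_atTop_nhds_zero_of_lt_one (by norm_num) (by norm_num)
    filter_upwards [h1.eventually_lt_const hν₀] with J hJ v hv hen
    exact hmain _ (by positivity) hJ.le v hv hen
  obtain ⟨J, hJ⟩ := hev.exists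
  set ν : ℝ := (2⁻¹ : ℝ) ^ J with hν
  have hν0 : 0 < ν := by positivity
  have hν1 : ν ≤ 1 := pow_le_one₀ (by norm_num) (by norm_num)
  have hνi : ν⁻¹ = 2 ^ J := by rw [hν, inv_pow, inv_inv]
  -- the perturbed datum
  have htrb := tr_bdd hcb K
  have htlb := tl_bdd hcb K
  have hptb := pt_bdd J δ
  set v₀ : E n → E n := fun x => sh (tr K c) i1 i0 x + sh (pt J δ) i0 i1 x with hv₀
  have htrS : (∑' k, ‖tr K c k‖ₑ ^ q) ^ (1 / q) ≤ S := by
    exact ENNReal.rpow_le_rpow (tsum_tr_le K c hq0) (by positivity)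
  have hptS : (∑' k, ‖pt J δ k‖ₑ ^ q) ^ (1 / q) = ‖δ‖ₑ := tsum_pt J δ hq0
  have m1 : MemBesov χ q (sh (tr K c) i1 i0) :=
    hmem _ _ _ _ htrb (ne_top_of_le_ne_top hST htrS)
  have m2 : MemBesov χ q (sh (pt J δ) i0 i1) :=
    hmem _ _ _ _ hptb (by rw [hptS]; exact enorm_ne_top)
  have bc1 := htrb.sh_BC i1 i0
  have bc2 := hptb.sh_BC i0 i1
  have hv₀m : MemBesov χ q v₀ := by
    refine ⟨bc1.cont.add bc2.cont, ⟨_, (bc1.add bc2).bound⟩, ?_⟩
    exact (besovNorm_add_le bc1 bc2 χ hq.le).trans_lt (ENNReal.add_lt_top.2 ⟨m1.2.2, m2.2.2⟩)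
  have hv₀d : WeaklyDivFree v₀ :=
    weaklyDivFree_add bc1.cont bc2.cont (sh_divFree htrb hi.symm) (sh_divFree hptb hi)
  have hclose : besovNorm χ q (fun x => v₀ x - u₀ x) < m := by
    have h1 : (fun x => v₀ x - u₀ x) = fun x => sh (tl K c) i1 i0 x + sh (pt J δ) i0 i1 x := by
      ext1 x
      simp only [hv₀, hu₀, sh]
      have h2 : lac (tr K c) (x i1) = lac c (x i1) + lac (tl K c) (x i1) := by
        rw [tr_eq]; exact lac_add hcb htlb _
      rw [h2]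
      module
    rw [h1]
    calc besovNorm χ q (fun x => sh (tl K c) i1 i0 x + sh (pt J δ) i0 i1 x)
        ≤ besovNorm χ q (sh (tl K c) i1 i0) + besovNorm χ q (sh (pt J δ) i0 i1) :=
          besovNorm_add_le (htlb.sh_BC i1 i0) bc2 χ hq.le
      _ ≤ K₁ * (∑' k, ‖tl K c k‖ₑ ^ q) ^ (1 / q) + K₁ * ‖δ‖ₑ := by
          gcongr
          · exact hsh _ _ _ _ htlb
          · rw [← hptS]; exact hsh _ _ _ _ hptb
      _ < m / 2 + m / 2 := ENNReal.add_lt_add hKt hδm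
      _ = m := ENNReal.add_halves m
  have hv₀s : ContDiff ℝ ∞ v₀ :=
    (sh_contDiff hprof.s0 i1 i0).add (sh_contDiff (lac_pt_contDiff J δ) i0 i1)
  refine ⟨v₀, hv₀s, hv₀m, hv₀d, hclose, ?_⟩
  intro v pv hpv
  by_contra hcon
  rw [not_lt] at hcon
  -- `v(T)` minus the shear
  set g : E n → E n := fun x => v T x - f (x i1) • eb i0 with hg
  obtain ⟨Cv, hCv⟩ := (hpv.mem T hTm).bc
  have hgBC : BC g (Cv + 2 * 1) := hCv.sub bc1
  have hgnorm : besovNorm χ q g ≤ A := by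
    have hneg : Bdd (fun k => - tr K c k) 1 := fun k => by rw [abs_neg]; exact htrb k
    have hlneg : ∀ y, lac (fun k => - tr K c k) y = - lac (tr K c) y := by
      intro y
      unfold lac
      rw [← tsum_neg]
      apply tsum_congr
      intro k
      ring
    have h1 : g = fun x => v T x + sh (fun k => - tr K c k) i1 i0 x := by
      ext1 x
      simp only [hg, sh, hlneg, hf]
      module
    rw [h1]
    calc besovNorm χ q (fun x => v T x + sh (fun k => - tr K c k) i1 i0 x)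
        ≤ besovNorm χ q (v T) + besovNorm χ q (sh (fun k => - tr K c k) i1 i0) :=
          besovNorm_add_le hCv (hneg.sh_BC i1 i0) χ hq.le
      _ ≤ A₀ + K₁ * S := by
          gcongr
          refine (hsh _ _ _ _ hneg).trans ?_
          gcongr
          refine le_trans (le_of_eq ?_) htrS
          simp only [enorm_neg]
      _ = A := rfl
  -- stability
  obtain ⟨Mv, Hv, hMv, hHv, hwf⟩ := hpv.weakFlow hq.le
  obtain ⟨hfl, hflL, hflP⟩ := happ ν hν0 hν1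
  have hinit : v 0 = Uv i0 i1 f (tp1 c K) (tp2 c K) δ ν 0 := by
    rw [hpv.init]
    ext1 x
    simp only [hv₀, sh, Uv, U0, U1, wave, BY, Bq, lac_pt, hνi, hf]
    have e1 : lac (tr K c) (x i1) + δ * ν * (0 * tp1 c K (x i1) *
        (1 + (0 : ℝ) ^ 2 * tp1 c K (x i1) ^ 2)⁻¹) * Real.sin (2 ^ J * (x i0 - 0 * lac (tr K c) (x i1))) +
        δ * ν ^ 2 * (-2 * (0 : ℝ) ^ 2 * tp1 c K (x i1) * tp2 c K (x i1) *
        (1 + (0 : ℝ) ^ 2 * tp1 c K (x i1) ^ 2)⁻¹ ^ 2) *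
        Real.cos (2 ^ J * (x i0 - 0 * lac (tr K c) (x i1))) = lac (tr K c) (x i1) := by ring
    have e2 : 0 + δ * ν * (1 + (0 : ℝ) ^ 2 * tp1 c K (x i1) ^ 2)⁻¹ *
        Real.sin (2 ^ J * (x i0 - 0 * lac (tr K c) (x i1))) +
        0 * Real.cos (2 ^ J * (x i0 - 0 * lac (tr K c) (x i1))) =
        δ * ν * Real.sin (2 ^ J * x i0) := by
      norm_num
    rw [e1, e2]
  have hst := hstab T (max Mv Ka) Hv Ka (Ka * ν ^ 2) Ka v _ _ pv _ hT.le hHv
    (hwf.mono (le_max_left _ _)) hpv.pressure_growth (hfl.mono (le_max_right _ _)) hflL hflP hinit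
  have hpts : ∀ s ∈ Finset.range M, ENNReal.ofReal (δ / 20) ≤
      K₂ * ∑' m, wt (J + s) m * coeff χ g m := by
    intro s hs
    obtain ⟨x, hx⟩ := hJ s hs (v T) hCv.cont (by
      intro ε hε
      obtain ⟨R₀, -, hR₀⟩ := hst ε hε
      refine ⟨R₀, fun R hR => (hR₀ R hR T hTm).trans (le_of_eq ?_)⟩
      rw [hCE]
      ring)
    have hz : ‖((ν * (2⁻¹ : ℝ) ^ s) • (eb i1 : E n))‖ ≤ (2⁻¹ : ℝ) ^ (J + s) := by
      rw [norm_smul, norm_eb, mul_one, Real.norm_of_nonneg (by positivity), pow_add]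
    have h1 := hdiff g _ hgBC (J + s) x ((ν * (2⁻¹ : ℝ) ^ s) • (eb i1 : E n)) hz
    refine le_trans ?_ h1
    have h2 : ENNReal.ofReal (1 / 20 * (δ * ν * (2⁻¹ : ℝ) ^ s)) ≤
        ‖g (x + (ν * (2⁻¹ : ℝ) ^ s) • (eb i1 : E n)) + g (x - (ν * (2⁻¹ : ℝ) ^ s) • (eb i1 : E n)) -
          (2 : ℝ) • g x‖ₑ := by
      rw [← ofReal_norm]
      exact ENNReal.ofReal_le_ofReal hx
    calc ENNReal.ofReal (δ / 20)
        = 2 ^ (J + s) * ENNReal.ofReal (1 / 20 * (δ * ν * (2⁻¹ : ℝ) ^ s)) := by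
          have h3 : (2 : ℝ≥0∞) ^ (J + s) = ENNReal.ofReal (2 ^ (J + s)) := by
            rw [ENNReal.ofReal_pow (by norm_num)]; simp
          rw [h3, ← ENNReal.ofReal_mul (by positivity)]
          congr 1
          rw [hν, pow_add, inv_pow, inv_pow]
          field_simp
      _ ≤ _ := by gcongr
  -- summation
  have hsum : (M : ℝ≥0∞) * (ENNReal.ofReal (δ / 20)) ^ q ≤ (K₂ * 4 * A) ^ q := by
    calc (M : ℝ≥0∞) * (ENNReal.ofReal (δ / 20)) ^ q
        = ∑ s ∈ Finset.range M, (ENNReal.ofReal (δ / 20)) ^ q := by simp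
      _ ≤ ∑ s ∈ Finset.range M, (K₂ * ∑' m, wt (J + s) m * coeff χ g m) ^ q := by
          refine Finset.sum_le_sum (fun s hs => ?_)
          exact ENNReal.rpow_le_rpow (hpts s hs) hq0.le
      _ ≤ ∑' s, (K₂ * ∑' m, wt (J + s) m * coeff χ g m) ^ q := ENNReal.sum_le_tsum _
      _ ≤ ∑' r, (K₂ * ∑' m, wt r m * coeff χ g m) ^ q :=
          ENNReal.tsum_comp_le_tsum_of_injective (f := fun s : ℕ => J + s)
            (fun a b h => by simpa using h) (fun r => (K₂ * ∑' m, wt r m * coeff χ g m) ^ q)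
      _ = K₂ ^ q * ∑' r, (∑' m, wt r m * coeff χ g m) ^ q := by
          rw [← ENNReal.tsum_mul_left]
          apply tsum_congr
          intro r
          rw [ENNReal.mul_rpow_of_nonneg _ _ hq0.le]
      _ ≤ K₂ ^ q * (4 ^ q * ∑' m, coeff χ g m ^ q) := by
          gcongr
          exact young_wt hq _
      _ = (K₂ * 4 * besovNorm χ q g) ^ q := by
          rw [ENNReal.mul_rpow_of_nonneg _ _ hq0.le, ENNReal.mul_rpow_of_nonneg _ _ hq0.le,
            besovNorm_rpow χ hq0, mul_assoc]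
      _ ≤ (K₂ * 4 * A) ^ q := by gcongr
  exact absurd hM (not_lt.2 hsum)

/-- Ill-posedness in the sense of Hadamard. -/
theorem not_wellPosed (hn : 2 ≤ n) {q : ℝ} (hq : 1 < q) (χ : LPCutoff n)
    (Sol : ℝ → (E n → E n) → (ℝ → E n → E n) → Prop)
    (hSol : ∀ T u₀ u, Sol T u₀ u → ∃ p, IsEulerSolution χ q T u₀ u p) :
    ¬ WellPosed χ q Sol := by
  intro hWP
  obtain ⟨u₀, hu₀m, hu₀d, -, hinf⟩ := inflation hn hq χ
  obtain ⟨T, hT, ⟨r, hr, hex⟩, hcont⟩ := hWP u₀ hu₀m hu₀d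
  obtain ⟨δc, hδc, hcont1⟩ := hcont 1 one_pos
  have hTm : T ∈ Icc 0 T := right_mem_Icc.2 hT.le
  obtain ⟨u, hu, -⟩ := hex u₀ hu₀m hu₀d (by
    have : (fun x => u₀ x - u₀ x) = fun _ => (0 : E n) := by ext1 x; simp
    rw [this, besovNorm_zero χ hq ⟨0, by omega⟩ ⟨1, by omega⟩]
    exact hr)
  obtain ⟨pu, hpu⟩ := hSol _ _ _ hu
  have huT := (hpu.mem T hTm).2.2
  obtain ⟨v₀, -, hv₀m, hv₀d, hclose, hbig⟩ := hinf T hT (1 + besovNorm χ q (u T))
    (ENNReal.add_lt_top.2 ⟨by norm_num, huT⟩) (min r δc) (lt_min hr hδc)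
  obtain ⟨v, hv, -⟩ := hex v₀ hv₀m hv₀d (hclose.trans_le (min_le_left _ _))
  obtain ⟨pv, hpv⟩ := hSol _ _ _ hv
  have h1 := hcont1 v₀ hv₀m hv₀d (hclose.trans_le (min_le_right _ _)) u v hu hv T hTm
  have h2 := hbig v pv hpv
  obtain ⟨Cv, hCv⟩ := (hpv.mem T hTm).bc
  obtain ⟨Cu, hCu⟩ := (hpu.mem T hTm).bc
  have h3 := besovNorm_add_le (hCv.sub hCu) hCu χ hq.le
  have h4 : (fun x => (v T x - u T x) + u T x) = v T := by ext1 x; simp
  rw [h4] at h3
  exact absurd h2 (not_lt.2 (h3.trans (by gcongr)))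

end Pool.Agent.MP_f6d183_an
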